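import Pool.Agent.Run7.h503.WN.Main

set_option autoImplicit false

namespace Pool.Agent.H503.WN

open Polynomial Pool.Agent.R80.WF

/-- the quartic -/
noncomputable def P4 (p : ℕ) : ℤ[X] := X ^ 4 + X ^ 3 + X ^ 2 + C (p : ℤ) * X + C ((p : ℤ) ^ 2)

theorem PP_four (p : ℕ) : PP p 2 (fun _ => 1) = P4 p := by
  rw [PP, P4, Finset.sum_range_succ, Finset.sum_range_one]
  simp
  ring

theorem aeval_P4 (p : ℕ) (x : ℂ) : aeval x (P4 p) = x ^ 4 + x ^ 3 + x ^ 2 + p * x + p ^ 2 := by
  simp [P4]

/-- a real quadratic with negative discriminant -/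
theorem quad {x : ℂ} {y p : ℝ} (hp : y ^ 2 < 4 * p) (h : x ^ 2 - y * x + p = 0) :
    x.im ≠ 0 ∧ y = 2 * x.re ∧ p = ‖x‖ ^ 2 := by
  have h1 := congrArg Complex.re h
  have h2 := congrArg Complex.im h
  simp only [pow_two, Complex.add_re, Complex.sub_re, Complex.mul_re, Complex.ofReal_re,
    Complex.ofReal_im, zero_mul, sub_zero, Complex.zero_re, Complex.add_im, Complex.sub_im,
    Complex.mul_im, add_zero, Complex.zero_im] at h1 h2
  have h3 : x.im ≠ 0 := by
    intro h0
    rw [h0] at h1
    nlinarith [sq_nonneg (2 * x.re - y)]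
  have h4 : y = 2 * x.re := by
    have : x.im * (2 * x.re - y) = 0 := by linarith
    rcases mul_eq_zero.1 this with h5 | h5
    · exact absurd h5 h3
    · linarith
  refine ⟨h3, h4, ?_⟩
  rw [← Complex.normSq_eq_norm_sq, Complex.normSq_apply]
  rw [h4] at h1
  linarith

theorem root4 {p : ℕ} (hp : 2 ≤ p) {x : ℂ} (hx : aeval x (P4 p) = 0) :
    x ≠ 0 ∧ (x + p / x) ^ 2 + (x + p / x) + 1 - 2 * p = 0 ∧ x.im ≠ 0 ∧ ‖x‖ ^ 2 = p ∧
      x + p / x = 2 * x.re := by
  have hp0 : (p : ℂ) ≠ 0 := by
    have : p ≠ 0 := by omega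
    exact_mod_cast this
  rw [aeval_P4] at hx
  have hx0 : x ≠ 0 := by
    rintro rfl
    apply hp0
    have : (p : ℂ) ^ 2 = 0 := by linear_combination hx
    exact pow_eq_zero_iff (two_ne_zero) |>.1 this
  have hY : (x + p / x) ^ 2 + (x + p / x) + 1 - 2 * p = 0 := by
    have : x ^ 2 * ((x + p / x) ^ 2 + (x + p / x) + 1 - 2 * p) = 0 := by
      rw [← hx]
      field_simp
      ring
    rcases mul_eq_zero.1 this with h | h
    · exact absurd h (pow_ne_zero _ hx0)
    · exact h
  set Y : ℂ := x + p / x with hYdef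
  have hpr : (2 : ℝ) ≤ p := by exact_mod_cast hp
  set D : ℝ := Real.sqrt (8 * p - 3) with hD
  have hD2 : D ^ 2 = 8 * p - 3 := Real.sq_sqrt (by linarith)
  have hD0 : 0 ≤ D := Real.sqrt_nonneg _
  have hDlt : D < 4 * p + 1 := by
    nlinarith
  have hYD : ((2 * Y + 1) - D) * ((2 * Y + 1) + D) = 0 := by
    have : ((D : ℂ)) ^ 2 = 8 * p - 3 := by exact_mod_cast hD2
    linear_combination 4 * hY - this
  obtain ⟨y, hy, hylt⟩ : ∃ y : ℝ, Y = y ∧ y ^ 2 < 4 * p := by
    rcases mul_eq_zero.1 hYD with h | h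
    · refine ⟨(-1 + D) / 2, ?_, ?_⟩
      · push_cast
        linear_combination h / 2
      · nlinarith
    · refine ⟨(-1 - D) / 2, ?_, ?_⟩
      · push_cast
        linear_combination h / 2
      · nlinarith
  have hq : x ^ 2 - (y : ℂ) * x + ((p : ℝ) : ℂ) = 0 := by
    rw [← hy, hYdef]
    push_cast
    field_simp
    ring
  obtain ⟨h1, h2, h3⟩ := quad hylt hq
  refine ⟨hx0, hY, h1, h3.symm, ?_⟩
  rw [hy, h2]
  push_cast
  ring

/-- irreducibility -/
theorem irr4 {p : ℕ} (hp : 2 ≤ p) : Irreducible ((P4 p).map (Int.castRingHom ℚ)) := by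
  have hPm : (P4 p).Monic := PP_four p ▸ monic_PP (by norm_num) rfl
  have hdeg : (P4 p).natDegree = 4 := PP_four p ▸ natDegree_PP (by norm_num) rfl
  have hmap : (P4 p).map (Int.castRingHom ℚ) = (P4 p).map (algebraMap ℤ ℚ) := rfl
  rw [hmap, ← hPm.irreducible_iff_irreducible_map_fraction_map]
  have hP1 : P4 p ≠ 1 := by
    intro h
    rw [h, natDegree_one] at hdeg
    omega
  rw [hPm.irreducible_iff_natDegree']
  refine ⟨hP1, fun A B hA hB hAB hmem => ?_⟩
  rw [Finset.mem_Ioc, hdeg] at hmem
  have hsum : A.natDegree + B.natDegree = 4 := by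
    rw [← hA.natDegree_mul hB, hAB, hdeg]
  have hrA : ∀ x : ℂ, aeval x A = 0 → aeval x (P4 p) = 0 := fun x hx => by
    rw [← hAB, map_mul, hx, zero_mul]
  have hrB : ∀ x : ℂ, aeval x B = 0 → aeval x (P4 p) = 0 := fun x hx => by
    rw [← hAB, map_mul, hx, mul_zero]
  -- shape of a quadratic factor
  have hquad : ∀ F : ℤ[X], F.Monic → F.natDegree = 2 → (∀ x : ℂ, aeval x F = 0 →
      aeval x (P4 p) = 0) → ∃ b : ℤ, ∀ c : ℤ, F.eval c = c ^ 2 + b * c + p := by
    intro F hF hFd hFr
    have hexp : ∀ c : ℤ, F.eval c = c ^ 2 + F.coeff 1 * c + F.coeff 0 := by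
      intro c
      rw [eval_eq_sum_range, hFd, Finset.sum_range_succ, Finset.sum_range_succ,
        Finset.sum_range_one]
      have : F.coeff 2 = 1 := by rw [← hFd]; exact hF
      rw [this]
      ring
    have hexpC : ∀ c : ℂ, aeval c F = c ^ 2 + (F.coeff 1 : ℂ) * c + (F.coeff 0 : ℂ) := by
      intro c
      rw [aeval_eq_sum_range, hFd, Finset.sum_range_succ, Finset.sum_range_succ,
        Finset.sum_range_one]
      have : F.coeff 2 = 1 := by rw [← hFd]; exact hF
      rw [this]
      simp only [zsmul_eq_mul, pow_zero, mul_one, pow_one, Int.cast_one, one_mul]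
      ring
    obtain ⟨x, hx⟩ := IsAlgClosed.exists_aeval_eq_zero ℂ F (by
      rw [degree_eq_natDegree hF.ne_zero, hFd]; norm_num)
    obtain ⟨_, _, him, hn, _⟩ := root4 hp (hFr x hx)
    rw [hexpC] at hx
    have h1 := congrArg Complex.re hx
    have h2 := congrArg Complex.im hx
    simp only [pow_two, Complex.add_re, Complex.mul_re, Complex.intCast_re, Complex.intCast_im,
      zero_mul, sub_zero, Complex.zero_re, Complex.add_im, Complex.mul_im, add_zero,
      Complex.zero_im] at h1 h2
    have h3 : ((F.coeff 1 : ℤ) : ℝ) = -2 * x.re := by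
      have : x.im * (2 * x.re + (F.coeff 1 : ℝ)) = 0 := by linarith
      rcases mul_eq_zero.1 this with h5 | h5
      · exact absurd h5 him
      · linarith
    rw [← Complex.normSq_eq_norm_sq, Complex.normSq_apply] at hn
    have h4 : ((F.coeff 0 : ℤ) : ℝ) = p := by
      rw [h3] at h1
      linarith
    have h5 : F.coeff 0 = p := by exact_mod_cast h4
    exact ⟨F.coeff 1, fun c => by rw [hexp, h5]⟩
  have hB12 : B.natDegree = 1 ∨ B.natDegree = 2 := by omega
  rcases hB12 with h1 | h2
  · -- a rational root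
    have hexpC : ∀ c : ℂ, aeval c B = c + (B.coeff 0 : ℂ) := by
      intro c
      rw [aeval_eq_sum_range, h1, Finset.sum_range_succ, Finset.sum_range_one]
      have : B.coeff 1 = 1 := by rw [← h1]; exact hB
      rw [this]
      simp only [zsmul_eq_mul, pow_zero, mul_one, pow_one, Int.cast_one, one_mul]
      ring
    have h3 : aeval (-(B.coeff 0 : ℂ)) B = 0 := by rw [hexpC]; ring
    obtain ⟨_, _, him, _, _⟩ := root4 hp (hrB _ h3)
    apply him
    simp
  · have h3 : A.natDegree = 2 := by omega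
    obtain ⟨b, hb⟩ := hquad A hA h3 hrA
    obtain ⟨c, hc⟩ := hquad B hB h2 hrB
    have e1 : (P4 p).eval 1 = 3 + p + p ^ 2 := by
      rw [P4]
      simp only [eval_add, eval_mul, eval_pow, eval_X, eval_C]
      ring
    have e2 : (P4 p).eval (-1) = 1 - p + p ^ 2 := by
      rw [P4]
      simp only [eval_add, eval_mul, eval_pow, eval_X, eval_C]
      ring
    rw [← hAB, eval_mul, hb, hc] at e1 e2
    have hs : ((p : ℤ) + 1) * (b + c - 1) = 0 := by
      have : 2 * (((p : ℤ) + 1) * (b + c - 1)) = 0 := by linear_combination e1 - e2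
      omega
    have hs' : b + c = 1 := by
      rcases mul_eq_zero.1 hs with h | h
      · have : (0 : ℤ) ≤ p := Int.natCast_nonneg p
        omega
      · omega
    have ht : b * c = 1 - 2 * p := by
      have : 2 * (b * c) = 2 * (1 - 2 * p) := by linear_combination e1 + e2
      omega
    have hc' : c = 1 - b := by omega
    rw [hc'] at ht
    have h8 : (2 * b - 1) ^ 2 = 8 * p - 3 := by linear_combination -4 * ht
    have h9 : (2 * b - 1) ^ 2 = 4 * (b * (b - 1)) + 1 := by ring
    have h10 : (b * (b - 1)) % 2 = 0 := by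
      rcases Int.even_or_odd b with ⟨k, hk⟩ | ⟨k, hk⟩
      · have : b * (b - 1) = 2 * (k * (b - 1)) := by rw [hk]; ring
        omega
      · have : b * (b - 1) = 2 * (b * k) := by rw [hk]; ring
        omega
    omega

/-- the trace of a root of unity is not a root of `p t^2 - (1 - 2p) t - 1` -/
theorem no_trace {p : ℕ} (hp : 2 ≤ p) (t : ℂ) (ht : IsIntegral ℤ t)
    (h : p * t ^ 2 - (1 - 2 * p) * t - 1 = 0) : False := by
  set F : ℤ[X] := C (p : ℤ) * X ^ 2 + C (2 * p - 1 : ℤ) * X + C (-1) with hF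
  have hF0 : aeval t F = 0 := by
    rw [hF]
    simp only [map_add, map_mul, map_pow, aeval_X, aeval_C]
    simp only [eq_intCast]
    push_cast
    linear_combination h
  have hp0 : (p : ℤ) ≠ 0 := by
    have : p ≠ 0 := by omega
    exact_mod_cast this
  have hFd : F.natDegree = 2 := natDegree_quadratic hp0
  have hFl : F.leadingCoeff = p := leadingCoeff_quadratic hp0
  have hμ := minpoly.monic ht
  obtain ⟨G, hG⟩ := minpoly.isIntegrallyClosed_dvd ht hF0
  have hG0 : G ≠ 0 := by
    rintro rfl
    rw [mul_zero] at hG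
    rw [hG, natDegree_zero] at hFd
    omega
  have hdeg : (minpoly ℤ t).natDegree + G.natDegree = 2 := by
    rw [← hμ.natDegree_mul' hG0, ← hG, hFd]
  have hpos : 0 < (minpoly ℤ t).natDegree := minpoly.natDegree_pos ht
  have hc0 : (minpoly ℤ t).coeff 0 * G.coeff 0 = -1 := by
    rw [← mul_coeff_zero, ← hG, hF]
    simp
  by_cases h2 : (minpoly ℤ t).natDegree = 2
  · have h3 : G.natDegree = 0 := by omega
    rw [natDegree_eq_zero] at h3
    obtain ⟨c, hc⟩ := h3
    have h4 : c = p := by
      rw [← hFl, hG, leadingCoeff_mul, hμ.leadingCoeff, one_mul, ← hc, leadingCoeff_C]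
    rw [← hc, coeff_C_zero, h4] at hc0
    have h5 : (p : ℤ) ∣ 1 := ⟨-(minpoly ℤ t).coeff 0, by linear_combination hc0⟩
    have h6 := Int.le_of_dvd one_pos h5
    omega
  · have h1 : (minpoly ℤ t).natDegree = 1 := by omega
    have h3 : t = ((-(minpoly ℤ t).coeff 0 : ℤ) : ℂ) := by
      have h4 := minpoly.aeval ℤ t
      rw [aeval_eq_sum_range, h1, Finset.sum_range_succ, Finset.sum_range_one] at h4
      have h5 : (minpoly ℤ t).coeff 1 = 1 := by rw [← h1]; exact hμ
      rw [h5] at h4
      simp only [zsmul_eq_mul, pow_zero, mul_one, pow_one, Int.cast_one, one_mul] at h4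
      push_cast
      linear_combination h4
    set m : ℤ := -(minpoly ℤ t).coeff 0 with hm
    have h4 : (p : ℤ) * m ^ 2 - (1 - 2 * p) * m - 1 = 0 := by
      rw [h3] at h
      exact_mod_cast h
    have h5 : m * (p * m + 2 * p - 1) = 1 := by linear_combination h4
    rcases Int.isUnit_iff.1 (IsUnit.of_mul_eq_one _ h5) with h6 | h6
    · rw [h6] at h5
      omega
    · rw [h6] at h5
      omega

theorem poly_ne {p : ℕ} (hp : p.Prime) (n : ℕ) :
    ¬ (P4 p) ∣ X ^ (2 * n) - C ((p : ℤ) ^ n) ∨ n = 0 := by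
  by_cases hn : n = 0
  · exact Or.inr hn
  left
  haveI : Fact p.Prime := ⟨hp⟩
  rintro ⟨S, hS⟩
  have h1 := congrArg (Polynomial.map (Int.castRingHom (ZMod p))) hS
  rw [Polynomial.map_mul] at h1
  have hp0 : (Int.castRingHom (ZMod p)) (p : ℤ) = 0 := by
    rw [eq_intCast, Int.cast_natCast]
    exact ZMod.natCast_self p
  have h2 : (P4 p).map (Int.castRingHom (ZMod p)) = X ^ 2 * (X ^ 2 + X + 1) := by
    rw [P4]
    simp only [Polynomial.map_add, Polynomial.map_mul, Polynomial.map_pow, Polynomial.map_X,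
      Polynomial.map_C, map_pow, hp0]
    rw [C_0]
    ring
  have h3 : (X ^ (2 * n) - C ((p : ℤ) ^ n)).map (Int.castRingHom (ZMod p)) = X ^ (2 * n) := by
    simp only [Polynomial.map_sub, Polynomial.map_pow, Polynomial.map_X,
      Polynomial.map_C, map_pow, hp0]
    rw [C_0, zero_pow hn, sub_zero]
  rw [h2, h3] at h1
  have hcop : IsCoprime (X ^ 2 + X + 1 : (ZMod p)[X]) (X ^ (2 * n)) := by
    refine IsCoprime.pow_right ⟨1, -(X + 1), ?_⟩
    ring
  have hdvd : (X ^ 2 + X + 1 : (ZMod p)[X]) ∣ X ^ (2 * n) := by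
    rw [h1]
    exact (dvd_mul_left _ _).mul_right _
  have hu := hcop.isUnit_of_dvd' dvd_rfl hdvd
  have hd := natDegree_eq_zero_of_isUnit hu
  have h4 : (X ^ 2 + X + 1 : (ZMod p)[X]) = C 1 * X ^ 2 + C 1 * X + C 1 := by
    rw [C_1]; ring
  rw [h4, natDegree_quadratic one_ne_zero] at hd
  omega

/-- ordinary surfaces -/
theorem good_two_two (p : ℕ) (hp : p.Prime) : Good p 2 2 := by
  have hp2 := hp.two_le
  have hPm : (P4 p).Monic := PP_four p ▸ monic_PP (by norm_num) rfl
  have hdeg : (P4 p).natDegree = 4 := PP_four p ▸ natDegree_PP (by norm_num) rfl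
  have hirr := irr4 hp2
  refine ⟨P4 p, hPm, hdeg, hirr, ?_, ?_, ?_, ?_⟩
  · intro x hx
    obtain ⟨_, _, _, h, _⟩ := root4 hp2 hx
    rw [← h, Real.sqrt_sq (norm_nonneg _)]
  · intro i hi
    have hi' : i = 0 ∨ i = 1 := by omega
    rcases hi' with rfl | rfl
    · rw [← PP_four, coeff_PP]
      norm_num
    · rw [← PP_four, coeff_PP]
      norm_num
  · rw [← PP_four, coeff_PP]
    norm_num
    intro h
    have := Int.le_of_dvd one_pos h
    omega
  · intro x hx n hn
    obtain ⟨hx0, hxY, hxim, hxn, hxre⟩ := root4 hp2 hx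
    have hp0 : (p : ℂ) ≠ 0 := by
      have : p ≠ 0 := by omega
      exact_mod_cast this
    have hkey : ∀ y : ℂ, aeval y (P4 p) = 0 → y ^ n = x ^ n → y = x := by
      intro y hy hyn
      obtain ⟨hy0, hyY, hyim, hyn', hyre⟩ := root4 hp2 hy
      by_contra hne
      by_cases hc : y * x = p
      · -- the real case
        have h1 : x ^ (2 * n) = (p : ℂ) ^ n := by
          rw [← hc, mul_pow, hyn, two_mul, pow_add]
        have h2 : (P4 p).map (algebraMap ℤ ℚ) ∣ (X ^ (2 * n) - C ((p : ℤ) ^ n)).map (algebraMap ℤ ℚ) := by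
          rw [← minpoly_eq (P4 p) hPm hirr x hx]
          refine minpoly.dvd _ _ ?_
          rw [aeval_map_algebraMap, map_sub, map_pow, aeval_X, aeval_C, h1]
          simp
        rw [map_dvd_map _ (algebraMap ℤ ℚ).injective_int hPm] at h2
        rcases poly_ne hp n with h3 | h3
        · exact h3 h2
        · omega
      · set Y : ℂ := x + p / x with hYd
        set Y' : ℂ := y + p / y with hY'd
        have hYY : Y ≠ Y' := by
          intro h
          have h1 : (y - x) * (y * x - p) = 0 := by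
            have h2 : y * x * (Y' - Y) = (y - x) * (y * x - p) := by
              rw [hYd, hY'd]
              field_simp
              ring
            rw [← h2, h]
            ring
          rcases mul_eq_zero.1 h1 with h3 | h3
          · exact hne (sub_eq_zero.1 h3)
          · exact hc (sub_eq_zero.1 h3)
        have hs : Y + Y' = -1 := by
          have h1 : (Y - Y') * (Y + Y' + 1) = 0 := by linear_combination hxY - hyY
          rcases mul_eq_zero.1 h1 with h3 | h3
          · exact absurd (sub_eq_zero.1 h3) hYY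
          · linear_combination h3
        have hpr : Y * Y' = 1 - 2 * p := by
          have h1 : Y' = -1 - Y := by linear_combination hs
          rw [h1]
          linear_combination -hxY
        set t : ℂ := y / x + x / y with ht
        set v : ℂ := x * y + p ^ 2 / (x * y) with hv
        have huv : p * t + v = 1 - 2 * p := by
          rw [← hpr, hYd, hY'd, ht, hv]
          field_simp
          ring
        have hpv : t * v = -1 := by
          have h1 : t * v = (Y ^ 2 - 2 * p) + (Y' ^ 2 - 2 * p) := by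
            rw [hYd, hY'd, ht, hv]
            field_simp
            ring
          rw [h1]
          linear_combination (Y + Y' - 1) * hs - 2 * hpr
        refine no_trace hp2 t ?_ ?_
        · have hz : ∀ a b : ℂ, b ≠ 0 → a ^ n = b ^ n → IsIntegral ℤ (a / b) := by
            intro a b hb hab
            refine ⟨X ^ n - 1, monic_X_pow_sub_C 1 (by omega), ?_⟩
            have : (a / b) ^ n = 1 := by rw [div_pow, hab, div_self (pow_ne_zero _ hb)]
            simp [this]
          exact (hz y x hx0 hyn).add (hz x y hy0 hyn.symm)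
        · linear_combination t * huv - hpv
    apply le_antisymm
    · rw [IntermediateField.adjoin_simple_le_iff]
      exact pow_mem (IntermediateField.mem_adjoin_simple_self ℚ x) _
    · rw [IntermediateField.adjoin_simple_le_iff]
      have h1 := pow_mem_of_conj (P4 p) hPm x hx n 1 fun y hy hyn => by
        rw [hkey y hy hyn]
      rw [pow_one] at h1
      exact h1

end Pool.Agent.H503.WN
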