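import Pool.Agent.Run7.h503.WN.ExcTheory

set_option autoImplicit false

namespace Pool.Agent.H503.WN

open Polynomial Pool.Agent.R80.WF

theorem exc_3_2 : Good 2 3 2 := by
  refine exc_good 3 2 [1, -2, 1, 0] [2, -4, 2, 0]
    [16, 32, 48, 64, 80, 96, 112, 128, 144] 7 32 9 7 [6, 1, 5, 0, 6, 2]
    [(2, [2, 3, 1, 5, 1, 1]), (3, [5, 1, 0, 1, 5, 3])]
    5 24 [2, 3, 3, 0, 4, 2] 3 26 [1, 2, 1, 0, 2, 2] ?_ ?_ ?_ ?_ ?_ ?_ ?_ ?_ ?_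
  · decide +kernel
  · norm_num
  · decide +kernel
  · decide +kernel
  · decide +kernel
  · decide +kernel
  · decide +kernel
  · decide +kernel
  · decide +kernel

theorem exc_3_3 : Good 2 3 3 := by
  refine exc_good 3 3 [1, -1, 1, -3] [2, -2, 2, -3]
    [16, 16, 0, 8, 32, 24, 4, 28, 60] 7 32 9 7 [6, 4, 5, 3, 6, 1]
    [(2, [5, 4, 1, 2, 4, 2]), (3, [0, 5, 3, 1, 2, 5])]
    3 26 [1, 1, 1, 0, 2, 1] 17 96 [9, 4, 15, 3, 16, 1] ?_ ?_ ?_ ?_ ?_ ?_ ?_ ?_ ?_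
  · decide +kernel
  · norm_num
  · decide +kernel
  · decide +kernel
  · decide +kernel
  · decide +kernel
  · decide +kernel
  · decide +kernel
  · decide +kernel

theorem exc_4_2 : Good 2 4 2 := by
  refine exc_good 4 2 [1, -1, 3, -2, 6] [2, -2, 6, -4, 6]
    [16, 16, -32, -48, 32, 64, -32, -16, 112, -96, -368, 192, 768, -256, -1072, 656, 1056] 12 32 12 3 [2, 2, 0, 1, 0, 2, 0, 1]
    [(3, [1, 0, 2, 1, 2, 2, 1, 0]), (4, [2, 2, 2, 2, 0, 0, 1, 1])]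
    3 164 [2, 2, 0, 1, 0, 2, 0, 1] 23 3718 [7, 8, 11, 4, 17, 2, 20, 1] ?_ ?_ ?_ ?_ ?_ ?_ ?_ ?_ ?_
  · decide +kernel
  · norm_num
  · decide +kernel
  · decide +kernel
  · decide +kernel
  · decide +kernel
  · decide +kernel
  · decide +kernel
  · decide +kernel

theorem exc_4_3 : Good 2 4 3 := by
  refine exc_good 4 3 [1, -1, 1, -1, 2] [2, -2, 2, -2, 2]
    [16, 16, 0, 0, 0, -16, -16] 7 32 12 7 [5, 1, 3, 2, 5, 1, 6, 1]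
    [(3, [2, 5, 0, 2, 6, 4, 0, 3]), (4, [5, 5, 2, 1, 6, 5, 2, 0])]
    3 26 [2, 2, 2, 2, 1, 1, 2, 1] 11 120 [6, 8, 7, 2, 9, 1, 10, 1] ?_ ?_ ?_ ?_ ?_ ?_ ?_ ?_ ?_
  · decide +kernel
  · norm_num
  · decide +kernel
  · decide +kernel
  · decide +kernel
  · decide +kernel
  · decide +kernel
  · decide +kernel
  · decide +kernel

theorem exc_4_4 : Good 2 4 4 := by
  refine exc_good 4 4 [1, 2, 3, 3, 5] [2, 4, 6, 6, 5]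
    [16, -32, 16, 16, -24, 32, -80, 96, 12, -152, 180, -180, 246] 10 32 8 3 [2, 2, 0, 0, 1, 0, 0, 1]
    [(3, [2, 0, 0, 2, 2, 2, 0, 2]), (4, [1, 2, 1, 1, 1, 0, 2, 2])]
    7 75 [5, 5, 2, 1, 2, 4, 4, 5] 3 164 [2, 2, 0, 0, 1, 0, 0, 1] ?_ ?_ ?_ ?_ ?_ ?_ ?_ ?_ ?_
  · decide +kernel
  · norm_num
  · decide +kernel
  · decide +kernel
  · decide +kernel
  · decide +kernel
  · decide +kernel
  · decide +kernel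
  · decide +kernel

theorem exc_5_2 : Good 2 5 2 := by
  refine exc_good 5 2 [1, -1, 1, -2, 2, -2] [2, -2, 2, -4, 4, -2]
    [16, 16, 0, 16, 16, -16, 16, 32, -32] 8 32 19 13 [7, 3, 5, 8, 9, 2, 11, 2, 12, 1]
    [(3, [10, 1, 7, 2, 5, 0, 1, 6, 12, 9]), (4, [2, 11, 10, 8, 2, 11, 9, 6, 1, 3]), (5, [1, 11, 5, 8, 8, 11, 5, 11, 12, 5])]
    3 22 [1, 1, 1, 2, 2, 2, 1, 2, 2, 1] 5 312 [3, 1, 2, 3, 1, 2, 3, 2, 4, 1] ?_ ?_ ?_ ?_ ?_ ?_ ?_ ?_ ?_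
  · decide +kernel
  · norm_num
  · decide +kernel
  · decide +kernel
  · decide +kernel
  · decide +kernel
  · decide +kernel
  · decide +kernel
  · decide +kernel

theorem exc_5_3 : Good 2 5 3 := by
  refine exc_good 5 3 [1, 0, 0, -1, 0, 0] [2, 0, 0, -2, 0, 0]
    [16, 0, 0, 16, 0, 0, 16] 7 32 9 3 [1, 0, 0, 1, 0, 0, 0, 1, 0, 0]
    [(3, [0, 2, 1, 2, 0, 0, 0, 1, 2, 2]), (4, [1, 1, 0, 1, 1, 2, 0, 0, 1, 2]), (5, [2, 0, 1, 2, 0, 1, 0, 1, 1, 2])]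
    7 147 [3, 0, 0, 4, 0, 0, 0, 1, 0, 0] 3 488 [1, 0, 0, 1, 0, 0, 0, 1, 0, 0] ?_ ?_ ?_ ?_ ?_ ?_ ?_ ?_ ?_
  · decide +kernel
  · norm_num
  · decide +kernel
  · decide +kernel
  · decide +kernel
  · decide +kernel
  · decide +kernel
  · decide +kernel
  · decide +kernel

theorem exc_6_2 : Good 2 6 2 := by
  refine exc_good 6 2 [1, -1, 1, 0, 0, -2, 2] [2, -2, 2, 0, 0, -4, 2]
    [16, 16, 0, -16, -16, 32, 64, 16, -80] 9 32 25 17 [4, 15, 1, 0, 0, 4, 15, 2, 0, 0, 16, 1]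
    [(4, [12, 14, 5, 5, 10, 2, 16, 16, 1, 4, 5, 6]), (5, [12, 9, 16, 9, 14, 11, 12, 14, 14, 15, 4, 8]), (6, [15, 5, 1, 14, 9, 5, 9, 4, 2, 2, 10, 6])]
    3 242 [2, 2, 2, 0, 0, 1, 1, 2, 0, 0, 2, 1] 5 360 [1, 2, 4, 0, 0, 4, 3, 2, 0, 0, 4, 1] ?_ ?_ ?_ ?_ ?_ ?_ ?_ ?_ ?_
  · decide +kernel
  · norm_num
  · decide +kernel
  · decide +kernel
  · decide +kernel
  · decide +kernel
  · decide +kernel
  · decide +kernel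
  · decide +kernel

theorem exc_6_4 : Good 2 6 4 := by
  refine exc_good 6 4 [1, -2, 3, -2, 1, 0, 2] [2, -4, 6, -4, 2, 0, 2]
    [16, 32, 16, -32, -64, -32, 32, 32, -48] 9 32 17 7 [6, 1, 1, 2, 3, 0, 5, 0, 6, 2, 4, 2]
    [(4, [3, 4, 6, 4, 5, 4, 3, 5, 4, 0, 3, 5]), (5, [0, 5, 6, 4, 4, 3, 6, 6, 0, 1, 1, 0]), (6, [5, 0, 0, 3, 4, 2, 5, 3, 4, 3, 1, 5])]
    3 22 [2, 1, 0, 1, 2, 0, 1, 0, 2, 2, 0, 2] 5 5208 [1, 4, 2, 1, 1, 0, 3, 0, 4, 2, 2, 2] ?_ ?_ ?_ ?_ ?_ ?_ ?_ ?_ ?_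
  · decide +kernel
  · norm_num
  · decide +kernel
  · decide +kernel
  · decide +kernel
  · decide +kernel
  · decide +kernel
  · decide +kernel
  · decide +kernel

theorem exc_7_3 : Good 2 7 3 := by
  refine exc_good 7 3 [1, 0, -1, -1, 0, 2, 0, 0] [2, 0, -2, -2, 0, 4, 0, 0]
    [16, 0, 16, 16, 16, 0, 32, -16] 9 32 17 5 [2, 0, 2, 1, 0, 2, 0, 0, 0, 3, 0, 1, 1, 0]
    [(4, [1, 2, 1, 4, 4, 0, 0, 3, 4, 0, 1, 3, 3, 4]), (5, [3, 2, 1, 2, 3, 4, 3, 2, 0, 3, 0, 2, 3, 4]), (6, [2, 1, 3, 2, 2, 0, 0, 0, 2, 4, 3, 4, 1, 4]), (7, [0, 0, 0, 2, 1, 1, 0, 3, 0, 4, 3, 2, 0, 2])]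
    3 520 [1, 0, 2, 1, 0, 1, 0, 0, 0, 1, 0, 1, 1, 0] 7 68457 [5, 0, 4, 2, 0, 6, 0, 0, 0, 5, 0, 1, 1, 0] ?_ ?_ ?_ ?_ ?_ ?_ ?_ ?_ ?_
  · decide +kernel
  · norm_num
  · decide +kernel
  · decide +kernel
  · decide +kernel
  · decide +kernel
  · decide +kernel
  · decide +kernel
  · decide +kernel

theorem exc_8_2 : Good 2 8 2 := by
  refine exc_good 8 2 [1, 1, 1, 0, 0, -2, 0, 0, 2] [2, 2, 2, 0, 0, -4, 0, 0, 2]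
    [16, -16, 0, 16, -16, 32, -48, 16, 48] 10 32 24 7 [3, 5, 6, 0, 0, 2, 0, 0, 5, 0, 0, 2, 0, 0, 6, 6]
    [(5, [1, 0, 6, 6, 0, 1, 6, 2, 6, 4, 2, 0, 4, 2, 6, 1]), (6, [4, 5, 5, 3, 6, 6, 0, 1, 2, 5, 3, 5, 3, 2, 3, 3]), (7, [5, 3, 6, 4, 6, 4, 5, 5, 5, 5, 1, 4, 1, 4, 2, 0]), (8, [5, 4, 6, 4, 3, 3, 1, 5, 3, 3, 5, 6, 2, 3, 4, 3])]
    3 2132 [2, 1, 2, 0, 0, 1, 0, 0, 1, 0, 0, 2, 0, 0, 2, 2] 7 8647203 [3, 5, 6, 0, 0, 2, 0, 0, 5, 0, 0, 2, 0, 0, 6, 6] ?_ ?_ ?_ ?_ ?_ ?_ ?_ ?_ ?_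
  · decide +kernel
  · norm_num
  · decide +kernel
  · decide +kernel
  · decide +kernel
  · decide +kernel
  · decide +kernel
  · decide +kernel
  · decide +kernel

end Pool.Agent.H503.WN
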