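import Mathlib

set_option autoImplicit false

namespace Pool.Agent.H503.WN

/-- evaluation of a coefficient list -/
def ev (z : ℂ) : List ℤ → ℂ
  | [] => 0
  | c :: L => (c : ℂ) + z * ev z L

def addL : List ℤ → List ℤ → List ℤ
  | [], M => M
  | a :: L, [] => a :: L
  | a :: L, b :: M => (a + b) :: addL L M

def smulL (c : ℤ) (L : List ℤ) : List ℤ := L.map fun b => c * b

def mulL : List ℤ → List ℤ → List ℤ
  | [], _ => []
  | a :: L, M => addL (smulL a M) (0 :: mulL L M)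

theorem ev_addL (z : ℂ) (L M : List ℤ) : ev z (addL L M) = ev z L + ev z M := by
  induction L generalizing M with
  | nil => simp [addL, ev]
  | cons a L ih =>
    cases M with
    | nil => simp [addL, ev]
    | cons b M =>
      simp only [addL, ev, ih]
      push_cast
      ring

theorem ev_smulL (z : ℂ) (c : ℤ) (L : List ℤ) : ev z (smulL c L) = c * ev z L := by
  induction L with
  | nil => simp [smulL, ev]
  | cons a L ih =>
    simp only [smulL, List.map_cons, ev] at *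
    rw [ih]
    push_cast
    ring

theorem ev_mulL (z : ℂ) (L M : List ℤ) : ev z (mulL L M) = ev z L * ev z M := by
  induction L with
  | nil => simp [mulL, ev]
  | cons a L ih =>
    simp only [mulL, ev_addL, ev_smulL, ev, ih]
    push_cast
    ring

/-- weighted norm, scaled by `41 * 2 ^ n` -/
def nbs : ℕ → List ℤ → ℕ
  | _, [] => 0
  | n, [c] => 41 * c.natAbs * 2 ^ n
  | n, c :: d :: L => (41 * c.natAbs + 29 * d.natAbs) * 2 ^ n + nbs (n - 1) L

theorem norm_le (z : ℂ) (hz : ‖z‖ ^ 2 ≤ 1 / 2) : ‖z‖ ≤ 29 / 41 := by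
  have h0 := norm_nonneg z
  nlinarith

theorem norm_int (c : ℤ) : ‖(c : ℂ)‖ = (c.natAbs : ℝ) := by
  rw [Complex.norm_intCast, ← Int.cast_abs, Int.abs_eq_natAbs, Int.cast_natCast]

theorem ev_le (z : ℂ) (hz : ‖z‖ ^ 2 ≤ 1 / 2) : ∀ (L : List ℤ) (n : ℕ),
    41 * 2 ^ n * ‖ev z L‖ ≤ (nbs n L : ℝ)
  | [], n => by simp [ev, nbs]
  | [c], n => by
    simp only [ev, nbs, mul_zero, add_zero, norm_int]
    push_cast
    linarith
  | c :: d :: L, n => by
    have ih := ev_le z hz L (n - 1)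
    have h1 : ‖ev z (c :: d :: L)‖ ≤ (c.natAbs : ℝ) + 29 / 41 * d.natAbs + 1 / 2 * ‖ev z L‖ := by
      simp only [ev]
      have e : (c : ℂ) + z * ((d : ℂ) + z * ev z L) = c + z * d + z ^ 2 * ev z L := by ring
      rw [e]
      refine (norm_add_le _ _).trans (add_le_add ((norm_add_le _ _).trans (add_le_add ?_ ?_)) ?_)
      · rw [norm_int]
      · rw [norm_mul, norm_int]
        exact mul_le_mul_of_nonneg_right (norm_le z hz) (Nat.cast_nonneg _)
      · rw [norm_mul, norm_pow]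
        exact mul_le_mul_of_nonneg_right hz (norm_nonneg _)
    simp only [nbs]
    push_cast
    have h2 : (2 : ℝ) ^ n ≤ 2 * 2 ^ (n - 1) := by
      rw [← pow_succ']
      exact pow_le_pow_right₀ (by norm_num) (by omega)
    have h3 : 0 ≤ ‖ev z L‖ := norm_nonneg _
    have h4 : (0 : ℝ) < 2 ^ n := by positivity
    calc 41 * 2 ^ n * ‖ev z (c :: d :: L)‖
        ≤ 41 * 2 ^ n * ((c.natAbs : ℝ) + 29 / 41 * d.natAbs + 1 / 2 * ‖ev z L‖) :=
          mul_le_mul_of_nonneg_left h1 (by positivity)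
      _ = (41 * (c.natAbs : ℝ) + 29 * d.natAbs) * 2 ^ n + 41 / 2 * (2 ^ n * ‖ev z L‖) := by ring
      _ ≤ (41 * (c.natAbs : ℝ) + 29 * d.natAbs) * 2 ^ n + 41 / 2 * (2 * 2 ^ (n - 1) * ‖ev z L‖) := by
          have := mul_le_mul_of_nonneg_right h2 h3
          linarith
      _ = (41 * (c.natAbs : ℝ) + 29 * d.natAbs) * 2 ^ n + 41 * 2 ^ (n - 1) * ‖ev z L‖ := by ring
      _ ≤ _ := by linarith

/-- the certificate that `|H| > p / q` on the disc of radius `1 / √2` -/
def chk (n S p q : ℕ) (H K : List ℤ) : Bool :=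
  decide (q * nbs n (addL (mulL H K) [-(S : ℤ)]) + p * nbs n K < q * S * 41 * 2 ^ n)

theorem chk_spec {n S p q : ℕ} {H K : List ℤ} (hq : 0 < q) (h : chk n S p q H K = true) (z : ℂ)
    (hz : ‖z‖ ^ 2 ≤ 1 / 2) : (p : ℝ) / q < ‖ev z H‖ := by
  have h1 : q * nbs n (addL (mulL H K) [-(S : ℤ)]) + p * nbs n K < q * S * 41 * 2 ^ n :=
    of_decide_eq_true h
  have h2 : (q : ℝ) * nbs n (addL (mulL H K) [-(S : ℤ)]) + p * nbs n K < q * S * 41 * 2 ^ n := by
    exact_mod_cast h1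
  have h3 := ev_le z hz (addL (mulL H K) [-(S : ℤ)]) n
  have h4 := ev_le z hz K n
  rw [ev_addL, ev_mulL] at h3
  simp only [ev, mul_zero, add_zero] at h3
  push_cast at h3
  have hqr : (0 : ℝ) < q := by exact_mod_cast hq
  have h5 : (S : ℝ) ≤ ‖ev z H * ev z K + -(S : ℂ)‖ + ‖ev z H‖ * ‖ev z K‖ := by
    have e : ((S : ℂ)) = -(ev z H * ev z K + -(S : ℂ)) + ev z H * ev z K := by ring
    have e2 : ‖((S : ℂ))‖ = (S : ℝ) := by simp
    calc (S : ℝ) = ‖((S : ℂ))‖ := e2.symm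
      _ = ‖-(ev z H * ev z K + -(S : ℂ)) + ev z H * ev z K‖ := by rw [← e]
      _ ≤ ‖-(ev z H * ev z K + -(S : ℂ))‖ + ‖ev z H * ev z K‖ := norm_add_le _ _
      _ = _ := by rw [norm_neg, norm_mul]
  have hs : (0 : ℝ) < 41 * 2 ^ n := by positivity
  have hK0 : 0 ≤ ‖ev z K‖ := norm_nonneg _
  rw [div_lt_iff₀ hqr]
  by_contra hcon
  push Not at hcon
  have h6 : ‖ev z H‖ * q * ‖ev z K‖ ≤ p * ‖ev z K‖ := mul_le_mul_of_nonneg_right hcon hK0
  have h7 : (41 * 2 ^ n) * (q * (S : ℝ)) ≤ q * nbs n (addL (mulL H K) [-(S : ℤ)]) +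
      p * nbs n K := by
    calc (41 * 2 ^ n) * (q * (S : ℝ))
        ≤ (41 * 2 ^ n) * (q * (‖ev z H * ev z K + -(S : ℂ)‖ + ‖ev z H‖ * ‖ev z K‖)) :=
          mul_le_mul_of_nonneg_left (mul_le_mul_of_nonneg_left h5 hqr.le) hs.le
      _ = q * (41 * 2 ^ n * ‖ev z H * ev z K + -(S : ℂ)‖) +
          (41 * 2 ^ n) * (‖ev z H‖ * q * ‖ev z K‖) := by ring
      _ ≤ q * (41 * 2 ^ n * ‖ev z H * ev z K + -(S : ℂ)‖) +
          (41 * 2 ^ n) * (p * ‖ev z K‖) := by
          have := mul_le_mul_of_nonneg_left h6 hs.le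
          linarith
      _ = q * (41 * 2 ^ n * ‖ev z H * ev z K + -(S : ℂ)‖) +
          p * (41 * 2 ^ n * ‖ev z K‖) := by ring
      _ ≤ _ := add_le_add (mul_le_mul_of_nonneg_left h3 hqr.le)
          (mul_le_mul_of_nonneg_left h4 (Nat.cast_nonneg _))
  linarith

theorem ev_eq_sum (z : ℂ) (L : List ℤ) :
    ev z L = ∑ i ∈ Finset.range L.length, ((L.getD i 0 : ℤ) : ℂ) * z ^ i := by
  induction L with
  | nil => simp [ev]
  | cons a L ih =>
    rw [ev, ih, List.length_cons, Finset.sum_range_succ', Finset.mul_sum]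
    simp only [List.getD_cons_zero, List.getD_cons_succ, pow_zero, mul_one]
    rw [add_comm]
    congr 1
    refine Finset.sum_congr rfl fun i _ => ?_
    ring

end Pool.Agent.H503.WN
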