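import Pool.Agent.Run7.h503.WN.Main
import Pool.Agent.Run7.h503.WN.ZF

set_option autoImplicit false

namespace Pool.Agent.H503.WN

open Polynomial Pool.Agent.R80.WF

def sm0 : ℕ × ℕ × List ℤ × List ℤ × ℕ × ℕ × List ℤ := (5, 4, [1, -3, 4, -3, 1, 0], [2, -6, 8, -6, 2, 0], 10, 32, [16, 48, 80, 96, 96, 96, 112, 144, 176, 192, 192, 192, 208])
def sm1 : ℕ × ℕ × List ℤ × List ℤ × ℕ × ℕ × List ℤ := (5, 5, [1, 0, 1, 0, 1, -3], [2, 0, 2, 0, 2, -3], 8, 32, [16, 0, -16, 0, 0, 24, 16, -48, -16])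
def sm2 : ℕ × ℕ × List ℤ × List ℤ × ℕ × ℕ × List ℤ := (6, 3, [1, 3, 3, 3, 6, 6, 4], [2, 6, 6, 6, 12, 12, 4], 30, 32, [16, -48, 96, -192, 336, -528, 832, -1248, 1776, -2544, 3552, -4800, 6544, -8784, 11520, -15264, 20016, -25776, 33568, -43392, 55248, -71184, 91200, -115296, 147568, -188016, 236640, -301632, 382992, -480720, 611200, -774432, 970416, -1231920, 1558944, -1951488, 2475088, -3129744, 3915456, -4963296, 6273264, -7845360, 9941728, -12562368, 15707280, -19900752, 25142784, -31433376, 39821104, -50305968, 62887968])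
def sm3 : ℕ × ℕ × List ℤ × List ℤ × ℕ × ℕ × List ℤ := (6, 5, [1, 0, 0, 0, 0, 3, 4], [2, 0, 0, 0, 0, 6, 4], 8, 32, [16, 0, 0, 0, 0, -48, -32])
def sm4 : ℕ × ℕ × List ℤ × List ℤ × ℕ × ℕ × List ℤ := (6, 6, [1, 0, 0, 0, 0, 3, -5], [2, 0, 0, 0, 0, 6, -5], 8, 32, [16, 0, 0, 0, 0, -48, 40])
def sm5 : ℕ × ℕ × List ℤ × List ℤ × ℕ × ℕ × List ℤ := (7, 2, [1, -3, 5, -6, 6, -6, 4, 0], [2, -6, 10, -12, 12, -12, 8, 0], 11, 32, [16, 48, 64, 48, 16, 0, 48, 144, 128, -144, -560, -768, -464])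
def sm6 : ℕ × ℕ × List ℤ × List ℤ × ℕ × ℕ × List ℤ := (7, 4, [1, 0, 2, 0, 3, 0, 4, 6], [2, 0, 4, 0, 6, 0, 8, 6], 11, 32, [16, 0, -32, 0, 16, 0, 0, -48, 80, 192, -224, -288, 208])
def sm7 : ℕ × ℕ × List ℤ × List ℤ × ℕ × ℕ × List ℤ := (7, 5, [1, 0, -1, 0, 0, -3, -2, 12], [2, 0, -2, 0, 0, -6, -4, 12], 11, 32, [16, 0, 16, 0, 16, 48, 48, 0, 80, -48, 256, 96, 64])
def sm8 : ℕ × ℕ × List ℤ × List ℤ × ℕ × ℕ × List ℤ := (7, 6, [1, 0, -1, 0, 0, 0, 1, 6], [2, 0, -2, 0, 0, 0, 2, 6], 9, 32, [16, 0, 16, 0, 16, 0, 0, -48, -16])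
def sm9 : ℕ × ℕ × List ℤ × List ℤ × ℕ × ℕ × List ℤ := (7, 7, [1, 0, -1, 0, 0, 0, 1, -3], [2, 0, -2, 0, 0, 0, 2, -3], 9, 32, [16, 0, 16, 0, 16, 0, 0, 24, -16])
def sm10 : ℕ × ℕ × List ℤ × List ℤ × ℕ × ℕ × List ℤ := (8, 3, [1, 0, 1, -3, -2, -6, 4, 0, 22], [2, 0, 2, -6, -4, -12, 8, 0, 22], 31, 32, [16, 0, -16, 48, 48, 0, 0, 144, 272, -48, 144, 624, 592, 768, 192, 1728, 3472, 1968, 2752, 3120, 13184, 14544, -2512, 20880, 42032, 45648, 19840, 14640, 191472, 144864, 25520, 165600, 338144, 788832, 94752, -30576, 1733360, 1665456, 1464112, -934944, 2716928, 10503504, -576512, -1763424, 6987808, 22762224, 22616976, -40514352, 21484608, 87331728, 17170032])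
def sm11 : ℕ × ℕ × List ℤ × List ℤ × ℕ × ℕ × List ℤ := (8, 4, [1, 0, 1, -3, 1, 0, 4, 0, -2], [2, 0, 2, -6, 2, 0, 8, 0, -2], 31, 32, [16, 0, -16, 48, 0, -96, 96, 48, -304, 144, 336, -672, 16, 1248, -1056, -1056, 3136, -528, -4976, 5328, 4496, -14256, 2864, 23472, -27088, -22464, 71680, -19920, -118944, 149280, 98720, -372864, 154256, 576960, -824112, -358368, 1886912, -1050192, -2656208, 4388592, 1069424, -9296592, 6380800, 11958672, -22828256, -2124240, 45389568, -36744240, -53387808, 117905904, -4540656])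
def sm12 : ℕ × ℕ × List ℤ × List ℤ × ℕ × ℕ × List ℤ := (8, 5, [1, 0, 1, 0, 1, 3, -2, 0, -8], [2, 0, 2, 0, 2, 6, -4, 0, -8], 14, 32, [16, 0, -16, 0, 0, -48, 48, 96, -16, -48, 48, -288, -224, 384, 480, 48, 640])
def sm13 : ℕ × ℕ × List ℤ × List ℤ × ℕ × ℕ × List ℤ := (8, 6, [1, -3, 4, -3, 1, 0, 1, 0, -2], [2, -6, 8, -6, 2, 0, 2, 0, -2], 21, 32, [16, 48, 80, 96, 96, 96, 96, 48, -112, -384, -672, -864, -944, -960, -816, -144, 1456, 3936, 6640, 8784, 10016, 10080, 7616, -288, -16288, -39792, -66080, -88944, -103200, -101904, -69760])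
def sm14 : ℕ × ℕ × List ℤ × List ℤ × ℕ × ℕ × List ℤ := (8, 7, [1, 0, 1, 0, 1, 0, 1, 3, 4], [2, 0, 2, 0, 2, 0, 2, 6, 4], 10, 32, [16, 0, -16, 0, 0, 0, 0, -48, -16])
def sm15 : ℕ × ℕ × List ℤ × List ℤ × ℕ × ℕ × List ℤ := (8, 8, [1, 0, 1, 0, 1, 0, 1, 3, -5], [2, 0, 2, 0, 2, 0, 2, 6, -5], 10, 32, [16, 0, -16, 0, 0, 0, 0, -48, 56])
def sm16 : ℕ × ℕ × List ℤ × List ℤ × ℕ × ℕ × List ℤ := (9, 2, [1, 3, 3, 0, 0, 6, 12, 12, 6, 0], [2, 6, 6, 0, 0, 12, 24, 24, 12, 0], 31, 32, [16, -48, 96, -144, 144, -96, -48, 240, -384, 432, -144, -288, 720, -720, -576, 2736, -5904, 7776, -5616, -1296, 15552, -28944, 34992, -23328, -17712, 66096, -108864, 86832, 40176, -241056, 488592, -530064, 222912, 548208, -1737936, 2527200, -2398896, 221616, 3996864, -8300880, 10688112, -5528736, -7919856, 27328752, -44649792, 38152944,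 34992, -79151904, 170632656, -206277840, 133389504])
def sm17 : ℕ × ℕ × List ℤ × List ℤ × ℕ × ℕ × List ℤ := (9, 3, [1, 3, 3, -3, -12, -12, 0, 12, 12, 6], [2, 6, 6, -6, -24, -24, 0, 24, 24, 6], 41, 32, [16, -48, 96, -96, 48, 48, 0, -192, 528, -480, 0, 1008, -1296, 720, 1152, -1440, -432, 6336, -10224, 10368, 0, -9504, 14256, 6480, -32832, 55728, -12960, -71712, 187920, -169776, 23328, 260496, -260496, -127008, 1035504, -1456704, 879984, 1380240, -3145392, 2811024, 2091744, -7142256, 7838208, 3989088, -20828016, 31967136, -13226976, -26174016, 64210320, -34747056, -62530704, 190204848, -176464656, -37651392, 422540064, -568724976, 215445744, 732767472, -1359999072, 796522896, 1648158192, -4124751984, 4159743984, 1049515056, -8338243680, 11506734288, -1373610960, -18159168384, 32983354224, -15935881680,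 -34159295376])
def sm18 : ℕ × ℕ × List ℤ × List ℤ × ℕ × ℕ × List ℤ := (9, 4, [1, 0, 0, 0, -3, 0, 0, 0, 6, 6], [2, 0, 0, 0, -6, 0, 0, 0, 12, 6], 10, 32, [16, 0, 0, 0, 48, 0, 0, 0, 48])
def sm19 : ℕ × ℕ × List ℤ × List ℤ × ℕ × ℕ × List ℤ := (9, 5, [1, 0, 0, 0, 0, 3, 0, 0, 0, 0], [2, 0, 0, 0, 0, 6, 0, 0, 0, 0], 9, 32, [16, 0, 0, 0, 0, -48])
def sm20 : ℕ × ℕ × List ℤ × List ℤ × ℕ × ℕ × List ℤ := (9, 6, [1, 0, 0, 3, 0, -3, 3, 0, -6, 6], [2, 0, 0, 6, 0, -6, 6, 0, -12, 6], 16, 32, [16, 0, 0, -48, 0, 48, 96, 0, -192, -192, 144, 432, 432, -720, -864, -576, 1872, 2016, -288, -3888, -3888])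
def sm21 : ℕ × ℕ × List ℤ × List ℤ × ℕ × ℕ × List ℤ := (9, 7, [1, 0, 0, 0, 0, 0, 0, 3, 0, 0], [2, 0, 0, 0, 0, 0, 0, 6, 0, 0], 10, 32, [16, 0, 0, 0, 0, 0, 0, -48])
def sm22 : ℕ × ℕ × List ℤ × List ℤ × ℕ × ℕ × List ℤ := (9, 8, [1, 0, 0, 0, 0, 0, 0, 0, 3, 6], [2, 0, 0, 0, 0, 0, 0, 0, 6, 6], 10, 32, [16, 0, 0, 0, 0, 0, 0, 0, -48])
def sm23 : ℕ × ℕ × List ℤ × List ℤ × ℕ × ℕ × List ℤ := (9, 9, [1, 0, 0, 0, 0, 0, 0, 0, 3, -3], [2, 0, 0, 0, 0, 0, 0, 0, 6, -3], 10, 32, [16, 0, 0, 0, 0, 0, 0, 0, -48])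
def sm24 : ℕ × ℕ × List ℤ × List ℤ × ℕ × ℕ × List ℤ := (10, 2, [1, 0, -1, 0, 0, 0, 0, 0, 6, 6, -18], [2, 0, -2, 0, 0, 0, 0, 0, 12, 12, -18], 11, 32, [16, 0, 16, 0, 16, 0, 16, 0, -80])
def sm25 : ℕ × ℕ × List ℤ × List ℤ × ℕ × ℕ × List ℤ := (10, 3, [1, 0, 2, 3, 0, 6, 0, 0, 6, -6, 12], [2, 0, 4, 6, 0, 12, 0, 0, 12, -12, 12], 22, 32, [16, 0, -32, -48, 64, 96, 16, -192, -128, 48, 352, 288, -176, -768, -704, 624, 1504, 2016, -1328, -4224, -6464, 5232, 14176, 13536, -19760, -37632, -21440, 54768, 95968, 28512, -145328])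
def sm26 : ℕ × ℕ × List ℤ × List ℤ × ℕ × ℕ × List ℤ := (10, 4, [1, 0, 2, -3, 3, -6, 6, -6, 12, 0, 18], [2, 0, 4, -6, 6, -12, 12, -12, 24, 0, 18], 22, 32, [16, 0, -32, 48, 16, -96, 112, 0, -272, 240, 64, -528, 256, 288, -704, -48, 1648, -672, -2624, 6192, 304, -10992, 17776, 480, -34016, 42768, 2176, -82848, 76240, 19776, -160016])
def sm27 : ℕ × ℕ × List ℤ × List ℤ × ℕ × ℕ × List ℤ := (10, 5, [1, 0, -1, 0, 0, 3, 0, 0, 0, 0, 12], [2, 0, -2, 0, 0, 6, 0, 0, 0, 0, 12], 13, 32, [16, 0, 16, 0, 16, -48, 16, -96, 16, -144, 64, -192, 256])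
def sm28 : ℕ × ℕ × List ℤ × List ℤ × ℕ × ℕ × List ℤ := (10, 6, [1, 3, 5, 6, 6, 3, -3, -6, -6, -6, -12], [2, 6, 10, 12, 12, 6, -6, -12, -12, -12, -12], 13, 32, [16, -48, 64, -48, 16, 48, -128, 96, 112, -336, 448, -480, 352])
def sm29 : ℕ × ℕ × List ℤ × List ℤ × ℕ × ℕ × List ℤ := (10, 7, [1, 0, -1, 0, 0, 0, 0, -3, 0, 6, -6], [2, 0, -2, 0, 0, 0, 0, -6, 0, 12, -6], 11, 32, [16, 0, 16, 0, 16, 0, 16, 48, 16])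
def sm30 : ℕ × ℕ × List ℤ × List ℤ × ℕ × ℕ × List ℤ := (10, 8, [1, 3, 5, 6, 3, -3, -9, -12, -9, -6, -6], [2, 6, 10, 12, 6, -6, -18, -24, -18, -12, -6], 17, 32, [16, -48, 64, -48, 64, -144, 208, -192, 208, -288, 256, -96, 160, -336, -80, 1008, -1184, 768, -1712, 3840, -4112])
def sm31 : ℕ × ℕ × List ℤ × List ℤ × ℕ × ℕ × List ℤ := (10, 9, [1, 3, 5, 6, 6, 6, 6, 6, 6, 3, 0], [2, 6, 10, 12, 12, 12, 12, 12, 12, 6, 0], 13, 32, [16, -48, 64, -48, 16, 0, 16, -48, 64, 0, -176, 336, -272])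
def sm32 : ℕ × ℕ × List ℤ × List ℤ × ℕ × ℕ × List ℤ := (10, 10, [1, 0, -1, 0, 0, 0, 0, 3, 0, -3, 3], [2, 0, -2, 0, 0, 0, 0, 6, 0, -6, 3], 11, 32, [16, 0, 16, 0, 16, 0, 16, -48, 16])
def sm33 : ℕ × ℕ × List ℤ × List ℤ × ℕ × ℕ × List ℤ := (11, 2, [1, 0, 1, 0, 4, 0, 6, 0, 6, 0, 12, 6], [2, 0, 2, 0, 8, 0, 12, 0, 12, 0, 24, 6], 13, 32, [16, 0, -16, 0, -48, 0, 16, 0, 176, 0, -48, -48, -272])
def sm34 : ℕ × ℕ × List ℤ × List ℤ × ℕ × ℕ × List ℤ := (11, 3, [1, -3, 4, -3, 4, -6, 6, -6, 6, 0, -6, 6], [2, -6, 8, -6, 8, -12, 12, -12, 12, 0, -12, 6], 25, 32, [16, 48, 80, 96, 48, -96, -320, -528, -496, -48, 864, 2016, 2656, 1872, -976, -5568, -9840, -10560, -4304, 10032, 28064, 40176, 33600, -672, -57920, -115728, -135568, -79968, 59760, 245520, 385696, 368496, 128048, -300336, -747840, -973200, -796304])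
def sm35 : ℕ × ℕ × List ℤ × List ℤ × ℕ × ℕ × List ℤ := (11, 4, [1, -3, 4, -3, 1, 0, 0, 0, 0, 0, 0, 0], [2, -6, 8, -6, 2, 0, 0, 0, 0, 0, 0, 0], 13, 32, [16, 48, 80, 96, 96, 96, 112, 144, 176, 192, 192, 192, 208])
def sm36 : ℕ × ℕ × List ℤ × List ℤ × ℕ × ℕ × List ℤ := (11, 5, [1, 0, -2, 0, 1, -3, 0, 6, 0, -6, 0, 12], [2, 0, -4, 0, 2, -6, 0, 12, 0, -12, 0, 12], 15, 32, [16, 0, 32, 0, 48, 48, 64, 96, 80, 192, 240, 288, 400, 336, 848, 720, 1296])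
def sm37 : ℕ × ℕ × List ℤ × List ℤ × ℕ × ℕ × List ℤ := (11, 6, [1, 0, 1, 0, 1, 0, 3, 0, 0, 0, 0, 6], [2, 0, 2, 0, 2, 0, 6, 0, 0, 0, 0, 6], 11, 32, [16, 0, -16, 0, 0, 0, -32, 0, 80])
def sm38 : ℕ × ℕ × List ℤ × List ℤ × ℕ × ℕ × List ℤ := (11, 7, [1, 0, 1, 0, 1, 0, 0, -3, 0, -6, 0, -12], [2, 0, 2, 0, 2, 0, 0, -6, 0, -12, 0, -12], 11, 32, [16, 0, -16, 0, 0, 0, 16, 48, -16])
def sm39 : ℕ × ℕ × List ℤ × List ℤ × ℕ × ℕ × List ℤ := (11, 8, [1, 0, 1, 0, 1, 0, 0, 0, -3, 0, -6, 6], [2, 0, 2, 0, 2, 0, 0, 0, -6, 0, -12, 6], 11, 32, [16, 0, -16, 0, 0, 0, 16, 0, 32])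
def sm40 : ℕ × ℕ × List ℤ × List ℤ × ℕ × ℕ × List ℤ := (11, 9, [1, 0, 1, 0, 1, 0, 0, 0, 0, -3, 0, -6], [2, 0, 2, 0, 2, 0, 0, 0, 0, -6, 0, -6], 11, 32, [16, 0, -16, 0, 0, 0, 16, 0, -16])
def sm41 : ℕ × ℕ × List ℤ × List ℤ × ℕ × ℕ × List ℤ := (11, 10, [1, 0, 1, 0, 1, 0, 0, 0, 0, -3, -3, -6], [2, 0, 2, 0, 2, 0, 0, 0, 0, -6, -6, -6], 11, 32, [16, 0, -16, 0, 0, 0, 16, 0, -16])
def sm42 : ℕ × ℕ × List ℤ × List ℤ × ℕ × ℕ × List ℤ := (11, 11, [1, 0, 1, 0, 1, 0, 0, 0, 0, 0, 0, -3], [2, 0, 2, 0, 2, 0, 0, 0, 0, 0, 0, -3], 11, 32, [16, 0, -16, 0, 0, 0, 16, 0, -16])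
def sm43 : ℕ × ℕ × List ℤ × List ℤ × ℕ × ℕ × List ℤ := (12, 2, [1, 0, 3, 0, 6, 0, 8, 0, 6, 0, 0, -6, -6], [2, 0, 6, 0, 12, 0, 16, 0, 12, 0, 0, -12, -6], 12, 32, [16, 0, -48, 0, 48, 0, 16, 0, -48])
def sm44 : ℕ × ℕ × List ℤ × List ℤ × ℕ × ℕ × List ℤ := (12, 3, [1, -3, 3, -3, 6, -6, 2, 0, 0, 0, 0, 0, 0], [2, -6, 6, -6, 12, -12, 4, 0, 0, 0, 0, 0, 0], 33, 32, [16, 48, 96, 192, 336, 528, 832, 1248, 1776, 2544, 3552, 4800, 6544, 8784, 11520, 15264, 20016, 25776, 33568, 43392, 55248, 71184, 91200, 115296, 147568, 188016, 236640, 301632, 382992, 480720, 611200, 774432, 970416, 1231920, 1558944, 1951488, 2475088, 3129744, 3915456, 4963296, 6273264, 7845360, 9941728, 12562368, 15707280, 19900752, 25142784, 31433376, 39821104, 50305968, 62887968])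
def sm45 : ℕ × ℕ × List ℤ × List ℤ × ℕ × ℕ × List ℤ := (12, 4, [1, 0, 0, 0, -3, 0, 2, 0, 6, 0, -6, 6, -12], [2, 0, 0, 0, -6, 0, 4, 0, 12, 0, -12, 12, -12], 12, 32, [16, 0, 0, 0, 48, 0, -32, 0, 48])
def sm46 : ℕ × ℕ × List ℤ × List ℤ × ℕ × ℕ × List ℤ := (12, 5, [1, 0, 0, 0, 0, 3, 2, 0, 0, 0, 0, 6, 0], [2, 0, 0, 0, 0, 6, 4, 0, 0, 0, 0, 12, 0], 11, 32, [16, 0, 0, 0, 0, -48, -32])
def sm47 : ℕ × ℕ × List ℤ × List ℤ × ℕ × ℕ × List ℤ := (12, 6, [1, 0, 0, 0, 0, 0, -1, 0, 0, 0, 0, 6, 6], [2, 0, 0, 0, 0, 0, -2, 0, 0, 0, 0, 12, 6], 11, 32, [16, 0, 0, 0, 0, 0, 16])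
def sm48 : ℕ × ℕ × List ℤ × List ℤ × ℕ × ℕ × List ℤ := (12, 7, [1, 0, 0, 0, 0, 0, -1, -3, 0, 0, 0, 0, 6], [2, 0, 0, 0, 0, 0, -2, -6, 0, 0, 0, 0, 6], 11, 32, [16, 0, 0, 0, 0, 0, 16, 48])
def sm49 : ℕ × ℕ × List ℤ × List ℤ × ℕ × ℕ × List ℤ := (12, 8, [1, 0, 0, 0, 0, 0, -1, 3, 3, 0, 0, 0, 0], [2, 0, 0, 0, 0, 0, -2, 6, 6, 0, 0, 0, 0], 12, 32, [16, 0, 0, 0, 0, 0, 16, -48, -48])
def sm50 : ℕ × ℕ × List ℤ × List ℤ × ℕ × ℕ × List ℤ := (12, 9, [1, 0, 0, 0, 0, 0, -1, 0, 0, -3, 0, 6, 6], [2, 0, 0, 0, 0, 0, -2, 0, 0, -6, 0, 12, 6], 11, 32, [16, 0, 0, 0, 0, 0, 16])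
def sm51 : ℕ × ℕ × List ℤ × List ℤ × ℕ × ℕ × List ℤ := (12, 10, [1, 0, 0, 0, 0, -3, -1, 0, 0, 0, 3, 0, 0], [2, 0, 0, 0, 0, -6, -2, 0, 0, 0, 6, 0, 0], 11, 32, [16, 0, 0, 0, 0, 48, 16])
def sm52 : ℕ × ℕ × List ℤ × List ℤ × ℕ × ℕ × List ℤ := (12, 11, [1, 0, 0, 0, 0, 0, -1, 0, 0, 0, 0, 3, 6], [2, 0, 0, 0, 0, 0, -2, 0, 0, 0, 0, 6, 6], 11, 32, [16, 0, 0, 0, 0, 0, 16])
def sm53 : ℕ × ℕ × List ℤ × List ℤ × ℕ × ℕ × List ℤ := (12, 12, [1, 0, 0, 0, 0, 0, -1, 0, 0, 0, 0, 3, -3], [2, 0, 0, 0, 0, 0, -2, 0, 0, 0, 0, 6, -3], 11, 32, [16, 0, 0, 0, 0, 0, 16])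

/-- `(g, f)`, coefficients, doubled coefficients, scales and approximate inverse -/
def smalls : List (ℕ × ℕ × List ℤ × List ℤ × ℕ × ℕ × List ℤ) :=
  [sm0, sm1, sm2, sm3, sm4, sm5, sm6, sm7, sm8, sm9, sm10, sm11, sm12, sm13, sm14, sm15, sm16, sm17, sm18, sm19, sm20, sm21, sm22, sm23, sm24, sm25, sm26, sm27, sm28, sm29, sm30, sm31, sm32, sm33, sm34, sm35, sm36, sm37, sm38, sm39, sm40, sm41, sm42, sm43, sm44, sm45, sm46, sm47, sm48, sm49, sm50, sm51, sm52, sm53]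

/-- the finite check -/
def SC (e : ℕ × ℕ × List ℤ × List ℤ × ℕ × ℕ × List ℤ) : Prop :=
  2 ≤ e.1 ∧ e.2.1 ≤ e.1 ∧ e.2.2.1.getD 0 0 = 1 ∧
  (∀ i ≤ e.1, ((e.2.2.1.getD i 0 : ℤ) : ZMod 3) = res e.1 i) ∧
  (¬ (2 : ℤ) ∣ e.2.2.1.getD e.2.1 0) ∧
  (∀ i ≤ e.1, e.2.1 < i → (2 : ℤ) ∣ e.2.2.1.getD i 0) ∧
  ((∑ i ∈ Finset.range e.1, e.2.2.1.getD i 0 * (1 + 2 ^ (e.1 - i)) + e.2.2.1.getD e.1 0) % 9 = 6) ∧
  (∃ i < e.1 + 1, ¬ 2 ∣ i ∧ e.2.2.1.getD i 0 ≠ 0) ∧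
  (∃ i < e.1 + 1, ¬ 3 ∣ i ∧ e.2.2.1.getD i 0 ≠ 0) ∧
  e.2.2.2.1.length = e.1 + 1 ∧
  (∀ i < e.1, e.2.2.2.1.getD i 0 = 2 * e.2.2.1.getD i 0) ∧
  e.2.2.2.1.getD e.1 0 = e.2.2.1.getD e.1 0 ∧
  chk e.2.2.2.2.1 e.2.2.2.2.2.1 0 1 e.2.2.2.1 e.2.2.2.2.2.2 = true

instance (e : ℕ × ℕ × List ℤ × List ℤ × ℕ × ℕ × List ℤ) : Decidable (SC e) := by
  unfold SC
  infer_instance

theorem smalls_ok : ∀ e ∈ smalls, SC e := by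
  decide +kernel

theorem good_of_SC (e : ℕ × ℕ × List ℤ × List ℤ × ℕ × ℕ × List ℤ) (he : SC e) :
    Good 2 e.1 e.2.1 := by
  obtain ⟨h1, h2, h3, h4, h5, h6, h7, ⟨i2, k1, k2, k3⟩, ⟨i3, l1, l2, l3⟩, h10, h11, h12, h13⟩ := he
  refine good_zero e.1 e.2.1 (fun i => e.2.2.1.getD i 0) h1 h2 h3 h4 h5
    (fun i hi hig => h6 i hig hi) h7 ⟨i2, by omega, k2, k3⟩ ⟨i3, by omega, l2, l3⟩ ?_
  intro z hz h0
  have h := chk_spec (by norm_num) h13 z hz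
  have h14 : ev z e.2.2.2.1 = 0 := by
    rw [ev_eq_sum, h10, Finset.sum_range_succ, h12, ← h0]
    congr 1
    refine Finset.sum_congr rfl fun i hi => ?_
    rw [h11 i (Finset.mem_range.1 hi)]
    push_cast
    ring
  rw [h14, norm_zero] at h
  norm_num at h

theorem small_of (g f : ℕ) (h : ∃ e ∈ smalls, e.1 = g ∧ e.2.1 = f) : Good 2 g f := by
  obtain ⟨e, he, h1, h2⟩ := h
  rw [← h1, ← h2]
  exact good_of_SC e (smalls_ok e he)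

end Pool.Agent.H503.WN
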