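import Pool.Agent.Run7.h503.WN.Heads
import Pool.Agent.Run7.h503.WN.Smalls
import Pool.Agent.Run7.h503.WN.Exc

set_option autoImplicit false

namespace Pool.Agent.H503.WN

open Polynomial Pool.Agent.R80.WF

/-- `p = 2`, `g ≥ 3`, `2 ≤ f ≤ g` -/
theorem two_all (g f : ℕ) (hg : 3 ≤ g) (hf : 2 ≤ f) (hfg : f ≤ g) : Good 2 g f := by
  by_cases h13 : 13 ≤ g
  · exact large g f h13 hf hfg
  push Not at h13
  interval_cases g
  · interval_cases f
    · exact exc_3_2
    · exact exc_3_3
  · interval_cases f
    · exact exc_4_2
    · exact exc_4_3
    · exact exc_4_4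
  · interval_cases f
    · exact exc_5_2
    · exact exc_5_3
    · exact small_of _ _ (by decide)
    · exact small_of _ _ (by decide)
  · interval_cases f
    · exact exc_6_2
    · exact small_of _ _ (by decide)
    · exact exc_6_4
    · exact small_of _ _ (by decide)
    · exact small_of _ _ (by decide)
  · interval_cases f
    · exact small_of _ _ (by decide)
    · exact exc_7_3
    all_goals exact small_of _ _ (by decide)
  · interval_cases f
    · exact exc_8_2
    all_goals exact small_of _ _ (by decide)
  all_goals interval_cases f
  all_goals exact small_of _ _ (by decide)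

end Pool.Agent.H503.WN
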