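import Pool.Agent.R80.WF.Coef

set_option autoImplicit false

namespace Pool.Agent.H503.WN

open Polynomial Pool.Agent.R80.WF

/-- the half polynomial -/
noncomputable def HG (g : ℕ) (a : ℕ → ℤ) : ℤ[X] :=
  ∑ i ∈ Finset.range g, C (2 * a i) * X ^ (g - i) + C (a g)

theorem aeval_HG (g : ℕ) (a : ℕ → ℤ) (x : ℂ) : aeval x (HG g a) =
    ∑ i ∈ Finset.range g, 2 * (a i : ℂ) * x ^ (g - i) + (a g : ℂ) := by
  rw [HG, map_add, map_sum, aeval_C]
  congr 1
  refine Finset.sum_congr rfl fun i _ => ?_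
  rw [map_mul, map_pow, aeval_X, aeval_C]
  simp

theorem aeval_PP (g : ℕ) (a : ℕ → ℤ) (x : ℂ) : aeval x (PP 2 g a) =
    ∑ i ∈ Finset.range g, (a i : ℂ) * (x ^ (2 * g - i) + 2 ^ (g - i) * x ^ i)
      + (a g : ℂ) * x ^ g := by
  rw [PP, map_add, map_sum, map_mul, map_pow, aeval_X, aeval_C]
  congr 1
  refine Finset.sum_congr rfl fun i _ => ?_
  simp only [map_mul, map_add, map_pow, aeval_X, aeval_C]
  simp only [eq_intCast]
  push_cast
  rfl

theorem key_id (g : ℕ) (a : ℕ → ℤ) (x : ℂ) (hx : x ≠ 0) :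
    2 * aeval x (PP 2 g a) = x ^ g * (aeval x (HG g a) + aeval (2 / x) (HG g a)) := by
  rw [aeval_PP, aeval_HG, aeval_HG, mul_add, mul_add, mul_add, mul_add, Finset.mul_sum,
    Finset.mul_sum, Finset.mul_sum]
  have h1 : ∑ i ∈ Finset.range g, 2 * ((a i : ℂ) * (x ^ (2 * g - i) + 2 ^ (g - i) * x ^ i)) =
      ∑ i ∈ Finset.range g, x ^ g * (2 * (a i : ℂ) * x ^ (g - i)) +
      ∑ i ∈ Finset.range g, x ^ g * (2 * (a i : ℂ) * (2 / x) ^ (g - i)) := by
    rw [← Finset.sum_add_distrib]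
    refine Finset.sum_congr rfl fun i hi => ?_
    have hi' := Finset.mem_range.1 hi
    have e1 : x ^ (2 * g - i) = x ^ g * x ^ (g - i) := by
      rw [← pow_add]; congr 1; omega
    have e2 : x ^ g = x ^ i * x ^ (g - i) := by
      rw [← pow_add]; congr 1; omega
    have e3 : x ^ g * (2 / x) ^ (g - i) = 2 ^ (g - i) * x ^ i := by
      rw [div_pow, e2]
      field_simp
    rw [e1]
    linear_combination (-2 * (a i : ℂ)) * e3
  rw [h1]
  ring

theorem norm_lt (w ρ : ℂ) (c : ℝ) (hN : 2 < ‖w‖ ^ 2) (hc : c = 2 / ‖w‖ ^ 2) (hρ : ‖ρ‖ ^ 2 < 2) :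
    ‖(c : ℂ) * w - ρ‖ < ‖w - ρ‖ := by
  have hN0 : 0 < ‖w‖ ^ 2 := by linarith
  have hcN : c * ‖w‖ ^ 2 = 2 := by rw [hc, div_mul_cancel₀ _ hN0.ne']
  have hc1 : c < 1 := by
    rw [hc, div_lt_one hN0]; exact hN
  refine lt_of_pow_lt_pow_left₀ 2 (norm_nonneg _) ?_
  rw [← Complex.normSq_eq_norm_sq, Complex.normSq_apply] at hN hρ hcN
  rw [← Complex.normSq_eq_norm_sq, ← Complex.normSq_eq_norm_sq, Complex.normSq_apply,
    Complex.normSq_apply]
  simp only [Complex.sub_re, Complex.sub_im, Complex.mul_re, Complex.mul_im, Complex.ofReal_re,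
    Complex.ofReal_im, zero_mul, sub_zero, add_zero]
  have h1 : (w.re - ρ.re) * (w.re - ρ.re) + (w.im - ρ.im) * (w.im - ρ.im) -
      ((c * w.re - ρ.re) * (c * w.re - ρ.re) + (c * w.im - ρ.im) * (c * w.im - ρ.im)) =
      (1 - c) * (((w.re - ρ.re) ^ 2 + (w.im - ρ.im) ^ 2) +
        (2 - (ρ.re * ρ.re + ρ.im * ρ.im))) := by
    linear_combination (1 - c) * hcN
  have h2 : 0 < (1 - c) * (((w.re - ρ.re) ^ 2 + (w.im - ρ.im) ^ 2) +
        (2 - (ρ.re * ρ.re + ρ.im * ρ.im))) := by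
    refine mul_pos (by linarith) ?_
    have := sq_nonneg (w.re - ρ.re)
    have := sq_nonneg (w.im - ρ.im)
    linarith
  linarith

theorem prod_lt (w : ℂ) (c : ℝ) (hN : 2 < ‖w‖ ^ 2) (hc : c = 2 / ‖w‖ ^ 2) (S : Multiset ℂ)
    (hS : ∀ ρ ∈ S, ‖ρ‖ ^ 2 < 2) :
    ‖(S.map fun ρ => (c : ℂ) * w - ρ).prod‖ ≤ ‖(S.map fun ρ => w - ρ).prod‖ ∧
      (S ≠ 0 → ‖(S.map fun ρ => (c : ℂ) * w - ρ).prod‖ < ‖(S.map fun ρ => w - ρ).prod‖) := by
  induction S using Multiset.induction_on with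
  | empty => simp
  | cons ρ S ih =>
    obtain ⟨ih1, _⟩ := ih fun x hx => hS x (Multiset.mem_cons_of_mem hx)
    have h1 := norm_lt w ρ c hN hc (hS ρ (Multiset.mem_cons_self ρ S))
    have h2 : 0 < ‖(S.map fun ρ => w - ρ).prod‖ := by
      rw [norm_pos_iff]
      refine Multiset.prod_ne_zero ?_
      intro h0
      rw [Multiset.mem_map] at h0
      obtain ⟨ρ', hρ', h3⟩ := h0
      have h4 := hS ρ' (Multiset.mem_cons_of_mem hρ')
      rw [← sub_eq_zero.1 h3] at h4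
      linarith
    have h5 : ‖(Multiset.map (fun ρ => (c : ℂ) * w - ρ) (ρ ::ₘ S)).prod‖ <
        ‖(Multiset.map (fun ρ => w - ρ) (ρ ::ₘ S)).prod‖ := by
      rw [Multiset.map_cons, Multiset.map_cons, Multiset.prod_cons, Multiset.prod_cons, norm_mul,
        norm_mul]
      calc ‖(c : ℂ) * w - ρ‖ * ‖(S.map fun ρ => (c : ℂ) * w - ρ).prod‖
          ≤ ‖(c : ℂ) * w - ρ‖ * ‖(S.map fun ρ => w - ρ).prod‖ :=
            mul_le_mul_of_nonneg_left ih1 (norm_nonneg _)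
        _ < ‖w - ρ‖ * ‖(S.map fun ρ => w - ρ).prod‖ := mul_lt_mul_of_pos_right h1 h2
    exact ⟨h5.le, fun _ => h5⟩

/-- the roots lie on the circle -/
theorem circle (g : ℕ) (a : ℕ → ℤ) (hg : 1 ≤ g) (ha : a 0 = 1)
    (hz : ∀ z : ℂ, ‖z‖ ^ 2 ≤ 1 / 2 →
      ∑ i ∈ Finset.range g, 2 * (a i : ℂ) * z ^ i + (a g : ℂ) * z ^ g ≠ 0) :
    ∀ x : ℂ, aeval x (PP 2 g a) = 0 → ‖x‖ ^ 2 = 2 := by
  classical
  set B : ℂ[X] := (HG g a).map (algebraMap ℤ ℂ) with hB
  have hev : ∀ x : ℂ, B.eval x = aeval x (HG g a) := fun x => by rw [hB, eval_map_algebraMap]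
  have hco : B.coeff g = 2 := by
    rw [hB, coeff_map, HG, coeff_add, finsetSum_coeff, coeff_C, if_neg (by omega)]
    rw [Finset.sum_eq_single 0]
    · rw [coeff_C_mul, coeff_X_pow, Nat.sub_zero, if_pos rfl, ha]
      simp
    · intro i hi hi0
      have hi' := Finset.mem_range.1 hi
      rw [coeff_C_mul, coeff_X_pow, if_neg (by omega), mul_zero]
    · intro h
      exact absurd (Finset.mem_range.2 (by omega)) h
  have hB0 : B ≠ 0 := by
    intro h
    rw [h, coeff_zero] at hco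
    norm_num at hco
  have hs : B.Splits := IsAlgClosed.splits B
  have hrne : B.roots ≠ 0 := by
    intro h
    have h1 := splits_iff_card_roots.1 hs
    rw [h, Multiset.card_zero] at h1
    have h2 : g ≤ B.natDegree := le_natDegree_of_ne_zero (by rw [hco]; norm_num)
    omega
  have hroots : ∀ ρ ∈ B.roots, ‖ρ‖ ^ 2 < 2 := by
    intro ρ hρ
    have h1 : aeval ρ (HG g a) = 0 := by
      have := (mem_roots hB0).1 hρ
      rw [IsRoot.def, hev] at this
      exact this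
    by_cases h0 : ρ = 0
    · rw [h0, norm_zero]; norm_num
    by_contra hcon
    push Not at hcon
    refine hz ρ⁻¹ ?_ ?_
    · rw [norm_inv, inv_pow]
      rw [inv_le_comm₀ (by positivity) (by norm_num)]
      linarith
    · have h2 : ρ ^ g * (∑ i ∈ Finset.range g, 2 * (a i : ℂ) * ρ⁻¹ ^ i + (a g : ℂ) * ρ⁻¹ ^ g) =
          aeval ρ (HG g a) := by
        rw [aeval_HG, mul_add, Finset.mul_sum]
        congr 1
        · refine Finset.sum_congr rfl fun i hi => ?_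
          have hi' := Finset.mem_range.1 hi
          have e2 : ρ ^ g = ρ ^ i * ρ ^ (g - i) := by
            rw [← pow_add]; congr 1; omega
          rw [e2, inv_pow]
          field_simp
        · rw [inv_pow]
          field_simp
      rw [h1] at h2
      rcases mul_eq_zero.1 h2 with h3 | h3
      · exact absurd h3 (pow_ne_zero _ h0)
      · exact h3
  have hlt : ∀ w : ℂ, 2 < ‖w‖ ^ 2 →
      ‖aeval (((2 / ‖w‖ ^ 2 : ℝ) : ℂ) * w) (HG g a)‖ < ‖aeval w (HG g a)‖ := by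
    intro w hw
    rw [← hev, ← hev, hs.eval_eq_prod_roots, hs.eval_eq_prod_roots, norm_mul, norm_mul]
    refine mul_lt_mul_of_pos_left ((prod_lt w _ hw rfl B.roots hroots).2 hrne) ?_
    rw [norm_pos_iff]
    exact leadingCoeff_ne_zero.2 hB0
  have hconj : ∀ w : ℂ, ‖aeval (2 / w) (HG g a)‖ =
      ‖aeval (((2 / ‖w‖ ^ 2 : ℝ) : ℂ) * w) (HG g a)‖ := by
    intro w
    have h1 : (2 / w : ℂ) = (starRingEnd ℂ) (((2 / ‖w‖ ^ 2 : ℝ) : ℂ) * w) := by
      rw [map_mul, Complex.conj_ofReal]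
      by_cases hw : w = 0
      · simp [hw]
      · have h2 : w * (starRingEnd ℂ) w = ((‖w‖ ^ 2 : ℝ) : ℂ) := by
          rw [Complex.mul_conj, Complex.normSq_eq_norm_sq]
        have h3 : ((‖w‖ ^ 2 : ℝ) : ℂ) ≠ 0 := by
          rw [← h2]
          exact mul_ne_zero hw ((_root_.map_ne_zero _).2 hw)
        rw [Complex.ofReal_div, div_mul_eq_mul_div, div_eq_div_iff hw h3, ← h2]
        push_cast
        ring
    rw [h1]
    have h2 := Polynomial.aeval_algHom_apply ((starRingEnd ℂ).toIntAlgHom)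
      (((2 / ‖w‖ ^ 2 : ℝ) : ℂ) * w) (HG g a)
    have h3 : ((starRingEnd ℂ).toIntAlgHom) (((2 / ‖w‖ ^ 2 : ℝ) : ℂ) * w) =
      (starRingEnd ℂ) (((2 / ‖w‖ ^ 2 : ℝ) : ℂ) * w) := rfl
    rw [h3] at h2
    rw [h2]
    exact Complex.norm_conj _
  intro x hx
  have hx0 : x ≠ 0 := by
    rintro rfl
    rw [aeval_PP] at hx
    rw [Finset.sum_eq_single 0] at hx
    · rw [zero_pow (show 2 * g - 0 ≠ 0 by omega), zero_pow (show g ≠ 0 by omega), ha] at hx
      simp at hx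
    · intro i hi hi0
      have hi' := Finset.mem_range.1 hi
      rw [zero_pow (by omega), zero_pow (by omega)]
      ring
    · intro h
      exact absurd (Finset.mem_range.2 (by omega)) h
  have hk := key_id g a x hx0
  rw [hx, mul_zero] at hk
  have hk' : aeval x (HG g a) = - aeval (2 / x) (HG g a) := by
    rcases mul_eq_zero.1 hk.symm with h1 | h1
    · exact absurd h1 (pow_ne_zero _ hx0)
    · linear_combination h1
  have heq : ‖aeval x (HG g a)‖ = ‖aeval (((2 / ‖x‖ ^ 2 : ℝ) : ℂ) * x) (HG g a)‖ := by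
    rw [hk', norm_neg, hconj]
  rcases lt_trichotomy (‖x‖ ^ 2) 2 with h1 | h1 | h1
  · exfalso
    have hxn : 0 < ‖x‖ ^ 2 := by positivity
    set w : ℂ := ((2 / ‖x‖ ^ 2 : ℝ) : ℂ) * x with hw
    have hwn : ‖w‖ ^ 2 = 4 / ‖x‖ ^ 2 := by
      rw [hw, norm_mul, Complex.norm_real, Real.norm_eq_abs, mul_pow, sq_abs]
      field_simp
      norm_num
    have hw2 : 2 < ‖w‖ ^ 2 := by
      rw [hwn, lt_div_iff₀ hxn]; linarith
    have h2 := hlt w hw2
    have h3 : ((2 / ‖w‖ ^ 2 : ℝ) : ℂ) * w = x := by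
      rw [hwn, hw, ← mul_assoc, ← Complex.ofReal_mul]
      have : (2 / (4 / ‖x‖ ^ 2) * (2 / ‖x‖ ^ 2) : ℝ) = 1 := by
        field_simp
        norm_num
      rw [this, Complex.ofReal_one, one_mul]
    rw [h3, heq] at h2
    exact lt_irrefl _ h2
  · exact h1
  · exfalso
    have h2 := hlt x h1
    rw [← heq] at h2
    exact lt_irrefl _ h2

end Pool.Agent.H503.WN
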