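import Mathlib

set_option autoImplicit false

namespace Pool.Agent.H503.WN

open Polynomial

/-- descent step: from `x ∈ F(x^m)` to `x ∈ F(x^(mq))` -/
theorem descent {F E : Type*} [Field F] [Field E] [Algebra F E] (x : E) (hx : IsIntegral F x)
    (q m : ℕ) (hq : q.Prime) (hc : ((-1 : E) ^ (q + 1)) ^ m = (-1) ^ (q + 1))
    (h1 : ∀ u ∈ IntermediateField.adjoin F {x}, u ^ m = 1 → u = 1)
    (h2 : ∀ u ∈ IntermediateField.adjoin F {x}, u ^ q = 1 → u = 1 ∨ u = -1)
    (hx0 : x ≠ 0) (hz : x ∈ IntermediateField.adjoin F {x ^ m}) :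
    x ∈ IntermediateField.adjoin F {(x ^ m) ^ q} ∨
      minpoly F x = expand F q (minpoly F (x ^ q)) := by
  classical
  set z : E := x ^ m with hzdef
  have hz0 : z ≠ 0 := pow_ne_zero _ hx0
  have hzi : IsIntegral F z := hx.pow m
  have hxK : x ∈ IntermediateField.adjoin F {x} := IntermediateField.mem_adjoin_simple_self F x
  have hzK : z ∈ IntermediateField.adjoin F {x} := pow_mem hxK _
  set L := IntermediateField.adjoin F {z ^ q} with hL
  have hLK : L ≤ IntermediateField.adjoin F {x} := by
    rw [hL, IntermediateField.adjoin_simple_le_iff]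
    exact pow_mem hzK _
  have hzqL : z ^ q ∈ L := IntermediateField.mem_adjoin_simple_self F (z ^ q)
  by_cases hzL : z ∈ L
  · left
    have h3 : IntermediateField.adjoin F {z} ≤ L := by
      rw [IntermediateField.adjoin_simple_le_iff]
      exact hzL
    exact h3 hz
  right
  set zq : L := ⟨z ^ q, hzqL⟩ with hzq
  have hirr : Irreducible (X ^ q - C zq : L[X]) := by
    refine X_pow_sub_C_irreducible_of_prime hq fun b hb => hzL ?_
    have hb' : (b : E) ^ q = z ^ q := by
      have := congrArg (algebraMap L E) hb
      rw [map_pow] at this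
      exact this
    have h3 : ((b : E) / z) ^ q = 1 := by
      rw [div_pow, hb', div_self (pow_ne_zero _ hz0)]
    rcases h2 _ (div_mem (hLK b.2) hzK) h3 with h4 | h4
    · rw [div_eq_iff hz0, one_mul] at h4
      rw [← h4]
      exact b.2
    · rw [div_eq_iff hz0] at h4
      have : z = -(b : E) := by rw [h4]; ring
      rw [this]
      exact neg_mem b.2
  have hmin : minpoly L z = X ^ q - C zq := by
    symm
    refine minpoly.eq_of_irreducible_of_monic hirr ?_ (monic_X_pow_sub_C _ hq.ne_zero)
    rw [map_sub, map_pow, aeval_X, aeval_C, sub_eq_zero]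
    rfl
  have hziL : IsIntegral L z := hzi.tower_top
  have hxiL : IsIntegral L x := hx.tower_top
  set K := IntermediateField.adjoin L {z} with hK
  have hxK' : x ∈ K := by
    have h3 : IntermediateField.adjoin F {z} ≤ K.restrictScalars F := by
      rw [IntermediateField.adjoin_simple_le_iff]
      exact IntermediateField.mem_adjoin_simple_self L z
    exact h3 hz
  set pb := IntermediateField.adjoin.powerBasis hziL with hpb
  have hgen : pb.gen = IntermediateField.AdjoinSimple.gen L z :=
    IntermediateField.adjoin.powerBasis_gen hziL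
  have hdim : pb.dim = q := by
    rw [hpb, IntermediateField.adjoin.powerBasis_dim, hmin]
    exact natDegree_X_pow_sub_C
  have hnorm : Algebra.norm L pb.gen = (-1) ^ (q + 1) * zq := by
    rw [Algebra.PowerBasis.norm_gen_eq_coeff_zero_minpoly, hdim]
    have h3 : minpoly L pb.gen = minpoly L z := by
      rw [hgen]
      exact (minpoly.algebraMap_eq (algebraMap K E).injective _).symm.trans (by
        rw [IntermediateField.AdjoinSimple.algebraMap_gen])
    rw [h3, hmin, coeff_sub, coeff_X_pow, coeff_C_zero, if_neg hq.ne_zero.symm]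
    ring
  set ν : L := Algebra.norm L (⟨x, hxK'⟩ : K) with hν
  have hxm : (⟨x, hxK'⟩ : K) ^ m = pb.gen := by
    apply (algebraMap K E).injective
    rw [hgen, IntermediateField.AdjoinSimple.algebraMap_gen, map_pow]
    rfl
  have hνm : ν ^ m = (-1) ^ (q + 1) * zq := by
    rw [hν, ← map_pow, hxm, hnorm]
  have hνE : (ν : E) ^ m = (-1) ^ (q + 1) * z ^ q := by
    have := congrArg (algebraMap L E) hνm
    rw [map_pow, map_mul, map_pow, map_neg, map_one] at this
    exact this
  have hc0 : ((-1 : E) ^ (q + 1) * x ^ q) ≠ 0 :=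
    mul_ne_zero (pow_ne_zero _ (neg_ne_zero.2 one_ne_zero)) (pow_ne_zero _ hx0)
  have hu : (ν : E) / ((-1) ^ (q + 1) * x ^ q) = 1 := by
    refine h1 _ (div_mem (hLK ν.2) (mul_mem (pow_mem (neg_mem (one_mem _)) _) (pow_mem hxK _))) ?_
    rw [div_pow, hνE, mul_pow, hc, ← pow_mul x q m, mul_comm q m, pow_mul, ← hzdef]
    exact div_self (mul_ne_zero (pow_ne_zero _ (neg_ne_zero.2 one_ne_zero)) (pow_ne_zero _ hz0))
  rw [div_eq_one_iff_eq hc0] at hu
  have hxqL : x ^ q ∈ L := by
    have h3 : x ^ q = (-1) ^ (q + 1) * (ν : E) := by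
      rw [hu, ← mul_assoc, ← mul_pow]
      norm_num
    rw [h3]
    exact mul_mem (pow_mem (neg_mem (one_mem _)) _) ν.2
  have hLeq : L = IntermediateField.adjoin F {x ^ q} := by
    apply le_antisymm
    · rw [hL, IntermediateField.adjoin_simple_le_iff, hzdef, ← pow_mul, mul_comm, pow_mul]
      exact pow_mem (IntermediateField.mem_adjoin_simple_self F (x ^ q)) _
    · rw [IntermediateField.adjoin_simple_le_iff]
      exact hxqL
  have hKeq : K.restrictScalars F = IntermediateField.adjoin F {x} := by
    apply le_antisymm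
    · intro w hw
      have h3 : K ≤ IntermediateField.extendScalars hLK := by
        rw [hK, IntermediateField.adjoin_simple_le_iff]
        exact hzK
      exact h3 hw
    · rw [IntermediateField.adjoin_simple_le_iff]
      exact hxK'
  have hdeg : (minpoly F x).natDegree = (minpoly F (x ^ q)).natDegree * q := by
    rw [← IntermediateField.adjoin.finrank hx, ← IntermediateField.adjoin.finrank (hx.pow q)]
    have h3 : Module.finrank F L * Module.finrank L K = Module.finrank F K :=
      Module.finrank_mul_finrank F L K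
    have h4 : Module.finrank L K = q := by
      rw [hK, IntermediateField.adjoin.finrank hziL, hmin]
      exact natDegree_X_pow_sub_C
    have h5 : Module.finrank F K = Module.finrank F (IntermediateField.adjoin F {x}) := by
      rw [← hKeq]
      rfl
    rw [← h5, ← h3, h4, hLeq]
  have hroot : aeval x (expand F q (minpoly F (x ^ q))) = 0 := by
    rw [expand_aeval, minpoly.aeval]
  refine (eq_of_monic_of_dvd_of_natDegree_le (minpoly.monic hx)
    ((minpoly.monic (hx.pow q)).expand hq.pos) (minpoly.dvd F x hroot) ?_).symm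
  rw [natDegree_expand, hdeg]

end Pool.Agent.H503.WN
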