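import Mathlib

set_option autoImplicit false

namespace Pool.Agent.H503.WN

open Polynomial

/-- evaluation of a list of natural numbers -/
def evn {R : Type*} [CommRing R] (x : R) : List ℕ → R
  | [] => 0
  | c :: L => (c : R) + x * evn x L

def addN : List ℕ → List ℕ → List ℕ
  | [], M => M
  | a :: L, [] => a :: L
  | a :: L, b :: M => (a + b) :: addN L M

def smulN (c : ℕ) (L : List ℕ) : List ℕ := L.map fun b => c * b

def mulN : List ℕ → List ℕ → List ℕ
  | [], _ => []
  | a :: L, M => addN (smulN a M) (0 :: mulN L M)

/-- reduction using `x ^ n = Q` and modulo `l` -/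
def redN (l n : ℕ) (Q M : List ℕ) : List ℕ :=
  (addN (M.take n) (mulN (M.drop n) Q)).map fun a => a % l

/-- multiplication modulo the polynomial -/
def mmul (l n : ℕ) (Q A B : List ℕ) : List ℕ :=
  A.foldr (fun a acc => redN l n Q (addN (smulN a B) (0 :: acc))) []

/-- powers of the variable -/
def pw (l n : ℕ) (Q : List ℕ) : ℕ → ℕ → List ℕ
  | 0, _ => [1]
  | k + 1, N => if N % 2 = 1 then mmul l n Q [0, 1] (mmul l n Q (pw l n Q k (N / 2)) (pw l n Q k (N / 2)))
    else mmul l n Q (pw l n Q k (N / 2)) (pw l n Q k (N / 2))

section

variable {R : Type*} [CommRing R] (x : R)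

theorem evn_addN (L M : List ℕ) : evn x (addN L M) = evn x L + evn x M := by
  induction L generalizing M with
  | nil => simp [addN, evn]
  | cons a L ih =>
    cases M with
    | nil => simp [addN, evn]
    | cons b M =>
      simp only [addN, evn, ih]
      push_cast
      ring

theorem evn_smulN (c : ℕ) (L : List ℕ) : evn x (smulN c L) = c * evn x L := by
  induction L with
  | nil => simp [smulN, evn]
  | cons a L ih =>
    simp only [smulN, List.map_cons, evn] at *
    rw [ih]
    push_cast
    ring

theorem evn_mulN (L M : List ℕ) : evn x (mulN L M) = evn x L * evn x M := by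
  induction L with
  | nil => simp [mulN, evn]
  | cons a L ih =>
    simp only [mulN, evn_addN, evn_smulN, evn, ih]
    push_cast
    ring

theorem evn_mod (l : ℕ) (hl : (l : R) = 0) (L : List ℕ) :
    evn x (L.map fun a => a % l) = evn x L := by
  induction L with
  | nil => simp [evn]
  | cons a L ih =>
    simp only [List.map_cons, evn, ih]
    congr 1
    have h := Nat.mod_add_div a l
    have h2 := congrArg (Nat.cast : ℕ → R) h
    push_cast at h2
    rw [hl, zero_mul, add_zero] at h2
    exact h2

theorem evn_split (n : ℕ) (M : List ℕ) : evn x (M.take n) + x ^ n * evn x (M.drop n) = evn x M := by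
  induction n generalizing M with
  | zero => simp [evn]
  | succ n ih =>
    cases M with
    | nil => simp [evn]
    | cons a M =>
      simp only [List.take_succ_cons, List.drop_succ_cons, evn]
      rw [← ih M, pow_succ]
      ring

theorem evn_redN (l n : ℕ) (Q : List ℕ) (hl : (l : R) = 0) (hQ : x ^ n = evn x Q) (M : List ℕ) :
    evn x (redN l n Q M) = evn x M := by
  rw [redN, evn_mod x l hl, evn_addN, evn_mulN, ← hQ, mul_comm, evn_split]

theorem evn_mmul (l n : ℕ) (Q : List ℕ) (hl : (l : R) = 0) (hQ : x ^ n = evn x Q)
    (A B : List ℕ) : evn x (mmul l n Q A B) = evn x A * evn x B := by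
  induction A with
  | nil => simp [mmul, evn]
  | cons a A ih =>
    simp only [mmul, List.foldr_cons] at *
    rw [evn_redN x l n Q hl hQ, evn_addN, evn_smulN]
    simp only [evn, ih]
    push_cast
    ring

theorem evn_pw (l n : ℕ) (Q : List ℕ) (hl : (l : R) = 0) (hQ : x ^ n = evn x Q) (k N : ℕ)
    (hN : N < 2 ^ k) : evn x (pw l n Q k N) = x ^ N := by
  induction k generalizing N with
  | zero =>
    have : N = 0 := by simpa using hN
    subst this
    simp [pw, evn]
  | succ k ih =>
    have h1 : N / 2 < 2 ^ k := by
      rw [pow_succ] at hN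
      omega
    have h2 := ih (N / 2) h1
    unfold pw
    split_ifs with h
    · rw [evn_mmul x l n Q hl hQ, evn_mmul x l n Q hl hQ, h2]
      have e : x ^ N = x ^ (N / 2 + N / 2 + 1) := by
        congr 1
        omega
      rw [e, pow_succ, pow_add]
      simp [evn]
      ring
    · rw [evn_mmul x l n Q hl hQ, h2, ← pow_add]
      congr 1
      omega

end

end Pool.Agent.H503.WN
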