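import Pool.Agent.Run7.h503.WN.Main
import Pool.Agent.Run7.h503.WN.ZF
import Pool.Agent.Run7.h503.WN.Mod

set_option autoImplicit false

namespace Pool.Agent.H503.WN

open Polynomial Pool.Agent.R80.WF

theorem evn_eq_sum {R : Type*} [CommRing R] (x : R) (L : List ℕ) :
    evn x L = ∑ i ∈ Finset.range L.length, ((L.getD i 0 : ℕ) : R) * x ^ i := by
  induction L with
  | nil => simp [evn]
  | cons a L ih =>
    rw [evn, ih, List.length_cons, Finset.sum_range_succ', Finset.mul_sum]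
    simp only [List.getD_cons_zero, List.getD_cons_succ, pow_zero, mul_one]
    rw [add_comm]
    congr 1
    refine Finset.sum_congr rfl fun i _ => ?_
    ring

/-- the reduction rule from a polynomial -/
def Rule (P : ℤ[X]) (l n : ℕ) (Q : List ℕ) : Prop :=
  Q.length = n ∧ ∀ i < n, (l : ℤ) ∣ (Q.getD i 0 : ℤ) + P.coeff i

theorem rule_spec {R : Type*} [CommRing R] (x : R) {P : ℤ[X]} {l n : ℕ} {Q : List ℕ}
    (h : Rule P l n Q) (hPm : P.Monic) (hdeg : P.natDegree = n) (hl : (l : R) = 0)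
    (hx : aeval x P = 0) : x ^ n = evn x Q := by
  rw [aeval_eq_sum_range, hdeg, Finset.sum_range_succ] at hx
  have h1 : P.coeff n = 1 := by rw [← hdeg]; exact hPm
  rw [h1, one_smul] at hx
  rw [evn_eq_sum, h.1]
  have h2 : ∑ i ∈ Finset.range n, ((Q.getD i 0 : ℕ) : R) * x ^ i =
      -∑ i ∈ Finset.range n, P.coeff i • x ^ i := by
    rw [← Finset.sum_neg_distrib]
    refine Finset.sum_congr rfl fun i hi => ?_
    obtain ⟨k, hk⟩ := h.2 i (Finset.mem_range.1 hi)
    have h3 : ((Q.getD i 0 : ℕ) : R) = -((P.coeff i : ℤ) : R) := by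
      have h4 := congrArg (Int.cast : ℤ → R) hk
      push_cast at h4
      rw [hl, zero_mul] at h4
      linear_combination h4
    rw [h3, zsmul_eq_mul]
    ring
  rw [h2]
  linear_combination hx

/-- the normal form of one -/
def oneL (n : ℕ) : List ℕ := 1 :: List.replicate (n - 1) 0

theorem evn_oneL {R : Type*} [CommRing R] (x : R) (n : ℕ) : evn x (oneL n) = 1 := by
  have h : ∀ k : ℕ, evn x (List.replicate k 0) = 0 := by
    intro k
    induction k with
    | zero => rfl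
    | succ k ih => simp [List.replicate_succ, evn, ih]
  rw [oneL, evn, h]
  simp

/-- certificates for powers -/
theorem cert_of (P : ℤ[X]) (l n k N : ℕ) (Q : List ℕ) (hr : Rule P l n Q) (hPm : P.Monic)
    (hdeg : P.natDegree = n) (hN : N < 2 ^ k) (h : pw l n Q k N = oneL n) : Cert P N l := by
  intro x hx
  have hxi : IsIntegral ℤ x := ⟨P, hPm, hx⟩
  let O := integralClosure ℤ ℂ
  let x' : O := ⟨x, hxi⟩
  let I : Ideal O := Ideal.span {(l : O)}
  let q := Ideal.Quotient.mk I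
  have hl : ((l : ℕ) : O ⧸ I) = 0 := by
    have : q (l : O) = 0 := Ideal.Quotient.eq_zero_iff_mem.2 (Ideal.mem_span_singleton_self _)
    rw [map_natCast] at this
    exact this
  have hx' : aeval x' P = 0 := by
    apply Subtype.ext
    have h1 : ((aeval x' P : O) : ℂ) = aeval x P := by
      have := aeval_algebraMap_apply ℂ x' P
      exact this.symm
    rw [h1, hx]
    rfl
  have hxq : aeval (q x') P = 0 := by
    have h1 : aeval (q x') P = q (aeval x' P) := by
      have := Polynomial.aeval_algHom_apply (q.toIntAlgHom) x' P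
      exact this
    rw [h1, hx', map_zero]
  have h1 := rule_spec (q x') hr hPm hdeg hl hxq
  have h2 := evn_pw (q x') l n Q hl h1 k N hN
  rw [h, evn_oneL, ← map_pow] at h2
  have h3 : q (x' ^ N - 1) = 0 := by rw [map_sub, ← h2, map_one, sub_self]
  have h4 := Ideal.Quotient.eq_zero_iff_mem.1 h3
  rw [Ideal.mem_span_singleton] at h4
  obtain ⟨w, hw⟩ := h4
  refine ⟨(w : ℂ), w.2, ?_⟩
  have h5 := congrArg (fun u : O => (u : ℂ)) hw
  have h6 : x ^ N - 1 = l * (w : ℂ) := by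
    have e1 : ((x' ^ N - 1 : O) : ℂ) = x ^ N - 1 := rfl
    have e2 : (((l : O) * w : O) : ℂ) = (l : ℂ) * (w : ℂ) := by
      push_cast
      rfl
    rw [← e1, ← e2]
    exact h5
  linear_combination h6

/-- irreducibility modulo a prime from the absence of roots in small extensions -/
theorem irr_of (P : ℤ[X]) (l g : ℕ) (hl : l.Prime) (hPm : P.Monic) (hdeg : P.natDegree = 2 * g)
    (hg : 1 ≤ g)
    (h : ∀ (F : Type) [Field F], ((l : ℕ) : F) = 0 → ∀ α : F, aeval α P = 0 →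
      ∀ d, 1 ≤ d → d ≤ g → α ^ l ^ d ≠ α) : Irreducible (P.map (Int.castRingHom ℚ)) := by
  haveI : Fact l.Prime := ⟨hl⟩
  have hmap : P.map (Int.castRingHom ℚ) = P.map (algebraMap ℤ ℚ) := rfl
  rw [hmap, ← hPm.irreducible_iff_irreducible_map_fraction_map]
  refine Monic.irreducible_of_irreducible_map (Int.castRingHom (ZMod l)) P hPm ?_
  have hPm' : (P.map (Int.castRingHom (ZMod l))).Monic := hPm.map _
  have hdeg' : (P.map (Int.castRingHom (ZMod l))).natDegree = 2 * g := by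
    rw [hPm.natDegree_map, hdeg]
  rw [hPm'.irreducible_iff_natDegree']
  refine ⟨?_, ?_⟩
  · intro h1
    rw [h1, natDegree_one] at hdeg'
    omega
  intro A B hA hB hAB hmem
  rw [Finset.mem_Ioc, hdeg'] at hmem
  obtain ⟨hB0, hBg⟩ := hmem
  have hBu : ¬ IsUnit B := by
    intro hu
    have := natDegree_eq_zero_of_isUnit hu
    omega
  obtain ⟨C', hC'm, hC'i, hC'd⟩ := exists_monic_irreducible_factor B hBu
  haveI : Fact (Irreducible C') := ⟨hC'i⟩
  set d := C'.natDegree with hd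
  have hd1 : 1 ≤ d := hC'i.natDegree_pos
  have hdg : d ≤ g := by
    have := natDegree_le_of_dvd hC'd hB.ne_zero
    omega
  let F := AdjoinRoot C'
  let pb := AdjoinRoot.powerBasis hC'i.ne_zero
  haveI : Module.Finite (ZMod l) F := pb.finite
  haveI : Finite F := Module.finite_of_finite (ZMod l)
  haveI : Fintype F := Fintype.ofFinite F
  have hcard : Fintype.card F = l ^ d := by
    rw [← Nat.card_eq_fintype_card, Module.natCard_eq_pow_finrank (K := ZMod l) (V := F), pb.finrank,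
      AdjoinRoot.powerBasis_dim, Nat.card_zmod]
  have hlF : ((l : ℕ) : F) = 0 := by
    have : ((l : ℕ) : ZMod l) = 0 := ZMod.natCast_self l
    have h2 := congrArg (algebraMap (ZMod l) F) this
    rw [map_natCast, map_zero] at h2
    exact h2
  have hroot : aeval (AdjoinRoot.root C') P = 0 := by
    have h1 : C' ∣ P.map (Int.castRingHom (ZMod l)) := by
      rw [← hAB]
      exact hC'd.mul_left A
    obtain ⟨S, hS⟩ := h1
    have h2 : aeval (AdjoinRoot.root C') (P.map (Int.castRingHom (ZMod l))) = 0 := by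
      rw [hS, map_mul, AdjoinRoot.aeval_eq, AdjoinRoot.mk_self, zero_mul]
    have h3 : aeval (AdjoinRoot.root C') (P.map (Int.castRingHom (ZMod l))) =
        aeval (AdjoinRoot.root C') P := by
      rw [aeval_def, aeval_def, eval₂_map]
      congr 1
    rw [← h3, h2]
  refine h F hlF (AdjoinRoot.root C') hroot d hd1 hdg ?_
  rw [← hcard]
  exact FiniteField.pow_card _

/-- the check for irreducibility -/
def ICheck (l n g k : ℕ) (Q : List ℕ) (U : List (ℕ × List ℕ)) : Prop :=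
  (∀ e ∈ U, l ^ e.1 < 2 ^ k ∧ mmul l n Q e.2 (addN (pw l n Q k (l ^ e.1)) [0, l - 1]) = oneL n) ∧
  (∀ d < g + 1, 1 ≤ d → ∃ e ∈ U, d ∣ e.1)

instance (l n g k : ℕ) (Q : List ℕ) (U : List (ℕ × List ℕ)) : Decidable (ICheck l n g k Q U) := by
  unfold ICheck
  infer_instance

theorem irr_check (P : ℤ[X]) (l g k : ℕ) (Q : List ℕ) (U : List (ℕ × List ℕ)) (hl : l.Prime)
    (hPm : P.Monic) (hdeg : P.natDegree = 2 * g) (hg : 1 ≤ g) (hr : Rule P l (2 * g) Q)
    (h : ICheck l (2 * g) g k Q U) : Irreducible (P.map (Int.castRingHom ℚ)) := by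
  refine irr_of P l g hl hPm hdeg hg fun F _ hlF α hα d hd1 hdg heq => ?_
  obtain ⟨e, he, m, hm⟩ := h.2 d (by omega) hd1
  obtain ⟨h1, h2⟩ := h.1 e he
  have hQ := rule_spec α hr hPm hdeg hlF hα
  have h3 := evn_mmul α l (2 * g) Q hlF hQ e.2 (addN (pw l (2 * g) Q k (l ^ e.1)) [0, l - 1])
  rw [h2, evn_oneL, evn_addN, evn_pw α l (2 * g) Q hlF hQ k _ h1] at h3
  have h4 : α ^ l ^ e.1 = α := by
    rw [hm]
    clear hm
    induction m with
    | zero => simp
    | succ m ih => rw [Nat.mul_succ, pow_add, pow_mul, ih, heq]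
  have h5 : evn α [0, l - 1] = -α := by
    have hl1 : 1 ≤ l := hl.one_lt.le
    simp only [evn]
    rw [Nat.cast_sub hl1, hlF]
    simp
  rw [h4, h5, add_neg_cancel, mul_zero] at h3
  exact one_ne_zero h3

/-- coefficients of the Weil polynomial -/
def cf (g : ℕ) (a : ℕ → ℤ) (i : ℕ) : ℤ :=
  if i < g then 2 ^ (g - i) * a i else if i = g then a g else a (2 * g - i)

def RuleC (B : List ℤ) (l g : ℕ) (Q : List ℕ) : Prop :=
  Q.length = 2 * g ∧ ∀ i < 2 * g, ((Q.getD i 0 : ℕ) + cf g (fun j => B.getD j 0) i) % (l : ℤ) = 0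

instance (B : List ℤ) (l g : ℕ) (Q : List ℕ) : Decidable (RuleC B l g Q) := by
  unfold RuleC
  infer_instance

theorem rule_of {B : List ℤ} {l g : ℕ} {Q : List ℕ} (h : RuleC B l g Q) :
    Rule (PP 2 g (fun j => B.getD j 0)) l (2 * g) Q := by
  refine ⟨h.1, fun i hi => ?_⟩
  have h1 := Int.dvd_of_emod_eq_zero (h.2 i hi)
  rw [coeff_PP]
  unfold cf at h1
  by_cases h2 : i < g
  · rw [if_pos h2] at h1 ⊢
    exact h1
  · rw [if_neg h2] at h1 ⊢
    by_cases h3 : i = g
    · rw [if_pos h3] at h1 ⊢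
      exact h1
    · rw [if_neg h3] at h1 ⊢
      rw [if_pos hi.le]
      exact h1

/-- an exceptional case -/
theorem exc_good (g f : ℕ) (B H K : List ℤ) (n S k l0 : ℕ) (Q0 : List ℕ) (U : List (ℕ × List ℕ))
    (l1 N1 : ℕ) (Q1 : List ℕ) (l2 N2 : ℕ) (Q2 : List ℕ)
    (h : (2 ≤ g ∧ f ≤ g ∧ B.getD 0 0 = 1 ∧ (¬ (2 : ℤ) ∣ B.getD f 0) ∧
      (∀ i ≤ g, f < i → (2 : ℤ) ∣ B.getD i 0) ∧ (∃ i < g + 1, ¬ 2 ∣ i ∧ B.getD i 0 ≠ 0) ∧
      H.length = g + 1 ∧ (∀ i < g, H.getD i 0 = 2 * B.getD i 0) ∧ H.getD g 0 = B.getD g 0 ∧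
      chk n S 0 1 H K = true))
    (hl0 : l0.Prime) (hr0 : RuleC B l0 g Q0) (hI : ICheck l0 (2 * g) g k Q0 U)
    (hc : 3 ≤ l1 ∧ 3 ≤ l2 ∧ N1 < 2 ^ k ∧ N2 < 2 ^ k ∧ Nat.gcd N1 N2 ∣ 2)
    (hr1 : RuleC B l1 g Q1) (hr2 : RuleC B l2 g Q2)
    (hp1 : pw l1 (2 * g) Q1 k N1 = oneL (2 * g)) (hp2 : pw l2 (2 * g) Q2 k N2 = oneL (2 * g)) :
    Good 2 g f := by
  obtain ⟨h1, h2, h3, h5, h6, ⟨i2, k1, k2, k3⟩, h10, h11, h12, h13⟩ := h
  obtain ⟨c1, c2, c3, c4, c5⟩ := hc
  set a : ℕ → ℤ := fun j => B.getD j 0 with ha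
  have hPm : (PP 2 g a).Monic := monic_PP (by omega) h3
  have hdeg : (PP 2 g a).natDegree = 2 * g := natDegree_PP (by omega) h3
  have hroot : ∀ x : ℂ, aeval x (PP 2 g a) = 0 → ‖x‖ ^ 2 = 2 := by
    refine circle g a (by omega) h3 fun z hz h0 => ?_
    have h := chk_spec (by norm_num) h13 z hz
    have h14 : ev z H = 0 := by
      rw [ev_eq_sum, h10, Finset.sum_range_succ, h12, ← h0]
      congr 1
      refine Finset.sum_congr rfl fun i hi => ?_
      rw [h11 i (Finset.mem_range.1 hi)]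
      push_cast
      ring
    rw [h14, norm_zero] at h
    norm_num at h
  have hirr := irr_check (PP 2 g a) l0 g k Q0 U hl0 hPm hdeg (by omega) (rule_of hr0) hI
  obtain ⟨d1, d2⟩ := two_adic h2 h5 (fun i hi hig => h6 i hig hi)
  have e1 := cert_of (PP 2 g a) l1 (2 * g) k N1 Q1 (rule_of hr1) hPm hdeg c3 hp1
  have e2 := cert_of (PP 2 g a) l2 (2 * g) k N2 Q2 (rule_of hr2) hPm hdeg c4 hp2
  refine ⟨PP 2 g a, hPm, hdeg, hirr, fun x hx => norm_sqrt (hroot x hx), d1, d2, ?_⟩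
  intro x hx m hm
  refine gen_two (PP 2 g a) hPm hirr ?_ i2 k2 (coeff_low (by omega) k3) x hx
    (ne_zero_of (hroot x hx)) m hm
  intro x y hx hy m hm hxy
  have hx0 := ne_zero_of (hroot x hx)
  have s1 := conj_pow (PP 2 g a) N1 l1 c1 e1 x y hx hy hx0 m hm hxy
  have s2 := conj_pow (PP 2 g a) N2 l2 c2 e2 x y hx hy hx0 m hm hxy
  exact dvd_pow x y _ 2 c5 (gcd_pow x y hx0 N1 N2 s1 s2)

end Pool.Agent.H503.WN
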