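import Mathlib

set_option autoImplicit false

namespace Pool.Agent.H503.WN

open Polynomial

/-- norms from a field containing `√-3` -/
theorem norm_form {F K : Type*} [Field F] [Field K] [Algebra F K] [FiniteDimensional F K]
    (h3 : ∀ b : F, b ^ 2 ≠ -3)
    (s : K) (hs : s ^ 2 = -3) (z : K) (hz : IsIntegral ℤ z) :
    ∃ u v : F, Algebra.norm F z = u ^ 2 + 3 * v ^ 2 ∧ IsIntegral ℤ (2 * u) := by
  classical
  set L := IntermediateField.adjoin F {s} with hL
  have hsi : IsIntegral F s := IsIntegral.of_finite F s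
  have hmin : minpoly F s = X ^ 2 + C 3 := by
    symm
    refine minpoly.eq_of_irreducible_of_monic ?_ ?_ ?_
    · have : (X ^ 2 + C 3 : F[X]) = X ^ 2 - C (-3) := by rw [C_neg]; ring
      rw [this]
      exact X_pow_sub_C_irreducible_of_prime Nat.prime_two fun b hb => h3 b hb
    · rw [map_add, map_pow, aeval_X, aeval_C, hs, map_ofNat]
      ring
    · exact monic_X_pow_add_C 3 two_ne_zero
  set pb := IntermediateField.adjoin.powerBasis hsi with hpb
  have hdim : pb.dim = 2 := by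
    rw [hpb, IntermediateField.adjoin.powerBasis_dim, hmin]
    exact natDegree_X_pow_add_C
  have hgen : pb.gen = IntermediateField.AdjoinSimple.gen F s :=
    IntermediateField.adjoin.powerBasis_gen hsi
  have hgen2 : pb.gen ^ 2 = -3 := by
    rw [hgen]
    apply (algebraMap L K).injective
    rw [map_pow, IntermediateField.AdjoinSimple.algebraMap_gen, hs, map_neg, map_ofNat]
  set b : Module.Basis (Fin 2) F L := pb.basis.reindex (finCongr hdim) with hb
  have hb0 : b 0 = 1 := by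
    simp [hb]
  have hb1 : b 1 = pb.gen := by
    simp [hb]
  set α : L := Algebra.norm L z with hα
  have hαi : IsIntegral ℤ α := Algebra.isIntegral_norm L hz
  have hN : Algebra.norm F α = Algebra.norm F z := Algebra.norm_norm
  set u : F := b.repr α 0 with hu
  set v : F := b.repr α 1 with hv
  have hαuv : α = u • b 0 + v • b 1 := by
    have := b.sum_repr α
    rw [Fin.sum_univ_two] at this
    exact this.symm
  have hm0 : α * b 0 = u • b 0 + v • b 1 := by rw [hb0, mul_one]; rw [hb0] at hαuv; exact hαuv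
  have hm1 : α * b 1 = (-3 * v) • b 0 + u • b 1 := by
    have h2 : b 1 * b 1 = (-3 : F) • b 0 := by
      rw [hb1, hb0, ← pow_two, hgen2, Algebra.smul_def, mul_one, map_neg, map_ofNat]
    rw [hαuv, add_mul, smul_mul_assoc, smul_mul_assoc, h2, hb0, one_mul, smul_smul]
    rw [mul_comm v (-3)]
    abel
  have hdet : Algebra.norm F α = u ^ 2 + 3 * v ^ 2 := by
    rw [Algebra.norm_eq_matrix_det b, Matrix.det_fin_two]
    simp only [Algebra.leftMulMatrix_eq_repr_mul, hm0, hm1, map_add, map_smul,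
      Module.Basis.repr_self, Finsupp.add_apply, Finsupp.smul_apply, Finsupp.single_apply]
    simp
    ring
  have htr : Algebra.trace F L α = 2 * u := by
    rw [Algebra.trace_eq_matrix_trace b, Matrix.trace_fin_two]
    simp only [Algebra.leftMulMatrix_eq_repr_mul, hm0, hm1, map_add, map_smul,
      Module.Basis.repr_self, Finsupp.add_apply, Finsupp.smul_apply, Finsupp.single_apply]
    simp
    ring
  refine ⟨u, v, by rw [← hN, hdet], ?_⟩
  rw [← htr]
  exact Algebra.isIntegral_trace hαi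

/-- the value of the minimal polynomial at one -/
theorem eval_form {F E : Type*} [Field F] [Field E] [Algebra F E] (h3 : ∀ b : F, b ^ 2 ≠ -3)
    (x : E) (hx : IsIntegral ℤ x) (hxq : IsIntegral F x) (s : E)
    (hs : s ∈ IntermediateField.adjoin F {x}) (hs2 : s ^ 2 = -3) :
    ∃ u v : F, (minpoly F x).eval 1 = u ^ 2 + 3 * v ^ 2 ∧ IsIntegral ℤ (2 * u) := by
  classical
  set K := IntermediateField.adjoin F {x} with hK
  haveI : FiniteDimensional F K := IntermediateField.adjoin.finiteDimensional hxq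
  set pb := IntermediateField.adjoin.powerBasis hxq with hpb
  have hgen : pb.gen = IntermediateField.AdjoinSimple.gen F x :=
    IntermediateField.adjoin.powerBasis_gen hxq
  have hgi : IsIntegral ℤ pb.gen := by
    rw [hgen]
    have : IsIntegral ℤ ((algebraMap K E) (IntermediateField.AdjoinSimple.gen F x)) := by
      rw [IntermediateField.AdjoinSimple.algebraMap_gen]
      exact hx
    exact (isIntegral_algebraMap_iff (algebraMap K E).injective).1 this
  set z : K := 1 - pb.gen with hz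
  have hzi : IsIntegral ℤ z := isIntegral_one.sub hgi
  obtain ⟨u, v, huv, hu⟩ := norm_form h3 (⟨s, hs⟩ : K) (by
    apply Subtype.ext
    have h5 : (((⟨s, hs⟩ : K) ^ 2 : K) : E) = s ^ 2 := rfl
    rw [h5, hs2]
    push_cast
    rfl) z hzi
  refine ⟨u, v, ?_, hu⟩
  rw [← huv, Algebra.norm_eq_matrix_det pb.basis, hz, map_sub, map_one]
  have h1 := Matrix.eval_charpoly (Algebra.leftMulMatrix pb.basis pb.gen) (1 : F)
  rw [charpoly_leftMulMatrix] at h1
  have h2 : (Matrix.scalar (Fin pb.dim)) (1 : F) = 1 := map_one _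
  rw [h2] at h1
  rw [← h1]
  have h3 : minpoly F pb.gen = minpoly F x := by
    rw [hgen]
    exact (minpoly.algebraMap_eq (algebraMap K E).injective _).symm.trans (by
      rw [IntermediateField.AdjoinSimple.algebraMap_gen])
  rw [h3]

theorem no_six (N m n : ℤ) (hN : N % 9 = 6) : 4 * N ≠ m ^ 2 + 3 * n ^ 2 := by
  intro h
  have hm : m % 3 = 0 ∨ m % 3 = 1 ∨ m % 3 = 2 := by omega
  have hn : n % 3 = 0 ∨ n % 3 = 1 ∨ n % 3 = 2 := by omega
  obtain ⟨N', hN'⟩ : ∃ k, N = 9 * k + 6 := ⟨N / 9, by omega⟩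
  rcases hm with hm | hm | hm
  · obtain ⟨m', hm'⟩ : ∃ k, m = 3 * k := ⟨m / 3, by omega⟩
    rcases hn with hn | hn | hn
    · obtain ⟨n', hn'⟩ : ∃ k, n = 3 * k := ⟨n / 3, by omega⟩
      rw [hm', hn', hN'] at h
      have : 4 * N' * 9 + 24 = 9 * (m' ^ 2 + 3 * n' ^ 2) := by linear_combination h
      omega
    · obtain ⟨n', hn'⟩ : ∃ k, n = 3 * k + 1 := ⟨n / 3, by omega⟩
      rw [hm', hn', hN'] at h
      have : 4 * N' * 9 + 21 = 9 * (m' ^ 2 + 3 * n' ^ 2 + 2 * n') := by linear_combination h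
      omega
    · obtain ⟨n', hn'⟩ : ∃ k, n = 3 * k + 2 := ⟨n / 3, by omega⟩
      rw [hm', hn', hN'] at h
      have : 4 * N' * 9 + 12 = 9 * (m' ^ 2 + 3 * n' ^ 2 + 4 * n') := by linear_combination h
      omega
  · obtain ⟨m', hm'⟩ : ∃ k, m = 3 * k + 1 := ⟨m / 3, by omega⟩
    rw [hm', hN'] at h
    have : 3 * (12 * N' + 8) = 3 * (3 * m' ^ 2 + 2 * m' + n ^ 2) + 1 := by linear_combination h
    omega
  · obtain ⟨m', hm'⟩ : ∃ k, m = 3 * k + 2 := ⟨m / 3, by omega⟩
    rw [hm', hN'] at h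
    have : 3 * (12 * N' + 8) = 3 * (3 * m' ^ 2 + 4 * m' + n ^ 2 + 1) + 1 := by
      linear_combination h
    omega

/-- no square root of `-3` -/
theorem no_omega (P : ℤ[X]) (hPm : P.Monic) (hirr : Irreducible (P.map (Int.castRingHom ℚ)))
    (h6 : P.eval 1 % 9 = 6) (x : ℂ) (hx : aeval x P = 0) :
    ∀ s ∈ IntermediateField.adjoin ℚ {x}, s ^ 2 ≠ -3 := by
  classical
  intro s hs hs2
  have hxi : IsIntegral ℤ x := ⟨P, hPm, hx⟩
  have hxq : IsIntegral ℚ x := hxi.tower_top
  have hmap : P.map (Int.castRingHom ℚ) = P.map (algebraMap ℤ ℚ) := rfl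
  have hmin : minpoly ℚ x = P.map (algebraMap ℤ ℚ) := by
    symm
    refine minpoly.eq_of_irreducible_of_monic (hmap ▸ hirr) ?_ (hPm.map _)
    rw [aeval_map_algebraMap]
    exact hx
  obtain ⟨u, v, huv, hu⟩ := eval_form (fun b hb => by nlinarith [sq_nonneg b]) x hxi hxq
    s hs hs2
  rw [hmin, eval_map, eval₂_at_one] at huv
  set N : ℤ := P.eval 1 with hNdef
  have hNN' : (N : ℚ) = u ^ 2 + 3 * v ^ 2 := huv
  obtain ⟨m, hm⟩ := IsIntegrallyClosed.isIntegral_iff.1 hu
  have hm' : (m : ℚ) = 2 * u := hm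
  have h6' : IsIntegral ℤ (6 * v : ℚ) := by
    refine ⟨X ^ 2 - C (3 * (4 * N - m ^ 2)), monic_X_pow_sub_C _ two_ne_zero, ?_⟩
    have e : (6 * v) ^ 2 = (3 : ℚ) * (4 * N - m ^ 2) := by
      rw [hNN', hm']; ring
    rw [eval₂_sub, eval₂_pow, eval₂_X, eval₂_C, e]
    simp
  obtain ⟨j, hj⟩ := IsIntegrallyClosed.isIntegral_iff.1 h6'
  have hj' : (j : ℚ) = 6 * v := hj
  have hj2 : j ^ 2 = 3 * (4 * N - m ^ 2) := by
    have : (j : ℚ) ^ 2 = 3 * (4 * N - m ^ 2) := by rw [hj', hNN', hm']; ring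
    exact_mod_cast this
  have h3 : (3 : ℤ) ∣ j := by
    have : (3 : ℤ) ∣ j ^ 2 := ⟨_, hj2⟩
    exact Int.prime_three.dvd_of_dvd_pow this
  obtain ⟨n, hn⟩ := h3
  refine no_six N m n h6 ?_
  have hn' : (n : ℚ) = 2 * v := by
    have : (j : ℚ) = 3 * n := by exact_mod_cast hn
    linarith
  have : (4 * N : ℚ) = m ^ 2 + 3 * n ^ 2 := by
    rw [hn', hm', hNN']
    ring
  exact_mod_cast this

/-- hence no nontrivial root of unity of order a power of three -/
theorem no_three {x : ℂ} (h : ∀ s ∈ IntermediateField.adjoin ℚ {x}, s ^ 2 ≠ -3) (t : ℕ) :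
    ∀ u ∈ IntermediateField.adjoin ℚ {x}, u ^ 3 ^ t = 1 → u = 1 := by
  induction t with
  | zero =>
    intro u _ h1
    simpa using h1
  | succ t ih =>
    intro u hu h1
    have h2 : (u ^ 3 ^ t) ^ 3 = 1 := by rw [← pow_mul, ← pow_succ]; exact h1
    set w := u ^ 3 ^ t with hw
    have hwK : w ∈ IntermediateField.adjoin ℚ {x} := pow_mem hu _
    by_cases hw1 : w = 1
    · exact ih u hu hw1
    · exfalso
      have h3 : w ^ 2 + w + 1 = 0 := by
        have : (w - 1) * (w ^ 2 + w + 1) = 0 := by linear_combination h2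
        rcases mul_eq_zero.1 this with h4 | h4
        · exact absurd (sub_eq_zero.1 h4) hw1
        · exact h4
      refine h (2 * w + 1) ?_ (by linear_combination 4 * h3)
      exact add_mem (mul_mem (by
        have : (2 : ℂ) = ((2 : ℕ) : ℂ) := by norm_num
        rw [this]
        exact natCast_mem _ 2) hwK) (one_mem _)

end Pool.Agent.H503.WN
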