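import Mathlib

set_option autoImplicit false

namespace Pool.Agent.H503.WN

open Polynomial

/-- a root of unity congruent to one modulo `l ≥ 3` is one -/
theorem unit_one (ξ w : ℂ) (k l : ℕ) (hk : 1 ≤ k) (hl : 3 ≤ l) (hξ : ξ ^ k = 1)
    (hw : IsIntegral ℤ w) (h : ξ - 1 = l * w) : ξ = 1 := by
  have hfin : IsOfFinOrder ξ := isOfFinOrder_iff_pow_eq_one.2 ⟨k, hk, hξ⟩
  have hr0 : 0 < orderOf ξ := hfin.orderOf_pos
  obtain ⟨r, hr⟩ : ∃ r, orderOf ξ = r + 1 := ⟨orderOf ξ - 1, by omega⟩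
  have hprim : IsPrimitiveRoot ξ (r + 1) := hr ▸ IsPrimitiveRoot.orderOf ξ
  have hprod := hprim.prod_one_sub_pow_eq_order
  have hξi : IsIntegral ℤ ξ := by
    refine ⟨X ^ k - 1, monic_X_pow_sub_C 1 (by omega), ?_⟩
    simp [hξ]
  have hk' : ∀ j : ℕ, ∃ v : ℂ, IsIntegral ℤ v ∧ 1 - ξ ^ (j + 1) = l * v := by
    intro j
    refine ⟨-w * ∑ i ∈ Finset.range (j + 1), ξ ^ i, ?_, ?_⟩
    · exact hw.neg.mul (IsIntegral.sum _ fun i _ => hξi.pow i)
    · have h1 := geom_sum_mul ξ (j + 1)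
      linear_combination h1 - (∑ i ∈ Finset.range (j + 1), ξ ^ i) * h
  choose v hv1 hv2 using hk'
  have hprod2 : (l : ℂ) ^ r * ∏ j ∈ Finset.range r, v j = r + 1 := by
    rw [← hprod]
    simp only [hv2]
    rw [Finset.prod_mul_distrib, Finset.prod_const, Finset.card_range]
  have hint : IsIntegral ℤ (∏ j ∈ Finset.range r, v j) := IsIntegral.prod _ fun j _ => hv1 j
  have hl0 : (l : ℂ) ≠ 0 := by
    have : l ≠ 0 := by omega
    exact_mod_cast this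
  have hl0q : (l : ℚ) ≠ 0 := by
    have : l ≠ 0 := by omega
    exact_mod_cast this
  have hval : ∏ j ∈ Finset.range r, v j = algebraMap ℚ ℂ (((r : ℚ) + 1) / l ^ r) := by
    have h2 : (l : ℂ) ^ r ≠ 0 := pow_ne_zero _ hl0
    rw [eq_ratCast]
    push_cast
    rw [eq_div_iff h2, ← hprod2]
    ring
  rw [hval] at hint
  have hint2 : IsIntegral ℤ (((r : ℚ) + 1) / l ^ r) :=
    (isIntegral_algebraMap_iff (algebraMap ℚ ℂ).injective).1 hint
  obtain ⟨z, hz⟩ := IsIntegrallyClosed.isIntegral_iff.1 hint2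
  have hz' : (r : ℚ) + 1 = z * l ^ r := by
    have : (z : ℚ) = ((r : ℚ) + 1) / l ^ r := hz
    rw [this]; field_simp
  have hz'' : (r : ℤ) + 1 = z * l ^ r := by exact_mod_cast hz'
  have hlp : (0 : ℤ) < (l : ℤ) ^ r := by positivity
  have hzpos : 1 ≤ z := by
    by_contra hcon
    push Not at hcon
    have : z ≤ 0 := by omega
    nlinarith
  have hle : (l : ℤ) ^ r ≤ r + 1 := by
    rw [hz'']
    nlinarith
  have h3 : (3 : ℤ) ^ r ≤ (l : ℤ) ^ r := pow_le_pow_left₀ (by norm_num) (by exact_mod_cast hl) r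
  have hr1 : r = 0 := by
    by_contra hcon
    have h4 : ∀ m : ℕ, (m : ℤ) + 1 + 1 < 3 ^ (m + 1) := by
      intro m
      induction m with
      | zero => norm_num
      | succ m ih =>
        rw [pow_succ]
        push_cast
        linarith
    have h5 := h4 (r - 1)
    have h6 : r - 1 + 1 = r := by omega
    rw [h6] at h5
    have h7 : ((r - 1 : ℕ) : ℤ) = (r : ℤ) - 1 := by omega
    rw [h7] at h5
    linarith
  rw [hr1] at hr
  exact orderOf_eq_one_iff.1 hr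

/-- the certificate: `x ^ N` is congruent to one modulo `l` for every root `x` -/
def Cert (P : ℤ[X]) (N l : ℕ) : Prop :=
  ∀ x : ℂ, aeval x P = 0 → ∃ w : ℂ, IsIntegral ℤ w ∧ x ^ N = 1 + l * w

theorem conj_pow (P : ℤ[X]) (N l : ℕ) (hl : 3 ≤ l) (hC : Cert P N l) (x y : ℂ)
    (hx : aeval x P = 0) (hy : aeval y P = 0) (hx0 : x ≠ 0) (n : ℕ) (hn : 1 ≤ n)
    (hxy : y ^ n = x ^ n) : y ^ N = x ^ N := by
  obtain ⟨wx, hwx, hx1⟩ := hC x hx
  obtain ⟨wy, hwy, hy1⟩ := hC y hy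
  set ξ : ℂ := (y / x) ^ N with hξ
  have hx' : x ^ N ≠ 0 := pow_ne_zero _ hx0
  have h1 : ξ * x ^ N = y ^ N := by
    rw [hξ, div_pow]; field_simp
  have h2 : ξ ^ n = 1 := by
    rw [hξ, ← pow_mul, mul_comm, pow_mul, div_pow, hxy, div_self (pow_ne_zero _ hx0), one_pow]
  have hξi : IsIntegral ℤ ξ := by
    refine ⟨X ^ n - 1, monic_X_pow_sub_C 1 (by omega), ?_⟩
    simp [h2]
  have h3 := unit_one ξ (wy - ξ * wx) n l hn hl h2 (hwy.sub (hξi.mul hwx)) (by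
      linear_combination h1 + hy1 - ξ * hx1)
  rw [← h1, h3, one_mul]

theorem gcd_pow (x y : ℂ) (hx0 : x ≠ 0) (M N : ℕ) (h1 : y ^ M = x ^ M) (h2 : y ^ N = x ^ N) :
    y ^ Nat.gcd M N = x ^ Nat.gcd M N := by
  have e : ∀ k : ℕ, y ^ k = x ^ k ↔ orderOf (y / x) ∣ k := by
    intro k
    rw [orderOf_dvd_iff_pow_eq_one, div_pow, div_eq_one_iff_eq (pow_ne_zero _ hx0)]
  rw [e] at *
  exact Nat.dvd_gcd h1 h2

theorem dvd_pow (x y : ℂ) (M N : ℕ) (hd : M ∣ N) (h1 : y ^ M = x ^ M) : y ^ N = x ^ N := by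
  obtain ⟨k, rfl⟩ := hd
  rw [pow_mul, pow_mul, h1]

/-- certificate from a factorisation modulo 3 -/
theorem cert_three (P : ℤ[X]) (g t : ℕ) (hPm : P.Monic) (hg : g ≤ 3 ^ t)
    (hP : P.map (Int.castRingHom (ZMod 3)) = (X ^ 2 - 1) ^ g) : Cert P (2 * 3 ^ t) 3 := by
  haveI : Fact (Nat.Prime 3) := ⟨by norm_num⟩
  have hR : ∃ R : ℤ[X], X ^ (2 * 3 ^ t) - 1 = P * (X ^ 2 - 1) ^ (3 ^ t - g) + C 3 * R := by
    have h0 : (X ^ (2 * 3 ^ t) - 1 - P * (X ^ 2 - 1) ^ (3 ^ t - g)).map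
        (Int.castRingHom (ZMod 3)) = 0 := by
      rw [Polynomial.map_sub, Polynomial.map_mul, hP, Polynomial.map_sub, Polynomial.map_pow,
        Polynomial.map_pow, Polynomial.map_sub, Polynomial.map_pow, Polynomial.map_X,
        Polynomial.map_one, ← pow_add, Nat.add_sub_cancel' hg, sub_pow_char_pow, one_pow,
        ← pow_mul, sub_self]
    have h1 : C 3 ∣ (X ^ (2 * 3 ^ t) - 1 - P * (X ^ 2 - 1) ^ (3 ^ t - g) : ℤ[X]) := by
      rw [C_dvd_iff_dvd_coeff]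
      intro i
      have h1 := congrArg (fun G => coeff G i) h0
      simp only [coeff_map, coeff_zero, eq_intCast] at h1
      exact_mod_cast (ZMod.intCast_zmod_eq_zero_iff_dvd _ 3).1 h1
    obtain ⟨R, hR⟩ := h1
    exact ⟨R, by rw [← hR]; ring⟩
  obtain ⟨R, hR⟩ := hR
  intro x hx
  have hxi : IsIntegral ℤ x := ⟨P, hPm, hx⟩
  refine ⟨aeval x R, ?_, ?_⟩
  · rw [aeval_eq_sum_range]
    exact IsIntegral.sum _ fun i _ => (hxi.pow i).smul _
  · have h1 := congrArg (aeval x) hR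
    simp only [map_add, map_sub, map_mul, map_pow, aeval_X, map_one, hx, zero_mul, zero_add,
      aeval_C] at h1
    have h2 : (algebraMap ℤ ℂ) 3 = ((3 : ℕ) : ℂ) := by norm_num
    rw [h2] at h1
    linear_combination h1

end Pool.Agent.H503.WN
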