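import Pool.Agent.R80.WF.Nd
import Pool.Agent.Run7.h503.WN.Ratio
import Pool.Agent.Run7.h503.WN.NoOmega
import Pool.Agent.Run7.h503.WN.Descent

set_option autoImplicit false

namespace Pool.Agent.H503.WN

open Polynomial

theorem sq_one (u : ℂ) (h : u ^ 2 = 1) : u = 1 ∨ u = -1 := by
  have h1 : (u - 1) * (u + 1) = 0 := by linear_combination h
  rcases mul_eq_zero.1 h1 with h2 | h2
  · exact Or.inl (by linear_combination h2)
  · exact Or.inr (by linear_combination h2)

/-- if all conjugates with the same `n`-th power have the same `k`-th power then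
`x ^ k ∈ ℚ(x ^ n)` -/
theorem pow_mem_of_conj (P : ℤ[X]) (hPm : P.Monic) (x : ℂ) (hx : aeval x P = 0) (n k : ℕ)
    (h : ∀ y : ℂ, aeval y P = 0 → y ^ n = x ^ n → y ^ k = x ^ k) :
    x ^ k ∈ IntermediateField.adjoin ℚ {x ^ n} := by
  have hxi : IsIntegral ℤ x := ⟨P, hPm, hx⟩
  set L := IntermediateField.adjoin ℚ {x ^ n} with hL
  have hxiL : IsIntegral L x := hxi.tower_top
  have hxnL : x ^ n ∈ L := IntermediateField.mem_adjoin_simple_self ℚ (x ^ n)
  refine Pool.Agent.R80.WF.NdAux.step2 L x hxiL _ fun y hy => ?_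
  have hyP : aeval y P = 0 := by
    have hd : minpoly L x ∣ P.map (algebraMap ℤ L) := by
      refine minpoly.dvd _ _ ?_
      rw [aeval_map_algebraMap]; exact hx
    obtain ⟨q, hq⟩ := hd
    have h2 := congrArg (aeval y) hq
    rw [map_mul, hy, zero_mul, aeval_map_algebraMap] at h2
    exact h2
  have hyn : y ^ n = x ^ n := by
    have hd : minpoly L x ∣ X ^ n - C (⟨x ^ n, hxnL⟩ : L) := by
      refine minpoly.dvd _ _ ?_
      simp
    obtain ⟨q, hq⟩ := hd
    have h2 := congrArg (aeval y) hq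
    rw [map_mul, hy, zero_mul] at h2
    simp only [map_sub, map_pow, aeval_X, aeval_C] at h2
    have h3 : (algebraMap L ℂ) (⟨x ^ n, hxnL⟩ : L) = x ^ n := rfl
    rw [h3, sub_eq_zero] at h2
    exact h2
  exact h y hyP hyn

theorem minpoly_eq (P : ℤ[X]) (hPm : P.Monic) (hirr : Irreducible (P.map (Int.castRingHom ℚ)))
    (x : ℂ) (hx : aeval x P = 0) : minpoly ℚ x = P.map (algebraMap ℤ ℚ) := by
  symm
  have hmap : P.map (Int.castRingHom ℚ) = P.map (algebraMap ℤ ℚ) := rfl
  refine minpoly.eq_of_irreducible_of_monic (hmap ▸ hirr) ?_ (hPm.map _)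
  rw [aeval_map_algebraMap]
  exact hx

theorem not_expand (P : ℤ[X]) (q i : ℕ) (hq : 0 < q) (hi : ¬ q ∣ i) (hc : P.coeff i ≠ 0)
    (M : ℚ[X]) : P.map (algebraMap ℤ ℚ) ≠ expand ℚ q M := by
  intro h
  have h1 := congrArg (fun F => coeff F i) h
  simp only [coeff_map, coeff_expand hq, if_neg hi] at h1
  apply hc
  rw [eq_intCast] at h1
  exact_mod_cast h1

/-- the field is generated by every power, from the certificate at 3 -/
theorem gen_three (P : ℤ[X]) (hPm : P.Monic) (hirr : Irreducible (P.map (Int.castRingHom ℚ)))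
    (h6 : P.eval 1 % 9 = 6) (t : ℕ) (hcert : Cert P (2 * 3 ^ t) 3)
    (i2 : ℕ) (hi2 : ¬ 2 ∣ i2) (hc2 : P.coeff i2 ≠ 0) (i3 : ℕ) (hi3 : ¬ 3 ∣ i3)
    (hc3 : P.coeff i3 ≠ 0) (x : ℂ) (hx : aeval x P = 0) (hx0 : x ≠ 0) (n : ℕ) (hn : 1 ≤ n) :
    IntermediateField.adjoin ℚ {x ^ n} = IntermediateField.adjoin ℚ {x} := by
  have hxi : IsIntegral ℤ x := ⟨P, hPm, hx⟩
  have hxq : IsIntegral ℚ x := hxi.tower_top
  have hmin := minpoly_eq P hPm hirr x hx
  have hom := no_omega P hPm hirr h6 x hx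
  have hA : ∀ s : ℕ, x ∈ IntermediateField.adjoin ℚ {x ^ 3 ^ s} := by
    intro s
    induction s with
    | zero =>
      rw [pow_zero, pow_one]
      exact IntermediateField.mem_adjoin_simple_self ℚ x
    | succ s ih =>
      rcases descent x hxq 3 (3 ^ s) Nat.prime_three (by norm_num) (no_three hom s)
        (fun u hu hu3 => Or.inl (no_three hom 1 u hu (by simpa using hu3))) hx0 ih with h1 | h1
      · rw [pow_succ, pow_mul]
        exact h1
      · rw [hmin] at h1
        exact absurd h1 (not_expand P 3 i3 (by norm_num) hi3 hc3 _)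
  have hB : x ∈ IntermediateField.adjoin ℚ {x ^ (2 * 3 ^ t)} := by
    rcases descent x hxq 2 (3 ^ t) Nat.prime_two (by
        have h5 : Odd (3 ^ t) := Odd.pow (by decide)
        have h6 : ((-1 : ℂ) ^ (2 + 1)) = -1 := by norm_num
        rw [h6, h5.neg_one_pow]) (no_three hom t)
        (fun u _ hu2 => sq_one u hu2) hx0 (hA t) with h1 | h1
    · rw [mul_comm, pow_mul]
      exact h1
    · rw [hmin] at h1
      exact absurd h1 (not_expand P 2 i2 (by norm_num) hi2 hc2 _)
  apply le_antisymm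
  · rw [IntermediateField.adjoin_simple_le_iff]
    exact pow_mem (IntermediateField.mem_adjoin_simple_self ℚ x) _
  · have h1 := pow_mem_of_conj P hPm x hx n (2 * 3 ^ t) fun y hy hyn =>
      conj_pow P (2 * 3 ^ t) 3 le_rfl hcert x y hx hy hx0 n hn hyn
    have h3 : IntermediateField.adjoin ℚ {x ^ (2 * 3 ^ t)} ≤ IntermediateField.adjoin ℚ {x ^ n} := by
      rw [IntermediateField.adjoin_simple_le_iff]; exact h1
    rw [IntermediateField.adjoin_simple_le_iff]
    exact h3 hB

/-- the field is generated by every power, from certificates with `gcd ∣ 2` -/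
theorem gen_two (P : ℤ[X]) (hPm : P.Monic) (hirr : Irreducible (P.map (Int.castRingHom ℚ)))
    (h2 : ∀ x y : ℂ, aeval x P = 0 → aeval y P = 0 → ∀ n : ℕ, 1 ≤ n → y ^ n = x ^ n →
      y ^ 2 = x ^ 2)
    (i2 : ℕ) (hi2 : ¬ 2 ∣ i2) (hc2 : P.coeff i2 ≠ 0) (x : ℂ) (hx : aeval x P = 0)
    (hx0 : x ≠ 0) (n : ℕ) (hn : 1 ≤ n) :
    IntermediateField.adjoin ℚ {x ^ n} = IntermediateField.adjoin ℚ {x} := by
  have hxi : IsIntegral ℤ x := ⟨P, hPm, hx⟩
  have hxq : IsIntegral ℚ x := hxi.tower_top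
  have hmin := minpoly_eq P hPm hirr x hx
  have hB : x ∈ IntermediateField.adjoin ℚ {x ^ 2} := by
    rcases descent x hxq 2 1 Nat.prime_two (by norm_num) (by simp)
        (fun u _ hu2 => sq_one u hu2) hx0
        (by rw [pow_one]; exact IntermediateField.mem_adjoin_simple_self ℚ x) with h1 | h1
    · rw [pow_one] at h1
      exact h1
    · rw [hmin] at h1
      exact absurd h1 (not_expand P 2 i2 (by norm_num) hi2 hc2 _)
  apply le_antisymm
  · rw [IntermediateField.adjoin_simple_le_iff]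
    exact pow_mem (IntermediateField.mem_adjoin_simple_self ℚ x) _
  · have h1 := pow_mem_of_conj P hPm x hx n 2 fun y hy hyn => h2 x y hx hy n hn hyn
    have h3 : IntermediateField.adjoin ℚ {x ^ 2} ≤ IntermediateField.adjoin ℚ {x ^ n} := by
      rw [IntermediateField.adjoin_simple_le_iff]; exact h1
    rw [IntermediateField.adjoin_simple_le_iff]
    exact h3 hB

end Pool.Agent.H503.WN
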