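import Pool.Agent.Run7.h503.WN.Main
import Pool.Agent.Run7.h503.WN.ZF

set_option autoImplicit false

namespace Pool.Agent.H503.WN

open Polynomial Pool.Agent.R80.WF

/-- the binomial coefficients modulo 3 depend on the class modulo 9 only -/
theorem res_mod (g i : ℕ) (hi : i < 18) : res g i = res (g % 9) i := by
  unfold res
  by_cases h2 : 2 ∣ i
  · rw [if_pos h2, if_pos h2]
    congr 1
    haveI : Fact (Nat.Prime 3) := ⟨by norm_num⟩
    set j := i / 2 with hj
    have hj9 : j < 9 := by omega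
    have key : ∀ n : ℕ, n.choose j ≡ (n % 3).choose (j % 3) *
        ((n / 3 % 3).choose (j / 3 % 3) * 1) [MOD 3] := by
      intro n
      refine Choose.choose_modEq_choose_mod_mul_choose_div_nat.trans (Nat.ModEq.mul_left _ ?_)
      refine Choose.choose_modEq_choose_mod_mul_choose_div_nat.trans (Nat.ModEq.mul_left _ ?_)
      have : j / 3 / 3 = 0 := by omega
      rw [this, Nat.choose_zero_right]
    have h1 : g.choose j ≡ (g % 9).choose j [MOD 3] := by
      have e1 : g % 3 = (g % 9) % 3 := by omega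
      have e2 : g / 3 % 3 = (g % 9) / 3 % 3 := by omega
      have k1 := key g
      rw [e1, e2] at k1
      exact k1.trans (key (g % 9)).symm
    exact (ZMod.natCast_eq_natCast_iff _ _ _).2 h1
  · rw [if_neg h2, if_neg h2]

/-- balanced residue -/
def rb (g i : ℕ) : ℤ := if res g i = 0 then 0 else if res g i = 1 then 1 else -1

theorem rb_cast (g i : ℕ) : ((rb g i : ℤ) : ZMod 3) = res g i := by
  unfold rb
  generalize res g i = r
  revert r
  decide

theorem rb_abs (g i : ℕ) : |rb g i| ≤ 1 := by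
  unfold rb
  split_ifs <;> simp

theorem rb_odd (g i : ℕ) (h : ¬ 2 ∣ i) : rb g i = 0 := by
  unfold rb
  rw [if_pos]
  unfold res
  rw [if_neg h]

/-- the coefficient sequence with head `A` -/
def aa (A : List ℤ) (g f : ℕ) (k : ℤ) (i : ℕ) : ℤ :=
  if i < 13 then A.getD i 0 else
    -2 * rb g i + (if i = f then 3 else 0) + (if i = g then 6 * k else 0)

/-- the bound for the tail -/
theorem tail_sum (n : ℕ) (hn : 13 ≤ n) :
    ∑ i ∈ Finset.Ico 13 n, (if 2 ∣ i then 4 * (1 / 2 : ℝ) ^ (i / 2) else 0) =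
      1 / 16 - 8 * (1 / 2 : ℝ) ^ ((n + 1) / 2) := by
  induction n, hn using Nat.le_induction with
  | base => norm_num
  | succ n hn ih =>
    rw [Finset.sum_Ico_succ_top hn, ih]
    by_cases h2 : 2 ∣ n
    · obtain ⟨m, rfl⟩ := h2
      rw [if_pos (dvd_mul_right 2 m)]
      have e1 : (2 * m + 1) / 2 = m := by omega
      have e2 : (2 * m + 1 + 1) / 2 = m + 1 := by omega
      have e3 : 2 * m / 2 = m := by omega
      rw [e1, e2, e3, pow_succ]
      ring
    · rw [if_neg h2]
      have e1 : (n + 1 + 1) / 2 = (n + 1) / 2 := by omega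
      rw [e1]
      ring

theorem pow_le13 (z : ℂ) (hz : ‖z‖ ^ 2 ≤ 1 / 2) (n : ℕ) (hn : 13 ≤ n) :
    6 * ‖z‖ ^ n ≤ 0.0664 := by
  have h0 := norm_nonneg z
  have h1 := norm_le z hz
  have h2 : ‖z‖ ^ 13 ≤ (1 / 2) ^ 6 * (29 / 41) := by
    have e : ‖z‖ ^ 13 = (‖z‖ ^ 2) ^ 6 * ‖z‖ := by ring
    rw [e]
    exact mul_le_mul (pow_le_pow_left₀ (by positivity) hz 6) h1 h0 (by positivity)
  have h3 : ‖z‖ ^ n ≤ ‖z‖ ^ 13 := pow_le_pow_of_le_one h0 (by linarith) hn
  have h4 : (6 : ℝ) * ((1 / 2) ^ 6 * (29 / 41)) ≤ 0.0664 := by norm_num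
  linarith

/-- conditions on the head, for the class `c` of `g` modulo 9 and the `p`-rank `f` (`13` stands for
every larger value) -/
structure Head (A : List ℤ) (c f p : ℕ) : Prop where
  len : A.length = 13
  zero : A.getD 0 0 = 1
  res : ∀ i < 13, ((A.getD i 0 : ℤ) : ZMod 3) = res c i
  odd : f < 13 → ¬ (2 : ℤ) ∣ A.getD f 0
  even : ∀ i < 13, f < i → (2 : ℤ) ∣ A.getD i 0
  two : ∃ i < 13, ¬ 2 ∣ i ∧ A.getD i 0 ≠ 0
  three : ∃ i < 13, ¬ 3 ∣ i ∧ A.getD i 0 ≠ 0
  zf : ∀ z : ℂ, ‖z‖ ^ 2 ≤ 1 / 2 → (p : ℝ) / 100 < ‖ev z (smulL 2 A)‖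

theorem general {A : List ℤ} {g f p : ℕ} (hg : 13 ≤ g) (hfg : f ≤ g)
    (hH : Head A (g % 9) (min f 13) p) (hp : (if f < 13 then 13 else 20) ≤ p) : Good 2 g f := by
  have hlow : ∀ k i, i < 13 → aa A g f k i = A.getD i 0 := fun k i hi => if_pos hi
  have hhigh : ∀ k i, 13 ≤ i → aa A g f k i =
      -2 * rb g i + (if i = f then 3 else 0) + (if i = g then 6 * k else 0) :=
    fun k i hi => if_neg (by omega)
  have h3 : ∀ k : ℤ, ∀ i ≤ g, ((aa A g f k i : ℤ) : ZMod 3) = res g i := by
    intro k i _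
    by_cases hi : i < 13
    · rw [hlow k i hi, hH.res i hi, ← res_mod g i (by omega)]
    · rw [hhigh k i (by omega)]
      push_cast
      rw [rb_cast]
      have e3 : (3 : ZMod 3) = 0 := by decide
      have e6 : (6 : ZMod 3) = 0 := by decide
      have e2 : (-2 : ZMod 3) = 1 := by decide
      rw [e3, e6, e2]
      simp
  -- choice of k
  obtain ⟨k, hk1, hk⟩ : ∃ k : ℤ, |k| ≤ 1 ∧
      (∑ i ∈ Finset.range g, aa A g f k i * (1 + 2 ^ (g - i)) + aa A g f k g) % 9 = 6 := by
    have hS : ∀ k : ℤ, ∑ i ∈ Finset.range g, aa A g f k i * (1 + 2 ^ (g - i)) + aa A g f k g =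
        (∑ i ∈ Finset.range g, aa A g f 0 i * (1 + 2 ^ (g - i)) + aa A g f 0 g) + 6 * k := by
      intro k
      have h1 : ∑ i ∈ Finset.range g, aa A g f k i * (1 + 2 ^ (g - i)) =
          ∑ i ∈ Finset.range g, aa A g f 0 i * (1 + 2 ^ (g - i)) := by
        refine Finset.sum_congr rfl fun i hi => ?_
        have hi' := Finset.mem_range.1 hi
        have h2 : aa A g f k i = aa A g f 0 i := by
          by_cases hi : i < 13
          · rw [hlow k i hi, hlow 0 i hi]
          · rw [hhigh k i (by omega), hhigh 0 i (by omega), if_neg (by omega : ¬ i = g)]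
            rw [if_neg (by omega : ¬ i = g)]
        rw [h2]
      rw [h1, hhigh k g hg, hhigh 0 g hg, if_pos rfl, if_pos rfl]
      ring
    have hdiv : (∑ i ∈ Finset.range g, aa A g f 0 i * (1 + 2 ^ (g - i)) + aa A g f 0 g) % 3 = 0 := by
      rw [← eval_PP_one]
      have h1 := map_PP3 (h3 0)
      have h2 := congrArg (eval 1) h1
      rw [eval_one_map] at h2
      simp only [eval_pow, eval_sub, eval_X, one_pow, eval_one, sub_self] at h2
      rw [zero_pow (by omega)] at h2
      exact Int.emod_eq_zero_of_dvd ((ZMod.intCast_zmod_eq_zero_iff_dvd _ 3).1 h2)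
    set S := ∑ i ∈ Finset.range g, aa A g f 0 i * (1 + 2 ^ (g - i)) + aa A g f 0 g with hSdef
    have h9 : S % 9 = 6 ∨ S % 9 = 0 ∨ S % 9 = 3 := by omega
    rcases h9 with h | h | h
    · exact ⟨0, by norm_num, by rw [hS]; omega⟩
    · exact ⟨1, by norm_num, by rw [hS]; omega⟩
    · exact ⟨-1, by norm_num, by rw [hS]; omega⟩
  refine good_zero g f (aa A g f k) (by omega) hfg ?_ (h3 k) ?_ ?_ hk ?_ ?_ ?_
  · rw [hlow k 0 (by norm_num)]
    exact hH.zero
  · by_cases hf : f < 13
    · rw [hlow k f hf]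
      have := hH.odd (by omega)
      rwa [min_eq_left hf.le] at this
    · rw [hhigh k f (by omega), if_pos rfl]
      split_ifs <;> omega
  · intro i hfi hig
    by_cases hi : i < 13
    · rw [hlow k i hi]
      exact hH.even i hi (by rw [min_eq_left (by omega)]; exact hfi)
    · rw [hhigh k i (by omega), if_neg (by omega)]
      split_ifs <;> omega
  · obtain ⟨i, hi, h1, h2⟩ := hH.two
    exact ⟨i, by omega, h1, by rw [hlow k i hi]; exact h2⟩
  · obtain ⟨i, hi, h1, h2⟩ := hH.three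
    exact ⟨i, by omega, h1, by rw [hlow k i hi]; exact h2⟩
  · intro z hz h0
    have hzf := hH.zf z hz
    have hlen : (smulL 2 A).length = 13 := by rw [smulL, List.length_map, hH.len]
    have hhead : ev z (smulL 2 A) = ∑ i ∈ Finset.range 13, 2 * ((aa A g f k i : ℤ) : ℂ) * z ^ i := by
      rw [ev_smulL, ev_eq_sum, hH.len, Finset.mul_sum]
      refine Finset.sum_congr rfl fun i hi => ?_
      rw [hlow k i (Finset.mem_range.1 hi)]
      push_cast
      ring
    -- the tail
    set T : ℂ := ∑ i ∈ Finset.Ico 13 g, 2 * ((aa A g f k i : ℤ) : ℂ) * z ^ i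
      + ((aa A g f k g : ℤ) : ℂ) * z ^ g with hT
    have hsum : ev z (smulL 2 A) + T = 0 := by
      rw [hhead, hT, ← add_assoc, ← h0]
      congr 1
      rw [Finset.range_eq_Ico, Finset.range_eq_Ico]
      exact Finset.sum_Ico_consecutive _ (by norm_num) hg
    have hTn : ‖ev z (smulL 2 A)‖ = ‖T‖ := by
      have : ev z (smulL 2 A) = -T := by linear_combination hsum
      rw [this, norm_neg]
    rw [hTn] at hzf
    -- decompose
    have hw : ∀ i, ‖(rb g i : ℂ) * z ^ i‖ ≤ if 2 ∣ i then (1 / 2 : ℝ) ^ (i / 2) else 0 := by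
      intro i
      by_cases h2 : 2 ∣ i
      · rw [if_pos h2, norm_mul, norm_pow, Complex.norm_intCast]
        have h5 : (|(rb g i : ℝ)|) ≤ 1 := by exact_mod_cast rb_abs g i
        have h6 : ‖z‖ ^ i ≤ (1 / 2) ^ (i / 2) := by
          obtain ⟨m, rfl⟩ := h2
          rw [pow_mul, Nat.mul_div_cancel_left m (by norm_num)]
          exact pow_le_pow_left₀ (by positivity) hz m
        have h7 : 0 ≤ ‖z‖ ^ i := by positivity
        calc |(rb g i : ℝ)| * ‖z‖ ^ i ≤ 1 * ‖z‖ ^ i := mul_le_mul_of_nonneg_right h5 h7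
          _ ≤ _ := by rw [one_mul]; exact h6
      · rw [if_neg h2, rb_odd g i h2]
        simp
    have hTdec : T = ∑ i ∈ Finset.Ico 13 g, (-4 : ℂ) * ((rb g i : ℂ) * z ^ i)
        + (-2 : ℂ) * ((rb g g : ℂ) * z ^ g) + (if 13 ≤ f then (if f = g then 3 else 6) * z ^ f else 0)
        + 6 * k * z ^ g := by
      rw [hT, hhigh k g hg, if_pos rfl]
      have h1 : ∑ i ∈ Finset.Ico 13 g, 2 * ((aa A g f k i : ℤ) : ℂ) * z ^ i =
          ∑ i ∈ Finset.Ico 13 g, (-4 : ℂ) * ((rb g i : ℂ) * z ^ i) +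
          ∑ i ∈ Finset.Ico 13 g, (if i = f then 6 * z ^ f else 0) := by
        rw [← Finset.sum_add_distrib]
        refine Finset.sum_congr rfl fun i hi => ?_
        have hi' := Finset.mem_Ico.1 hi
        rw [hhigh k i hi'.1, if_neg (by omega : ¬ i = g)]
        by_cases hif : i = f
        · rw [if_pos hif, if_pos hif, hif]
          push_cast
          ring
        · rw [if_neg hif, if_neg hif]
          push_cast
          ring
      rw [h1, Finset.sum_ite_eq']
      by_cases h13 : 13 ≤ f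
      · rw [if_pos h13]
        by_cases hfg' : f = g
        · rw [if_neg (by rw [Finset.mem_Ico]; omega), if_pos hfg', if_pos hfg'.symm, hfg']
          push_cast
          ring
        · rw [if_pos (by rw [Finset.mem_Ico]; omega), if_neg hfg', if_neg (Ne.symm hfg')]
          push_cast
          ring
      · rw [if_neg h13, if_neg (by rw [Finset.mem_Ico]; omega), if_neg (by omega : ¬ g = f)]
        push_cast
        ring
    have hn1 : ‖∑ i ∈ Finset.Ico 13 g, (-4 : ℂ) * ((rb g i : ℂ) * z ^ i)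
        + (-2 : ℂ) * ((rb g g : ℂ) * z ^ g)‖ ≤ 1 / 16 := by
      have h1 : ‖∑ i ∈ Finset.Ico 13 g, (-4 : ℂ) * ((rb g i : ℂ) * z ^ i)
          + (-2 : ℂ) * ((rb g g : ℂ) * z ^ g)‖ ≤
          ∑ i ∈ Finset.Ico 13 (g + 1), (if 2 ∣ i then 4 * (1 / 2 : ℝ) ^ (i / 2) else 0) := by
        rw [Finset.sum_Ico_succ_top hg]
        refine (norm_add_le _ _).trans (add_le_add ((norm_sum_le _ _).trans
          (Finset.sum_le_sum fun i _ => ?_)) ?_)
        · rw [norm_mul]
          have h5 := hw i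
          have h6 : ‖(-4 : ℂ)‖ = 4 := by norm_num
          rw [h6]
          by_cases h2 : 2 ∣ i
          · rw [if_pos h2] at h5 ⊢
            linarith
          · rw [if_neg h2] at h5 ⊢
            linarith
        · rw [norm_mul]
          have h5 := hw g
          have h6 : ‖(-2 : ℂ)‖ = 2 := by norm_num
          rw [h6]
          by_cases h2 : 2 ∣ g
          · rw [if_pos h2] at h5 ⊢
            have : (0 : ℝ) ≤ (1 / 2) ^ (g / 2) := by positivity
            linarith
          · rw [if_neg h2] at h5 ⊢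
            linarith
      rw [tail_sum (g + 1) (by omega)] at h1
      have : (0 : ℝ) ≤ 8 * (1 / 2) ^ ((g + 1 + 1) / 2) := by positivity
      linarith
    have hn3 : ‖(6 : ℂ) * k * z ^ g‖ ≤ 0.0664 := by
      rw [norm_mul, norm_mul, norm_pow, Complex.norm_intCast]
      have h5 : (|(k : ℝ)|) ≤ 1 := by exact_mod_cast hk1
      have h6 : ‖(6 : ℂ)‖ = 6 := by norm_num
      rw [h6]
      have h7 := pow_le13 z hz g hg
      have h8 : 0 ≤ ‖z‖ ^ g := by positivity
      have h9 : |(k : ℝ)| * ‖z‖ ^ g ≤ 1 * ‖z‖ ^ g := mul_le_mul_of_nonneg_right h5 h8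
      nlinarith
    by_cases h13 : 13 ≤ f
    · rw [if_neg (by omega)] at hp
      have hn2 : ‖(if f = g then (3 : ℂ) else 6) * z ^ f‖ ≤ 0.0664 := by
        rw [norm_mul, norm_pow]
        have h7 := pow_le13 z hz f h13
        have h8 : 0 ≤ ‖z‖ ^ f := by positivity
        split_ifs
        · have h6 : ‖(3 : ℂ)‖ = 3 := by norm_num
          rw [h6]
          linarith
        · have h6 : ‖(6 : ℂ)‖ = 6 := by norm_num
          rw [h6]
          exact h7
      have hfin : ‖T‖ ≤ 1 / 16 + 0.0664 + 0.0664 := by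
        rw [hTdec, if_pos h13]
        exact (norm_add_le _ _).trans (add_le_add ((norm_add_le _ _).trans
          (add_le_add hn1 hn2)) hn3)
      have hp' : (20 : ℝ) ≤ p := by exact_mod_cast hp
      have : (20 : ℝ) / 100 ≤ p / 100 := by linarith
      linarith
    · rw [if_pos (by omega)] at hp
      have hfin : ‖T‖ ≤ 1 / 16 + 0.0664 := by
        rw [hTdec, if_neg h13, add_zero]
        exact (norm_add_le _ _).trans (add_le_add hn1 hn3)
      have hp' : (13 : ℝ) ≤ p := by exact_mod_cast hp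
      have : (13 : ℝ) / 100 ≤ p / 100 := by linarith
      linarith

end Pool.Agent.H503.WN
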