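import Pool.Agent.Run7.h503.WN.General

set_option autoImplicit false

namespace Pool.Agent.H503.WN

open Polynomial Pool.Agent.R80.WF

def hd0 : List ℤ × ℕ × ℕ × List ℤ := ([1, 0, 3, 0, 6, 0, 12, 0, 18, -6, 24, -12, 18], 29, 32, [16, 0, -48, 0, 48, 0, -48, 0, 144, 96, -240, -384, 432, 288, -1008, 576, 1008, -288, 144, -1152, -144, 288, -3312, -1728, 14256, -2592, -24624, 44928, -1296, -69984, 28944, -5184, 34992, 25056, -138672, 103680, 454896, -474336, -879984, 1622592, -597456, -1775520, 2836944])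
def hd1 : List ℤ × ℕ × ℕ × List ℤ := ([1, 0, -1, 0, 0, 0, 0, 0, 0, -6, 0, 6, 0], 12, 32, [16, 0, 16, 0, 16, 0, 16, 0, 16])
def hd2 : List ℤ × ℕ × ℕ × List ℤ := ([1, 0, 1, 0, -2, 0, -6, 0, 0, 0, 12, -6, 12], 14, 32, [16, 0, -16, 0, 48, 0, 16, 0, -16, 0, 144, 96, -80])
def hd3 : List ℤ × ℕ × ℕ × List ℤ := ([1, 0, 3, 0, 6, 0, 8, 0, 6, 0, 0, -6, 0], 23, 32, [16, 0, -48, 0, 48, 0, 16, 0, -48, 0, -48, 96, 16, -576, 528, 1440, -1008, -1536, 16, -288, 1680, 1728, 336, 288, -8624, 3456, 18960, -30240, -27120, 57408, 32848])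
def hd4 : List ℤ × ℕ × ℕ × List ℤ := ([1, 0, -1, 0, 0, 0, 2, 0, -2, 0, 0, -6, 0], 12, 32, [16, 0, 16, 0, 16, 0, -16, 0, -16])
def hd5 : List ℤ × ℕ × ℕ × List ℤ := ([1, 0, 1, 0, -2, 0, -4, 0, 2, 0, 8, 6, 6], 12, 32, [16, 0, -16, 0, 48, 0, -16, 0, 16])
def hd6 : List ℤ × ℕ × ℕ × List ℤ := ([1, 0, -3, 0, 6, 0, -8, 0, 6, 0, 0, -6, -2], 18, 32, [16, 0, 48, 0, 48, 0, -16, 0, -48, 0, 48, 96, 48, 576, -336, 1440, -528, 1536, 496, -288, 1584])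
def hd7 : List ℤ × ℕ × ℕ × List ℤ := ([1, 0, -1, 0, 0, 0, -2, 0, 2, -6, 0, 6, 4], 12, 32, [16, 0, 16, 0, 16, 0, 48, 0, 48])
def hd8 : List ℤ × ℕ × ℕ × List ℤ := ([1, 0, 1, 0, -2, 0, -2, 0, 4, 0, 4, 6, -2], 12, 32, [16, 0, -16, 0, 48, 0, -48, 0, 48])
def hd9 : List ℤ × ℕ × ℕ × List ℤ := ([1, 0, 0, -3, 0, 0, 6, 0, 0, -6, 0, -6, 0], 11, 32, [16, 0, 0, 48, 0, 0, 48])
def hd10 : List ℤ × ℕ × ℕ × List ℤ := ([1, 0, -1, 3, 0, 0, 6, -6, 0, 12, -6, -6, 0], 23, 32, [16, 0, 16, -48, 16, -96, 64, -48, 256, -48, 112, -240, -32, -288, -176, 384, 112, 48, -464, 1152, 1984, -1200, 1984, -6576, 1264, -22320, 18400, -480, 49936, -24000, 37552])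
def hd11 : List ℤ × ℕ × ℕ × List ℤ := ([1, 0, -2, 3, 4, -6, 0, 12, 0, -6, 6, 12, 6], 23, 32, [16, 0, 32, -48, 0, -96, 16, 0, 32, 48, -96, 96, 112, 192, 416, -336, 864, -288, 1072, -1920, -4384, -4752, -5088, 6816, 6064, 9792, 1184, -3984, 26976, 20832, 52528])
def hd12 : List ℤ × ℕ × ℕ × List ℤ := ([1, 0, 0, -3, 0, 0, 8, 0, 0, -12, 0, 6, 12], 14, 32, [16, 0, 0, 48, 0, 0, 16, 0, 0, -144, 0, -96, -176])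
def hd13 : List ℤ × ℕ × ℕ × List ℤ := ([1, 0, -1, 3, 0, -6, 2, 0, -8, 0, 0, 0, 0], 26, 32, [16, 0, 16, -48, 16, 0, 128, 48, -64, -144, -112, 432, 480, 288, -528, -1152, 912, 1296, 4240, -1728, -1664, -4368, 5248, 14256, 6800, 2352, -24928, 8352, 29744, 60480, 47184, -68976, 20112, -29952, 331008, 138672, 150592])
def hd14 : List ℤ × ℕ × ℕ × List ℤ := ([1, 0, -2, -3, 4, 6, -4, -12, 2, 18, 8, -12, -12], 26, 32, [16, 0, 32, 48, 0, 96, 80, 0, 256, 144, 0, 480, -48, -384, 576, -816, -960, 1056, -2480, -2112, 896, -6960, -2688, 4320, -7600, 8832, 19264, -4272, 32448, 42144, 11856, 108096, 115200, 71376, 215808, 94560, -37808])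
def hd15 : List ℤ × ℕ × ℕ × List ℤ := ([1, 0, 0, -3, 0, 0, 4, 0, 0, 0, 0, 6, -8], 14, 32, [16, 0, 0, 48, 0, 0, 80, 0, 0, 48, 0, -96, -48])
def hd16 : List ℤ × ℕ × ℕ × List ℤ := ([1, 0, -1, -3, 0, 0, 4, 6, 8, -12, -12, -6, 16], 26, 32, [16, 0, 16, 48, 16, 96, 96, 48, 192, 240, 48, 240, 192, -288, 464, -576, -1520, -432, -1904, -3072, -3040, -5328, -6912, 432, -6672, -10896, 6144, 5280, 19408, 28224, 26256, 50640, 144016, 127488, 39840, 183984, 171136])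
def hd17 : List ℤ × ℕ × ℕ × List ℤ := ([1, 0, -2, -3, 4, 6, -2, -12, -2, 12, 10, -6, -8], 16, 32, [16, 0, 32, 48, 0, 96, 48, 0, 192, 48, 96, 384, 48, 192, 448, -336, 224])
def hd18 : List ℤ × ℕ × ℕ × List ℤ := ([1, 0, 0, 0, 3, 0, 0, 0, 6, 0, 0, -6, 6], 12, 32, [16, 0, 0, 0, -48, 0, 0, 0, 48])
def hd19 : List ℤ × ℕ × ℕ × List ℤ := ([1, 0, -1, 0, 3, 0, -6, 0, 6, 0, -12, -6, 12], 12, 32, [16, 0, 16, 0, -32, 0, 16, 0, 112])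
def hd20 : List ℤ × ℕ × ℕ × List ℤ := ([1, 0, 1, 0, 1, 0, 0, 0, 0, 0, 0, 6, 0], 12, 32, [16, 0, -16, 0, 0, 0, 16, 0, -16])
def hd21 : List ℤ × ℕ × ℕ × List ℤ := ([1, 0, 0, 0, -3, 0, 2, 0, 6, 0, -6, -6, -6], 12, 32, [16, 0, 0, 0, 48, 0, -32, 0, 48])
def hd22 : List ℤ × ℕ × ℕ × List ℤ := ([1, 0, -1, 0, 3, 0, -4, 0, 4, 0, -6, 6, 0], 12, 32, [16, 0, 16, 0, -32, 0, -16, 0, 80])
def hd23 : List ℤ × ℕ × ℕ × List ℤ := ([1, 0, 1, 0, 1, 0, 2, 0, 2, 0, 2, -6, 0], 12, 32, [16, 0, -16, 0, 0, 0, -16, 0, 16])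
def hd24 : List ℤ × ℕ × ℕ × List ℤ := ([1, 0, 0, 0, -3, 0, -2, 0, 6, 0, 6, 6, -8], 12, 32, [16, 0, 0, 0, 48, 0, 32, 0, 48])
def hd25 : List ℤ × ℕ × ℕ × List ℤ := ([1, 0, 2, 0, 3, 0, 4, 0, 8, 0, 12, 6, 10], 14, 32, [16, 0, -32, 0, 16, 0, 0, 0, -48, 0, 96, -96, 48])
def hd26 : List ℤ × ℕ × ℕ × List ℤ := ([1, 0, 1, 0, 1, 0, -2, 0, -2, 0, -2, 6, 4], 12, 32, [16, 0, -16, 0, 0, 0, 48, 0, -48])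
def hd27 : List ℤ × ℕ × ℕ × List ℤ := ([1, 0, 0, 0, 0, 3, 0, 0, 0, 0, 6, 0, 0], 10, 32, [16, 0, 0, 0, 0, -48])
def hd28 : List ℤ × ℕ × ℕ × List ℤ := ([1, 0, -1, 0, 0, 3, 0, -6, 0, 0, 6, 0, -12], 14, 32, [16, 0, 16, 0, 16, -48, 16, 0, 16, 48, 64, 96, -128])
def hd29 : List ℤ × ℕ × ℕ × List ℤ := ([1, 0, 1, 0, 1, 3, 0, 6, 0, 6, 0, 0, 6], 14, 32, [16, 0, -16, 0, 0, -48, 16, 0, -16, 48, 144, 0, 64])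
def hd30 : List ℤ × ℕ × ℕ × List ℤ := ([1, 0, 0, 0, 0, 3, 2, 0, 0, 0, 6, 6, 0], 11, 32, [16, 0, 0, 0, 0, -48, -32])
def hd31 : List ℤ × ℕ × ℕ × List ℤ := ([1, 0, -1, 0, 0, 3, 2, -6, -2, 0, 6, 6, -12], 14, 32, [16, 0, 16, 0, 16, -48, -16, 0, -16, 48, 32, 192, -96])
def hd32 : List ℤ × ℕ × ℕ × List ℤ := ([1, 0, 1, 0, 1, 3, 2, 6, 2, 0, 8, 0, 18], 16, 32, [16, 0, -16, 0, 0, -48, -16, 0, 16, 144, 48, 0, 96, 0, -288, -144, -672])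
def hd33 : List ℤ × ℕ × ℕ × List ℤ := ([1, 0, 0, 0, 0, 3, -2, 0, 0, 0, 6, -6, 4], 11, 32, [16, 0, 0, 0, 0, -48, 32])
def hd34 : List ℤ × ℕ × ℕ × List ℤ := ([1, 0, 2, 0, 3, -3, 4, -6, 2, -6, 6, -6, 10], 14, 32, [16, 0, -32, 0, 16, 48, 0, -96, 48, 0, -48, 96, -48])
def hd35 : List ℤ × ℕ × ℕ × List ℤ := ([1, 0, 1, 0, 1, -3, -2, 0, -2, 0, 4, 6, -2], 16, 32, [16, 0, -16, 0, 0, 48, 48, -96, -48, 48, 48, 192, -96, -384, 160, 48, 32])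
def hd36 : List ℤ × ℕ × ℕ × List ℤ := ([1, 0, 0, 0, 0, 0, -3, 0, 0, 0, 0, -6, 6], 11, 32, [16, 0, 0, 0, 0, 0, 48])
def hd37 : List ℤ × ℕ × ℕ × List ℤ := ([1, 0, -1, 0, 3, 0, -3, 0, 6, 0, -6, -6, 6], 12, 32, [16, 0, 16, 0, -32, 0, -32, 0, 16])
def hd38 : List ℤ × ℕ × ℕ × List ℤ := ([1, 0, 1, 0, 1, 0, 3, 0, 6, 0, 6, -6, 6], 12, 32, [16, 0, -16, 0, 0, 0, -32, 0, -16])
def hd39 : List ℤ × ℕ × ℕ × List ℤ := ([1, 0, 0, 0, 0, 0, -1, 0, 0, 0, 0, 6, 0], 11, 32, [16, 0, 0, 0, 0, 0, 16])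
def hd40 : List ℤ × ℕ × ℕ × List ℤ := ([1, 0, -1, 0, 0, 0, -1, 0, 4, 0, -6, -6, 6], 12, 32, [16, 0, 16, 0, 16, 0, 32, 0, -16])
def hd41 : List ℤ × ℕ × ℕ × List ℤ := ([1, 0, 1, 0, 1, 0, -1, 0, -4, 0, -4, 6, -6], 12, 32, [16, 0, -16, 0, 0, 0, 32, 0, 16])
def hd42 : List ℤ × ℕ × ℕ × List ℤ := ([1, 0, 0, 0, 0, 0, 1, 0, 0, 0, 0, 6, 4], 11, 32, [16, 0, 0, 0, 0, 0, -16])
def hd43 : List ℤ × ℕ × ℕ × List ℤ := ([1, 0, -1, 0, 0, 0, 1, 0, 2, 0, -6, 6, 4], 12, 32, [16, 0, 16, 0, 16, 0, 0, 0, -48])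
def hd44 : List ℤ × ℕ × ℕ × List ℤ := ([1, 0, 1, 0, 1, 0, 1, 0, -2, 0, -2, 6, -2], 12, 32, [16, 0, -16, 0, 0, 0, 0, 0, 48])
def hd45 : List ℤ × ℕ × ℕ × List ℤ := ([1, 0, 0, 0, 0, 0, 0, 3, 0, 0, 0, 0, 0], 11, 32, [16, 0, 0, 0, 0, 0, 0, -48])
def hd46 : List ℤ × ℕ × ℕ × List ℤ := ([1, 0, -1, 0, 0, 0, 0, -3, 0, 6, 0, 0, 0], 12, 32, [16, 0, 16, 0, 16, 0, 16, 48, 16])
def hd47 : List ℤ × ℕ × ℕ × List ℤ := ([1, 0, 1, 0, 1, 0, 0, 3, 0, 6, 0, 6, 0], 12, 32, [16, 0, -16, 0, 0, 0, 16, -48, -16])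
def hd48 : List ℤ × ℕ × ℕ × List ℤ := ([1, 0, 0, 0, 0, 0, -1, -3, 0, 0, 0, 0, 0], 11, 32, [16, 0, 0, 0, 0, 0, 16, 48])
def hd49 : List ℤ × ℕ × ℕ × List ℤ := ([1, 0, -1, 0, 0, 0, 2, 3, -2, -6, 0, 6, 0], 12, 32, [16, 0, 16, 0, 16, 0, -16, -48, -16])
def hd50 : List ℤ × ℕ × ℕ × List ℤ := ([1, 0, 1, 0, 1, 0, 2, -3, 2, -6, 2, 0, 0], 12, 32, [16, 0, -16, 0, 0, 0, -16, 48, 16])
def hd51 : List ℤ × ℕ × ℕ × List ℤ := ([1, 0, 0, 0, 0, 0, 1, 3, 0, 0, 0, 0, 4], 11, 32, [16, 0, 0, 0, 0, 0, -16, -48])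
def hd52 : List ℤ × ℕ × ℕ × List ℤ := ([1, 0, -1, 0, 0, 0, 1, -3, -4, 6, 6, 0, -2], 12, 32, [16, 0, 16, 0, 16, 0, 0, 48, 48])
def hd53 : List ℤ × ℕ × ℕ × List ℤ := ([1, 0, 1, 0, 1, 0, 1, -3, -2, 0, -2, 0, -2], 12, 32, [16, 0, -16, 0, 0, 0, 0, 48, 48])
def hd54 : List ℤ × ℕ × ℕ × List ℤ := ([1, 0, 0, 0, 0, 0, 0, 0, -3, 0, 0, 6, 0], 12, 32, [16, 0, 0, 0, 0, 0, 0, 0, 48])
def hd55 : List ℤ × ℕ × ℕ × List ℤ := ([1, 0, -1, 0, 0, 0, 0, 0, 3, 0, -6, 6, 6], 12, 32, [16, 0, 16, 0, 16, 0, 16, 0, -32])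
def hd56 : List ℤ × ℕ × ℕ × List ℤ := ([1, 0, 1, 0, 1, 0, 0, 0, -3, 0, -6, 6, -6], 12, 32, [16, 0, -16, 0, 0, 0, 16, 0, 32])
def hd57 : List ℤ × ℕ × ℕ × List ℤ := ([1, 0, 0, 0, 0, 0, -1, 0, 3, 0, 0, -6, 0], 12, 32, [16, 0, 0, 0, 0, 0, 16, 0, -48])
def hd58 : List ℤ × ℕ × ℕ × List ℤ := ([1, 0, -1, 0, 0, 0, 2, 0, -5, 0, 6, 6, 0], 12, 32, [16, 0, 16, 0, 16, 0, -16, 0, 32])
def hd59 : List ℤ × ℕ × ℕ × List ℤ := ([1, 0, 1, 0, 1, 0, 2, 0, 5, 0, 8, 6, 6], 12, 32, [16, 0, -16, 0, 0, 0, -16, 0, -32])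
def hd60 : List ℤ × ℕ × ℕ × List ℤ := ([1, 0, 0, 0, 0, 0, 1, 0, 3, 0, 0, 6, -2], 12, 32, [16, 0, 0, 0, 0, 0, -16, 0, -48])
def hd61 : List ℤ × ℕ × ℕ × List ℤ := ([1, 0, -1, 0, 0, 0, 1, 0, -1, 0, 0, -6, -2], 10, 32, [16, 0, 16, 0, 16])
def hd62 : List ℤ × ℕ × ℕ × List ℤ := ([1, 0, 1, 0, 1, 0, 1, 0, 1, 0, -2, 6, -2], 9, 32, [16, 0, -16])
def hd63 : List ℤ × ℕ × ℕ × List ℤ := ([1, 0, 0, 0, 0, 0, 0, 0, 0, -3, 0, 6, 0], 8, 32, [16])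
def hd64 : List ℤ × ℕ × ℕ × List ℤ := ([1, 0, -1, 0, 0, 0, 0, 0, 0, 3, 0, -6, 0], 12, 32, [16, 0, 16, 0, 16, 0, 16, 0, 16])
def hd65 : List ℤ × ℕ × ℕ × List ℤ := ([1, 0, 1, 0, 1, 0, 0, 0, 0, -3, 0, -6, 0], 12, 32, [16, 0, -16, 0, 0, 0, 16, 0, -16])
def hd66 : List ℤ × ℕ × ℕ × List ℤ := ([1, 0, 0, 0, 0, 0, -1, 0, 0, 3, 0, -6, 0], 11, 32, [16, 0, 0, 0, 0, 0, 16])
def hd67 : List ℤ × ℕ × ℕ × List ℤ := ([1, 0, -1, 0, 0, 0, 2, 0, -2, 3, 0, -6, 0], 12, 32, [16, 0, 16, 0, 16, 0, -16, 0, -16])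
def hd68 : List ℤ × ℕ × ℕ × List ℤ := ([1, 0, 1, 0, 1, 0, 2, 0, 2, 3, 2, 6, 0], 12, 32, [16, 0, -16, 0, 0, 0, -16, 0, 16])
def hd69 : List ℤ × ℕ × ℕ × List ℤ := ([1, 0, 0, 0, 0, 0, 1, 0, 0, 3, 0, -6, -2], 11, 32, [16, 0, 0, 0, 0, 0, -16])
def hd70 : List ℤ × ℕ × ℕ × List ℤ := ([1, 0, -1, 0, 0, 0, 1, 0, -1, -3, 0, 6, -2], 10, 32, [16, 0, 16, 0, 16])
def hd71 : List ℤ × ℕ × ℕ × List ℤ := ([1, 0, 1, 0, 1, 0, 1, 0, 1, 3, -2, 0, -2], 9, 32, [16, 0, -16])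
def hd72 : List ℤ × ℕ × ℕ × List ℤ := ([1, 0, 0, 0, 0, 0, 0, 0, 0, -3, -3, 0, 0], 8, 32, [16])
def hd73 : List ℤ × ℕ × ℕ × List ℤ := ([1, 0, -1, 0, 0, 0, 0, 0, 0, -3, 3, 6, -6], 12, 32, [16, 0, 16, 0, 16, 0, 16, 0, 16])
def hd74 : List ℤ × ℕ × ℕ × List ℤ := ([1, 0, 1, 0, 1, 0, 0, 0, 0, -3, -3, -6, 0], 12, 32, [16, 0, -16, 0, 0, 0, 16, 0, -16])
def hd75 : List ℤ × ℕ × ℕ × List ℤ := ([1, 0, 0, 0, 0, 0, -1, 0, 0, 0, 3, 6, 0], 11, 32, [16, 0, 0, 0, 0, 0, 16])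
def hd76 : List ℤ × ℕ × ℕ × List ℤ := ([1, 0, -1, 0, 0, 0, -1, 0, 4, -3, -3, 6, 0], 12, 32, [16, 0, 16, 0, 16, 0, 32, 0, -16])
def hd77 : List ℤ × ℕ × ℕ × List ℤ := ([1, 0, 1, 0, 1, 0, 2, 0, 2, 3, 5, 6, 6], 12, 32, [16, 0, -16, 0, 0, 0, -16, 0, 16])
def hd78 : List ℤ × ℕ × ℕ × List ℤ := ([1, 0, 0, 0, 0, 0, 1, 0, 0, -3, 3, 0, -2], 11, 32, [16, 0, 0, 0, 0, 0, -16])
def hd79 : List ℤ × ℕ × ℕ × List ℤ := ([1, 0, -1, 0, 0, 0, 1, 0, -1, -3, -3, 6, 4], 10, 32, [16, 0, 16, 0, 16])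
def hd80 : List ℤ × ℕ × ℕ × List ℤ := ([1, 0, 1, 0, 1, 0, 1, 0, 1, 3, 1, 6, -2], 9, 32, [16, 0, -16])
def hd81 : List ℤ × ℕ × ℕ × List ℤ := ([1, 0, 0, 0, 0, 0, 0, 0, 0, 0, 0, 3, 0], 8, 32, [16])
def hd82 : List ℤ × ℕ × ℕ × List ℤ := ([1, 0, -1, 0, 0, 0, 0, 0, 0, -3, 0, 3, 0], 12, 32, [16, 0, 16, 0, 16, 0, 16, 0, 16])
def hd83 : List ℤ × ℕ × ℕ × List ℤ := ([1, 0, 1, 0, 1, 0, 0, 0, 0, 0, 0, 3, 0], 12, 32, [16, 0, -16, 0, 0, 0, 16, 0, -16])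
def hd84 : List ℤ × ℕ × ℕ × List ℤ := ([1, 0, 0, 0, 0, 0, -1, 0, 0, 0, 0, -3, 0], 11, 32, [16, 0, 0, 0, 0, 0, 16])
def hd85 : List ℤ × ℕ × ℕ × List ℤ := ([1, 0, -1, 0, 0, 0, 2, 0, -2, 0, 0, 3, 0], 12, 32, [16, 0, 16, 0, 16, 0, -16, 0, -16])
def hd86 : List ℤ × ℕ × ℕ × List ℤ := ([1, 0, 1, 0, 1, 0, 2, 0, 2, 0, 2, 3, 0], 12, 32, [16, 0, -16, 0, 0, 0, -16, 0, 16])
def hd87 : List ℤ × ℕ × ℕ × List ℤ := ([1, 0, 0, 0, 0, 0, 1, 0, 0, 0, 0, 3, 4], 11, 32, [16, 0, 0, 0, 0, 0, -16])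
def hd88 : List ℤ × ℕ × ℕ × List ℤ := ([1, 0, -1, 0, 0, 0, 1, 0, -1, 0, 0, 3, -2], 10, 32, [16, 0, 16, 0, 16])
def hd89 : List ℤ × ℕ × ℕ × List ℤ := ([1, 0, 1, 0, 1, 0, 1, 0, 1, 0, 1, 3, -2], 9, 32, [16, 0, -16])
def hd90 : List ℤ × ℕ × ℕ × List ℤ := ([1, 0, 0, 0, 0, 0, 0, 0, 0, 0, 0, 3, 3], 8, 32, [16])
def hd91 : List ℤ × ℕ × ℕ × List ℤ := ([1, 0, -1, 0, 0, 0, 0, 0, 0, 0, 3, 3, -3], 12, 32, [16, 0, 16, 0, 16, 0, 16, 0, 16])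
def hd92 : List ℤ × ℕ × ℕ × List ℤ := ([1, 0, 1, 0, 1, 0, 0, 0, 0, 0, 0, 3, 3], 12, 32, [16, 0, -16, 0, 0, 0, 16, 0, -16])
def hd93 : List ℤ × ℕ × ℕ × List ℤ := ([1, 0, 0, 0, 0, 0, -1, 0, 0, 0, 0, 3, 3], 11, 32, [16, 0, 0, 0, 0, 0, 16])
def hd94 : List ℤ × ℕ × ℕ × List ℤ := ([1, 0, -1, 0, 0, 0, 2, 0, -2, 0, 0, 3, 3], 12, 32, [16, 0, 16, 0, 16, 0, -16, 0, -16])
def hd95 : List ℤ × ℕ × ℕ × List ℤ := ([1, 0, 1, 0, 1, 0, 2, 0, 2, 0, 2, 3, 3], 12, 32, [16, 0, -16, 0, 0, 0, -16, 0, 16])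
def hd96 : List ℤ × ℕ × ℕ × List ℤ := ([1, 0, 0, 0, 0, 0, 1, 0, 0, 0, 0, 3, 1], 11, 32, [16, 0, 0, 0, 0, 0, -16])
def hd97 : List ℤ × ℕ × ℕ × List ℤ := ([1, 0, -1, 0, 0, 0, 1, 0, -1, 0, 0, 3, 1], 10, 32, [16, 0, 16, 0, 16])
def hd98 : List ℤ × ℕ × ℕ × List ℤ := ([1, 0, 1, 0, 1, 0, 1, 0, 1, 0, 1, 3, 1], 9, 32, [16, 0, -16])
def hd99 : List ℤ × ℕ × ℕ × List ℤ := ([1, 0, 0, 0, 0, 0, 0, 0, 0, 0, 0, 3, 0], 8, 32, [16])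
def hd100 : List ℤ × ℕ × ℕ × List ℤ := ([1, 0, -1, 0, 0, 0, 0, 0, 0, 3, 0, -3, 0], 12, 32, [16, 0, 16, 0, 16, 0, 16, 0, 16])
def hd101 : List ℤ × ℕ × ℕ × List ℤ := ([1, 0, 1, 0, 1, 0, 0, 0, 0, 0, 0, 3, 0], 12, 32, [16, 0, -16, 0, 0, 0, 16, 0, -16])
def hd102 : List ℤ × ℕ × ℕ × List ℤ := ([1, 0, 0, 0, 0, 0, -1, 0, 0, 0, 0, -3, 0], 11, 32, [16, 0, 0, 0, 0, 0, 16])
def hd103 : List ℤ × ℕ × ℕ × List ℤ := ([1, 0, -1, 0, 0, 0, 2, 0, -2, 0, 0, -3, 3], 12, 32, [16, 0, 16, 0, 16, 0, -16, 0, -16])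
def hd104 : List ℤ × ℕ × ℕ × List ℤ := ([1, 0, 1, 0, 1, 0, 2, 0, 2, 0, 2, 3, 3], 12, 32, [16, 0, -16, 0, 0, 0, -16, 0, 16])
def hd105 : List ℤ × ℕ × ℕ × List ℤ := ([1, 0, 0, 0, 0, 0, 1, 0, 0, 0, 0, -3, 1], 11, 32, [16, 0, 0, 0, 0, 0, -16])
def hd106 : List ℤ × ℕ × ℕ × List ℤ := ([1, 0, -1, 0, 0, 0, 1, 0, -1, 0, 0, 3, 1], 10, 32, [16, 0, 16, 0, 16])
def hd107 : List ℤ × ℕ × ℕ × List ℤ := ([1, 0, 1, 0, 1, 0, 1, 0, 1, 0, 1, 3, 1], 9, 32, [16, 0, -16])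

/-- heads, scales and approximate inverses; entry `9 * (f - 2) + c` -/
def heads : List (List ℤ × ℕ × ℕ × List ℤ) :=
  [hd0, hd1, hd2, hd3, hd4, hd5, hd6, hd7, hd8, hd9, hd10, hd11, hd12, hd13, hd14, hd15, hd16, hd17, hd18, hd19, hd20, hd21, hd22, hd23, hd24, hd25, hd26, hd27, hd28, hd29, hd30, hd31, hd32, hd33, hd34, hd35, hd36, hd37, hd38, hd39, hd40, hd41, hd42, hd43, hd44, hd45, hd46, hd47, hd48, hd49, hd50, hd51, hd52, hd53, hd54, hd55, hd56, hd57, hd58, hd59, hd60, hd61, hd62, hd63, hd64, hd65, hd66, hd67, hd68, hd69, hd70, hd71, hd72, hd73, hd74, hd75, hd76, hd77, hd78, hd79, hd80, hd81, hd82, hd83, hd84, hd85, hd86, hd87, hd88, hd89, hd90, hd91, hd92, hd93, hd94, hd95, hd96, hd97, hd98, hd99, hd100, hd101, hd102, hd103, hd104, hd105, hd106, hd107]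

/-- the finite check -/
def HC (e : List ℤ × ℕ × ℕ × List ℤ) (c f : ℕ) : Prop :=
  e.1.length = 13 ∧ e.1.getD 0 0 = 1 ∧ (∀ i < 13, ((e.1.getD i 0 : ℤ) : ZMod 3) = res c i) ∧
  (f < 13 → ¬ (2 : ℤ) ∣ e.1.getD f 0) ∧ (∀ i < 13, f < i → (2 : ℤ) ∣ e.1.getD i 0) ∧
  (∃ i < 13, ¬ 2 ∣ i ∧ e.1.getD i 0 ≠ 0) ∧ (∃ i < 13, ¬ 3 ∣ i ∧ e.1.getD i 0 ≠ 0) ∧
  chk e.2.1 e.2.2.1 (if f < 13 then 13 else 20) 100 (smulL 2 e.1) e.2.2.2 = true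

instance (e : List ℤ × ℕ × ℕ × List ℤ) (c f : ℕ) : Decidable (HC e c f) := by
  unfold HC
  infer_instance

theorem heads_ok : ∀ i < 108, HC (heads.getD i ([], 0, 0, [])) (i % 9) (i / 9 + 2) := by
  decide +kernel

theorem head_of (c f : ℕ) (hc : c < 9) (hf : 2 ≤ f) (hf' : f ≤ 13) :
    ∃ A : List ℤ, Head A c f (if f < 13 then 13 else 20) := by
  have h := heads_ok (9 * (f - 2) + c) (by omega)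
  have e1 : (9 * (f - 2) + c) % 9 = c := by omega
  have e2 : (9 * (f - 2) + c) / 9 + 2 = f := by omega
  rw [e1, e2] at h
  obtain ⟨h1, h2, h3, h4, h5, h6, h7, h8⟩ := h
  refine ⟨_, h1, h2, h3, h4, h5, h6, h7, fun z hz => ?_⟩
  have := chk_spec (by norm_num) h8 z hz
  push_cast at this ⊢
  exact this

/-- every `g ≥ 13` -/
theorem large (g f : ℕ) (hg : 13 ≤ g) (hf : 2 ≤ f) (hfg : f ≤ g) : Good 2 g f := by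
  obtain ⟨A, hA⟩ := head_of (g % 9) (min f 13) (Nat.mod_lt _ (by norm_num))
    (le_min hf (by norm_num)) (min_le_right _ _)
  refine general hg hfg hA ?_
  by_cases h : f < 13
  · rw [if_pos h, if_pos (by omega)]
  · rw [if_neg h, if_neg (by omega)]

end Pool.Agent.H503.WN
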