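import Mathlib

set_option autoImplicit false

namespace Pool.Agent.H503.WN

open Polynomial

/-- the functional equation between the values at `2` and at `1` -/
theorem two_one (A : ℤ[X]) (hA : A.Monic) (h : ∀ x : ℂ, aeval x A = 0 → ‖x‖ ^ 2 = 2) :
    (A.eval 2) ^ 2 = 2 ^ A.natDegree * (A.eval 1) ^ 2 := by
  set B : ℂ[X] := A.map (algebraMap ℤ ℂ) with hB
  have hBm : B.Monic := hA.map _
  have hs : B.Splits := IsAlgClosed.splits B
  have key : ∀ c : ℤ, ((A.eval c : ℤ) : ℂ) = (B.roots.map fun a => (c : ℂ) - a).prod := by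
    intro c
    rw [← hs.eval_eq_prod_roots_of_monic hBm, hB, eval_intCast_map]
    rfl
  have hn : ∀ x ∈ B.roots, ‖(2 : ℂ) - x‖ ^ 2 = 2 * ‖(1 : ℂ) - x‖ ^ 2 := by
    intro x hx
    have hx1 : aeval x A = 0 := by
      have := (mem_roots hBm.ne_zero).1 hx
      rw [IsRoot.def, hB, eval_map_algebraMap] at this
      exact this
    have h1 := h x hx1
    rw [← Complex.normSq_eq_norm_sq, Complex.normSq_apply] at h1
    rw [← Complex.normSq_eq_norm_sq, ← Complex.normSq_eq_norm_sq, Complex.normSq_apply,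
      Complex.normSq_apply]
    simp only [Complex.sub_re, Complex.sub_im, Complex.re_ofNat, Complex.im_ofNat,
      Complex.one_re, Complex.one_im]
    linear_combination (-1 : ℝ) * h1
  have hcard : B.roots.card = A.natDegree := by
    rw [splits_iff_card_roots.1 hs, hB, hA.natDegree_map]
  have hprod : ∀ S : Multiset ℂ, (∀ x ∈ S, ‖(2 : ℂ) - x‖ ^ 2 = 2 * ‖(1 : ℂ) - x‖ ^ 2) →
      ‖(S.map fun a => (2 : ℂ) - a).prod‖ ^ 2 =
        2 ^ S.card * ‖(S.map fun a => (1 : ℂ) - a).prod‖ ^ 2 := by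
    intro S
    induction S using Multiset.induction_on with
    | empty => simp
    | cons a S ih =>
      intro hS
      rw [Multiset.map_cons, Multiset.map_cons, Multiset.prod_cons, Multiset.prod_cons,
        Multiset.card_cons, norm_mul, norm_mul, mul_pow, mul_pow,
        ih fun x hx => hS x (Multiset.mem_cons_of_mem hx), hS a (Multiset.mem_cons_self a S)]
      ring
  have h1 := hprod B.roots hn
  have k2 := key 2
  have k1 := key 1
  push_cast at k1 k2
  rw [← k2, ← k1, hcard, ← Complex.ofReal_intCast, ← Complex.ofReal_intCast, Complex.norm_real,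
    Complex.norm_real, Real.norm_eq_abs, Real.norm_eq_abs, sq_abs, sq_abs] at h1
  exact_mod_cast h1

theorem three_dvd (A B : ℤ[X]) (g : ℕ) (hA : A.Monic) (hA1 : A ≠ 1)
    (hP : (A * B).map (Int.castRingHom (ZMod 3)) = (X ^ 2 - 1) ^ g)
    (hroot : ∀ x : ℂ, aeval x A = 0 → ‖x‖ ^ 2 = 2) : (3 : ℤ) ∣ A.eval 1 := by
  haveI : Fact (Nat.Prime 3) := ⟨by norm_num⟩
  by_contra hcon
  have h2 : ¬ (3 : ℤ) ∣ A.eval (-1) := by
    intro h
    have h3 : (3 : ℤ) ∣ A.eval 2 := by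
      have h4 : (2 - (-1) : ℤ) ∣ A.eval 2 - A.eval (-1) := sub_dvd_eval_sub 2 (-1) A
      have h5 : (3 : ℤ) ∣ A.eval 2 - A.eval (-1) := by
        have : (2 - (-1) : ℤ) = 3 := by norm_num
        rwa [this] at h4
      exact (dvd_sub_left h).1 h5
    have h4 : (3 : ℤ) ∣ 2 ^ A.natDegree * (A.eval 1) ^ 2 := by
      rw [← two_one A hA hroot]
      exact dvd_pow h3 two_ne_zero
    rcases Int.prime_three.dvd_or_dvd h4 with h5 | h5
    · have := Int.prime_three.dvd_of_dvd_pow h5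
      omega
    · exact hcon (Int.prime_three.dvd_of_dvd_pow h5)
  set A3 := A.map (Int.castRingHom (ZMod 3)) with hA3
  have hA3m : A3.Monic := hA.map _
  have hev : ∀ c : ℤ, ¬ (3 : ℤ) ∣ A.eval c → IsCoprime (X - C (c : ZMod 3)) A3 := by
    intro c hc
    refine (irreducible_X_sub_C (c : ZMod 3)).coprime_iff_not_dvd.2 ?_
    rw [dvd_iff_isRoot, IsRoot.def, hA3, eval_intCast_map]
    intro h
    exact hc ((ZMod.intCast_zmod_eq_zero_iff_dvd _ 3).1 h)
  have h3 := hev 1 hcon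
  have h4 := hev (-1) h2
  have h5 : IsCoprime ((X ^ 2 - 1 : (ZMod 3)[X]) ^ g) A3 := by
    refine IsCoprime.pow_left ?_
    have : (X ^ 2 - 1 : (ZMod 3)[X]) = (X - C ((1 : ℤ) : ZMod 3)) * (X - C ((-1 : ℤ) : ZMod 3)) := by
      push_cast
      rw [C_neg, C_1]
      ring
    rw [this]
    exact h3.mul_left h4
  have h6 : A3 ∣ (X ^ 2 - 1 : (ZMod 3)[X]) ^ g := by
    rw [← hP, Polynomial.map_mul]
    exact dvd_mul_right _ _
  have h7 : IsUnit A3 := h5.isUnit_of_dvd' h6 dvd_rfl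
  have h8 : A3 = 1 := hA3m.eq_one_of_isUnit h7
  apply hA1
  have h9 : A.natDegree = 0 := by
    rw [← hA.natDegree_map (Int.castRingHom (ZMod 3)), ← hA3, h8, natDegree_one]
  exact hA.natDegree_eq_zero.1 h9

/-- irreducibility -/
theorem irr_zero (P : ℤ[X]) (g : ℕ) (hPm : P.Monic) (hdeg : 1 ≤ P.natDegree)
    (hP : P.map (Int.castRingHom (ZMod 3)) = (X ^ 2 - 1) ^ g) (h9 : ¬ (9 : ℤ) ∣ P.eval 1)
    (hroot : ∀ x : ℂ, aeval x P = 0 → ‖x‖ ^ 2 = 2) :
    Irreducible (P.map (Int.castRingHom ℚ)) := by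
  have hmap : P.map (Int.castRingHom ℚ) = P.map (algebraMap ℤ ℚ) := rfl
  rw [hmap, ← hPm.irreducible_iff_irreducible_map_fraction_map]
  have hP1 : P ≠ 1 := by
    rintro rfl
    simp at hdeg
  rw [irreducible_of_monic hPm hP1]
  intro A B hA hB hAB
  by_contra hcon
  push Not at hcon
  obtain ⟨hA1, hB1⟩ := hcon
  have h1 := three_dvd A B g hA hA1 (by rw [hAB]; exact hP) (fun x hx => hroot x (by
    rw [← hAB, map_mul, hx, zero_mul]))
  have h2 := three_dvd B A g hB hB1 (by rw [mul_comm, hAB]; exact hP) (fun x hx => hroot x (by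
    rw [← hAB, map_mul, hx, mul_zero]))
  apply h9
  rw [← hAB, eval_mul]
  obtain ⟨a, ha⟩ := h1
  obtain ⟨b, hb⟩ := h2
  exact ⟨a * b, by rw [ha, hb]; ring⟩

end Pool.Agent.H503.WN
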