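import Pool.Agent.R80.WF.Asm
import Pool.Agent.Run7.h503.WN.Gen
import Pool.Agent.Run7.h503.WN.IrrZero
import Pool.Agent.Run7.h503.WN.Circle

set_option autoImplicit false

namespace Pool.Agent.H503.WN

open Polynomial Pool.Agent.R80.WF

/-- the residues modulo 3 -/
def res (g i : ℕ) : ZMod 3 := if 2 ∣ i then 2 ^ (i / 2) * ((g.choose (i / 2) : ℕ) : ZMod 3) else 0

theorem map_PP3 {g : ℕ} {a : ℕ → ℤ} (ha : ∀ i ≤ g, ((a i : ℤ) : ZMod 3) = res g i) :
    (PP 2 g a).map (Int.castRingHom (ZMod 3)) = (X ^ 2 - 1) ^ g := by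
  have hX : ((X : (ZMod 3)[X]) ^ 2 - 1) ^ g = expand (ZMod 3) 2 ((X + C 2) ^ g) := by
    rw [map_pow]
    congr 1
    rw [map_add, expand_X, expand_C]
    have h2 : (C (2 : ZMod 3) : (ZMod 3)[X]) = -1 := by
      rw [show (2 : ZMod 3) = -1 by decide, C_neg, C_1]
    rw [h2]
    ring
  rw [hX]
  ext k
  rw [coeff_map, coeff_expand (by norm_num : 0 < 2), coeff_X_add_C_pow, coeff_PP]
  by_cases hk : k < g
  · rw [if_pos hk]
    simp only [eq_intCast, Int.cast_mul, Int.cast_pow]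
    rw [ha k hk.le, res]
    by_cases h2 : 2 ∣ k
    · rw [if_pos h2, if_pos h2, ← mul_assoc]
      congr 1
      push_cast
      rw [← pow_add]
      congr 1
      omega
    · rw [if_neg h2, if_neg h2, mul_zero]
  · rw [if_neg hk]
    by_cases hkg : k = g
    · rw [if_pos hkg]
      subst hkg
      simp only [eq_intCast]
      rw [ha k le_rfl, res]
      by_cases h2 : 2 ∣ k
      · rw [if_pos h2, if_pos h2]
        congr 2
        omega
      · rw [if_neg h2, if_neg h2]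
    · rw [if_neg hkg]
      by_cases hk2 : k ≤ 2 * g
      · rw [if_pos hk2]
        simp only [eq_intCast]
        rw [ha (2 * g - k) (by omega), res]
        by_cases h2 : 2 ∣ k
        · rw [if_pos (by omega), if_pos h2]
          have h3 : (2 * g - k) / 2 = g - k / 2 := by omega
          rw [h3, Nat.choose_symm (by omega)]
        · rw [if_neg (by omega), if_neg h2]
      · rw [if_neg hk2]
        split_ifs with h2
        · rw [Nat.choose_eq_zero_of_lt (by omega)]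
          simp
        · simp

theorem eval_PP_one (g : ℕ) (a : ℕ → ℤ) : (PP 2 g a).eval 1 =
    ∑ i ∈ Finset.range g, a i * (1 + 2 ^ (g - i)) + a g := by
  rw [PP, eval_add, eval_finsetSum, eval_mul, eval_C, eval_pow, eval_X, one_pow, mul_one]
  congr 1
  refine Finset.sum_congr rfl fun i _ => ?_
  simp

theorem coeff_low {g : ℕ} {a : ℕ → ℤ} {i : ℕ} (hi : i ≤ g) (h : a i ≠ 0) :
    (PP 2 g a).coeff i ≠ 0 := by
  rw [coeff_PP]
  rcases lt_or_eq_of_le hi with h1 | h1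
  · rw [if_pos h1]
    exact mul_ne_zero (pow_ne_zero _ (by norm_num)) h
  · rw [if_neg (by omega), if_pos h1, ← h1]
    exact h

/-- the 2-adic conditions -/
theorem two_adic {g f : ℕ} {a : ℕ → ℤ} (hfg : f ≤ g) (hodd : ¬ (2 : ℤ) ∣ a f)
    (heven : ∀ i, f < i → i ≤ g → (2 : ℤ) ∣ a i) :
    (∀ i < 2 * g - f, ((2 : ℕ) : ℤ) ∣ (PP 2 g a).coeff i) ∧
      ¬ ((2 : ℕ) : ℤ) ∣ (PP 2 g a).coeff (2 * g - f) := by
  constructor
  · intro i hi
    rw [coeff_PP]
    by_cases h1 : i < g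
    · rw [if_pos h1]
      refine Dvd.dvd.mul_right (dvd_pow_self _ (by omega)) _
    · rw [if_neg h1]
      by_cases h2 : i = g
      · rw [if_pos h2]
        exact heven g (by omega) le_rfl
      · rw [if_neg h2, if_pos (by omega)]
        exact heven _ (by omega) (by omega)
  · rw [coeff_PP, if_neg (by omega)]
    by_cases h2 : 2 * g - f = g
    · rw [if_pos h2]
      have : g = f := by omega
      rw [this]
      exact hodd
    · rw [if_neg h2, if_pos (by omega)]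
      have : 2 * g - (2 * g - f) = f := by omega
      rw [this]
      exact hodd

theorem norm_sqrt {x : ℂ} (h : ‖x‖ ^ 2 = 2) : ‖x‖ = Real.sqrt ((2 : ℕ) : ℝ) := by
  have h2 : ((2 : ℕ) : ℝ) = ‖x‖ ^ 2 := by rw [h]; norm_num
  rw [h2, Real.sqrt_sq (norm_nonneg _)]

theorem ne_zero_of {x : ℂ} (h : ‖x‖ ^ 2 = 2) : x ≠ 0 := by
  rintro rfl
  rw [norm_zero] at h
  norm_num at h

/-- the main criterion -/
theorem good_zero (g f : ℕ) (a : ℕ → ℤ) (hg : 2 ≤ g) (hfg : f ≤ g) (ha0 : a 0 = 1)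
    (h3 : ∀ i ≤ g, ((a i : ℤ) : ZMod 3) = res g i)
    (hodd : ¬ (2 : ℤ) ∣ a f) (heven : ∀ i, f < i → i ≤ g → (2 : ℤ) ∣ a i)
    (h9 : (∑ i ∈ Finset.range g, a i * (1 + 2 ^ (g - i)) + a g) % 9 = 6)
    (hi2 : ∃ i ≤ g, ¬ 2 ∣ i ∧ a i ≠ 0) (hi3 : ∃ i ≤ g, ¬ 3 ∣ i ∧ a i ≠ 0)
    (hz : ∀ z : ℂ, ‖z‖ ^ 2 ≤ 1 / 2 →
      ∑ i ∈ Finset.range g, 2 * (a i : ℂ) * z ^ i + (a g : ℂ) * z ^ g ≠ 0) : Good 2 g f := by
  have hPm : (PP 2 g a).Monic := monic_PP (by omega) ha0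
  have hdeg : (PP 2 g a).natDegree = 2 * g := natDegree_PP (by omega) ha0
  have hmap := map_PP3 h3
  have hroot := circle g a (by omega) ha0 hz
  have h6 : (PP 2 g a).eval 1 % 9 = 6 := by rw [eval_PP_one]; exact h9
  have hirr := irr_zero (PP 2 g a) g hPm (by omega) hmap (by omega) hroot
  obtain ⟨c1, c2⟩ := two_adic hfg hodd heven
  obtain ⟨i2, hi2g, hi2', hi2a⟩ := hi2
  obtain ⟨i3, hi3g, hi3', hi3a⟩ := hi3
  obtain ⟨t, ht⟩ : ∃ t : ℕ, g ≤ 3 ^ t := ⟨g, (Nat.lt_pow_self (by norm_num)).le⟩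
  refine ⟨PP 2 g a, hPm, hdeg, hirr, fun x hx => norm_sqrt (hroot x hx), c1, c2, ?_⟩
  intro x hx n hn
  exact gen_three (PP 2 g a) hPm hirr h6 t (cert_three _ g t hPm ht hmap) i2 hi2'
    (coeff_low hi2g hi2a) i3 hi3' (coeff_low hi3g hi3a) x hx (ne_zero_of (hroot x hx)) n hn

end Pool.Agent.H503.WN
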